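import Pool.Agent.Helper865.Wid.Defs

set_option autoImplicit false

open MeasureTheory Set Filter Topology Metric

namespace Pool.Agent.Helper865.Wid



theorem vl_width_le {d : ℕ} (C : Set (E d)) (hne : C.Nonempty) (u : E d) (w : ℝ)
    (h : ∀ a ∈ C, ∀ b ∈ C, inner ℝ a u - inner ℝ b u ≤ w) : widthDir C u ≤ w := by
  unfold widthDir
  have hne' : ((fun x => inner ℝ x u) '' C).Nonempty := hne.image _
  have h1 : sSup ((fun x => inner ℝ x u) '' C) ≤ w + sInf ((fun x => inner ℝ x u) '' C) := by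
    apply csSup_le hne'
    rintro _ ⟨a, ha, rfl⟩
    have h2 : inner ℝ a u - w ≤ sInf ((fun x => inner ℝ x u) '' C) := by
      apply le_csInf hne'
      rintro _ ⟨b, hb, rfl⟩
      have := h a ha b hb
      dsimp only; linarith
    dsimp only; linarith
  linarith

theorem vl_nonempty {d : ℕ} (hd : 1 ≤ d) (t : ℝ) (ht : 0 < t) (C : Set (E d)) (hC : Convex ℝ C)
    (hw : ∀ u : E d, ‖u‖ = 1 → t ≤ widthDir C u) : (interior C).Nonempty := by
  obtain ⟨u0, hu0⟩ : ∃ u : E d, ‖u‖ = 1 := ⟨EuclideanSpace.single ⟨0, by omega⟩ 1, by simp⟩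
  have hne : C.Nonempty := by
    by_contra h
    rw [not_nonempty_iff_eq_empty] at h
    have h1 := hw u0 hu0
    rw [h] at h1
    have h2 : widthDir (∅ : Set (E d)) u0 = 0 := by
      unfold widthDir
      rw [image_empty, Real.sSup_empty, Real.sInf_empty, sub_zero]
    linarith
  rw [hC.interior_nonempty_iff_affineSpan_eq_top]
  by_contra hspan
  have hne2 : ((affineSpan ℝ C : AffineSubspace ℝ (E d)) : Set (E d)).Nonempty :=
    hne.mono (subset_affineSpan ℝ C)
  have hdir : (affineSpan ℝ C).direction ≠ ⊤ := by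
    rwa [Ne, AffineSubspace.direction_eq_top_iff_of_nonempty hne2]
  have hperp : ((affineSpan ℝ C).direction)ᗮ ≠ ⊥ := by
    rwa [Ne, Submodule.orthogonal_eq_bot_iff]
  obtain ⟨v, hv, hv0⟩ := Submodule.exists_mem_ne_zero_of_ne_bot hperp
  have hu : ‖(‖v‖⁻¹ : ℝ) • v‖ = 1 := norm_smul_inv_norm hv0
  have h1 : widthDir C ((‖v‖⁻¹ : ℝ) • v) ≤ 0 := by
    apply vl_width_le C hne
    intro a ha b hb
    have h2 : a - b ∈ (affineSpan ℝ C).direction := by
      have := AffineSubspace.vsub_mem_direction (subset_affineSpan ℝ C ha)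
        (subset_affineSpan ℝ C hb)
      simpa using this
    have h3 : inner ℝ (a - b) v = 0 := (Submodule.mem_orthogonal _ _).mp hv _ h2
    rw [← inner_sub_left, inner_smul_right, h3, mul_zero]
  linarith [hw _ hu]

theorem vl_diff {d : ℕ} (t : ℝ) (C : Set (E d)) (hC : Convex ℝ C)
    (hw : ∀ u : E d, ‖u‖ = 1 → t ≤ widthDir C u) (hne : (interior C).Nonempty) (v : E d)
    (hv : ‖v‖ < t) : ∃ a ∈ interior C, ∃ b ∈ interior C, v = a - b := by
  open scoped Pointwise in
  by_contra hcon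
  push Not at hcon
  have hSc : Convex ℝ (interior C) := hC.interior
  have hKc : Convex ℝ (interior C - interior C) := hSc.sub hSc
  have hKo : IsOpen (interior C - interior C) := isOpen_interior.sub_right
  have hvK : v ∉ interior C - interior C := by
    rw [Set.mem_sub]
    rintro ⟨a, ha, b, hb, hab⟩
    exact hcon a ha b hb hab.symm
  obtain ⟨f, hf⟩ := geometric_hahn_banach_open_point hKc hKo hvK
  obtain ⟨y, hy⟩ : ∃ y, ∀ x, f x = inner ℝ x y :=
    ⟨(InnerProductSpace.toDual ℝ (E d)).symm f, fun x => by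
      rw [real_inner_comm, InnerProductSpace.toDual_symm_apply]⟩
  have hy0 : y ≠ 0 := by
    intro h0
    obtain ⟨a, ha⟩ := hne
    have := hf (a - a) (Set.sub_mem_sub ha ha)
    rw [hy, hy, h0] at this
    simp at this
  have hyn : 0 < ‖y‖ := norm_pos_iff.mpr hy0
  have hu : ‖(‖y‖⁻¹ : ℝ) • y‖ = 1 := norm_smul_inv_norm hy0
  have key0 : ∀ a ∈ interior C, ∀ b ∈ interior C,
      inner ℝ a ((‖y‖⁻¹ : ℝ) • y) - inner ℝ b ((‖y‖⁻¹ : ℝ) • y) ≤ ‖v‖ := by
    intro a ha b hb
    have h1 := hf (a - b) (Set.sub_mem_sub ha hb)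
    rw [hy, hy] at h1
    have h2 : inner ℝ v y ≤ ‖v‖ * ‖y‖ := real_inner_le_norm v y
    rw [← inner_sub_left, inner_smul_right]
    calc ‖y‖⁻¹ * inner ℝ (a - b) y ≤ ‖y‖⁻¹ * (‖v‖ * ‖y‖) := by
          apply mul_le_mul_of_nonneg_left (by linarith) (by positivity)
      _ = ‖v‖ := by field_simp
  have hcl : closure (interior C) = closure C :=
    hC.closure_interior_eq_closure_of_nonempty_interior hne
  have key : ∀ a ∈ C, ∀ b ∈ C,
      inner ℝ a ((‖y‖⁻¹ : ℝ) • y) - inner ℝ b ((‖y‖⁻¹ : ℝ) • y) ≤ ‖v‖ := by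
    intro a ha b hb
    have hclosed : IsClosed {p : E d × E d |
        inner ℝ p.1 ((‖y‖⁻¹ : ℝ) • y) - inner ℝ p.2 ((‖y‖⁻¹ : ℝ) • y) ≤ ‖v‖} := by
      apply isClosed_le _ continuous_const
      exact (continuous_fst.inner continuous_const).sub (continuous_snd.inner continuous_const)
    have hsub : closure (interior C ×ˢ interior C) ⊆ {p : E d × E d |
        inner ℝ p.1 ((‖y‖⁻¹ : ℝ) • y) - inner ℝ p.2 ((‖y‖⁻¹ : ℝ) • y) ≤ ‖v‖} := by
      apply closure_minimal _ hclosed
      rintro ⟨p, q⟩ ⟨hp, hq⟩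
      exact key0 p hp q hq
    have hmem : (a, b) ∈ closure (interior C ×ˢ interior C) := by
      rw [closure_prod_eq, hcl]
      exact ⟨subset_closure ha, subset_closure hb⟩
    exact hsub hmem
  have h3 := vl_width_le C (hne.mono interior_subset) ((‖y‖⁻¹ : ℝ) • y) ‖v‖ key
  linarith [hw _ hu]

theorem vl_inter {d : ℕ} (t : ℝ) (ht : 0 < t) (S : Set (E d)) (hS : Convex ℝ S)
    (hdiff : ∀ v : E d, ‖v‖ < t → ∃ a ∈ S, ∃ b ∈ S, v = a - b) (hfin : volume S ≠ ⊤)
    (x : E d) (hx : ‖x‖ < t) :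
    ENNReal.ofReal ((1 - ‖x‖ / t) ^ d) * volume S ≤ volume (S ∩ {y | y - x ∈ S}) := by
  have hxt : ‖x‖ / t < 1 := by rw [div_lt_one ht]; exact hx
  have hlam : ∀ lam ∈ Ioo (‖x‖ / t) 1,
      ENNReal.ofReal ((1 - lam) ^ d) * volume S ≤ volume (S ∩ {y | y - x ∈ S}) := by
    intro lam hl
    have hl0 : 0 < lam := lt_of_le_of_lt (by positivity) hl.1
    have hv : ‖(lam⁻¹ : ℝ) • x‖ < t := by
      rw [norm_smul, norm_inv, Real.norm_of_nonneg hl0.le]
      rw [inv_mul_lt_iff₀ hl0]
      have := hl.1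
      rw [div_lt_iff₀ ht] at this
      linarith
    obtain ⟨a, ha, b, hb, hab⟩ := hdiff _ hv
    have hx2 : x = lam • (a - b) := by
      rw [← hab, smul_smul, mul_inv_cancel₀ hl0.ne', one_smul]
    have hsub : (AffineMap.homothety a (1 - lam)) '' S ⊆ S ∩ {y | y - x ∈ S} := by
      rintro _ ⟨s, hs, rfl⟩
      have e1 : (AffineMap.homothety a (1 - lam)) s = (1 - lam) • s + lam • a := by
        rw [AffineMap.homothety_apply]
        simp only [vsub_eq_sub, vadd_eq_add]
        module
      rw [e1]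
      refine ⟨hS hs ha (by linarith [hl.2]) hl0.le (by ring), ?_⟩
      have e2 : (1 - lam) • s + lam • a - x = (1 - lam) • s + lam • b := by
        rw [hx2]; module
      change (1 - lam) • s + lam • a - x ∈ S
      rw [e2]
      exact hS hs hb (by linarith [hl.2]) hl0.le (by ring)
    refine le_trans (le_of_eq ?_) (measure_mono hsub)
    rw [Measure.addHaar_image_homothety, finrank_euclideanSpace_fin,
      abs_of_nonneg (pow_nonneg (by linarith [hl.2]) d)]
  have htend : Tendsto (fun lam : ℝ => ENNReal.ofReal ((1 - lam) ^ d) * volume S)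
      (𝓝[>] (‖x‖ / t)) (𝓝 (ENNReal.ofReal ((1 - ‖x‖ / t) ^ d) * volume S)) := by
    apply ENNReal.Tendsto.mul_const _ (Or.inr hfin)
    apply (ENNReal.continuous_ofReal.tendsto _).comp
    have hc : Continuous (fun lam : ℝ => (1 - lam) ^ d) := by fun_prop
    exact (hc.tendsto _).mono_left nhdsWithin_le_nhds
  apply le_of_tendsto htend
  filter_upwards [Ioo_mem_nhdsGT hxt] with lam hl
  exact hlam lam hl

theorem vl_fubini {d : ℕ} (S : Set (E d)) (hS : MeasurableSet S) :
    ∫⁻ x : E d, volume (S ∩ {y | y - x ∈ S}) = volume S * volume S := by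
  have h1 : ∀ x : E d, volume (S ∩ {y | y - x ∈ S})
      = ∫⁻ y : E d, S.indicator 1 y * S.indicator 1 (y - x) := by
    intro x
    have hm : MeasurableSet (S ∩ {y | y - x ∈ S}) :=
      hS.inter ((measurable_id.sub_const x) hS)
    rw [← lintegral_indicator_one hm]
    congr 1
    funext y
    by_cases hy : y ∈ S
    · by_cases hy2 : y - x ∈ S
      · rw [indicator_of_mem (show y ∈ S ∩ {y | y - x ∈ S} from ⟨hy, hy2⟩), indicator_of_mem hy,
          indicator_of_mem hy2]
        simp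
      · rw [indicator_of_notMem (show y ∉ S ∩ {y | y - x ∈ S} from fun h => hy2 h.2),
          indicator_of_notMem hy2, mul_zero]
    · rw [indicator_of_notMem (show y ∉ S ∩ {y | y - x ∈ S} from fun h => hy h.1),
          indicator_of_notMem hy, zero_mul]
  simp only [h1]
  rw [lintegral_lintegral_swap]
  · have h2 : ∀ y : E d, ∫⁻ x : E d, S.indicator (1 : E d → ENNReal) y * S.indicator 1 (y - x)
        = S.indicator 1 y * volume S := by
      intro y
      rw [lintegral_const_mul]
      · rw [lintegral_sub_left_eq_self (fun z => S.indicator (1 : E d → ENNReal) z) y,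
          lintegral_indicator_one hS]
      · exact (measurable_one.indicator hS).comp (measurable_const.sub measurable_id)
    simp only [h2]
    rw [lintegral_mul_const _ (measurable_one.indicator hS), lintegral_indicator_one hS]
  · apply Measurable.aemeasurable
    have m1 : Measurable (fun p : E d × E d => S.indicator (1 : E d → ENNReal) p.2) :=
      (measurable_one.indicator hS).comp measurable_snd
    have m2 : Measurable (fun p : E d × E d => S.indicator (1 : E d → ENNReal) (p.2 - p.1)) :=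
      (measurable_one.indicator hS).comp (measurable_snd.sub measurable_fst)
    exact m1.mul m2

theorem vl_beta (m : ℕ) : ∀ n : ℕ, (∫ s in (0:ℝ)..1, s ^ n * (1 - s) ^ m) * ((n + m + 1).factorial : ℝ)
    = (n.factorial : ℝ) * (m.factorial : ℝ) := by
  induction m with
  | zero =>
    intro n
    simp only [pow_zero, mul_one, add_zero, Nat.factorial_zero, Nat.cast_one]
    rw [integral_pow, Nat.factorial_succ]
    push_cast
    have : ((n : ℝ) + 1) ≠ 0 := by positivity
    field_simp
    ring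
  | succ m ih =>
    intro n
    have hby : ((n : ℝ) + 1) * (∫ s in (0:ℝ)..1, s ^ n * (1 - s) ^ (m + 1))
        = ((m : ℝ) + 1) * ∫ s in (0:ℝ)..1, s ^ (n + 1) * (1 - s) ^ m := by
      have hder : ∀ s ∈ uIcc (0:ℝ) 1, HasDerivAt (fun s : ℝ => s ^ (n + 1) * (1 - s) ^ (m + 1))
          (((n : ℝ) + 1) * (s ^ n * (1 - s) ^ (m + 1))
            - ((m : ℝ) + 1) * (s ^ (n + 1) * (1 - s) ^ m)) s := by
        intro s _
        have d1 : HasDerivAt (fun s : ℝ => s ^ (n + 1)) (((n + 1 : ℕ) : ℝ) * s ^ (n + 1 - 1)) s :=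
          hasDerivAt_pow (n + 1) s
        have d2 : HasDerivAt (fun s : ℝ => 1 - s) (-1) s := (hasDerivAt_id s).const_sub 1
        have d3 : HasDerivAt (fun s : ℝ => (1 - s) ^ (m + 1))
            (((m + 1 : ℕ) : ℝ) * (1 - s) ^ (m + 1 - 1) * (-1)) s := d2.pow (m + 1)
        have d4 := d1.mul d3
        have e : ((n + 1 : ℕ) : ℝ) * s ^ (n + 1 - 1) * (1 - s) ^ (m + 1)
            + s ^ (n + 1) * (((m + 1 : ℕ) : ℝ) * (1 - s) ^ (m + 1 - 1) * (-1))
            = ((n : ℝ) + 1) * (s ^ n * (1 - s) ^ (m + 1))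
            - ((m : ℝ) + 1) * (s ^ (n + 1) * (1 - s) ^ m) := by
          rw [Nat.add_sub_cancel, Nat.add_sub_cancel]
          push_cast
          ring
        rw [e] at d4
        exact d4
      have i1 : IntervalIntegrable (fun s : ℝ => ((n : ℝ) + 1) * (s ^ n * (1 - s) ^ (m + 1)))
          volume 0 1 := Continuous.intervalIntegrable (by fun_prop) _ _
      have i2 : IntervalIntegrable (fun s : ℝ => ((m : ℝ) + 1) * (s ^ (n + 1) * (1 - s) ^ m))
          volume 0 1 := Continuous.intervalIntegrable (by fun_prop) _ _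
      have h1 := intervalIntegral.integral_eq_sub_of_hasDerivAt hder (i1.sub i2)
      rw [intervalIntegral.integral_sub i1 i2, intervalIntegral.integral_const_mul,
        intervalIntegral.integral_const_mul] at h1
      simp at h1
      linarith
    have h2 := ih (n + 1)
    have h3 : ((n : ℝ) + 1) ≠ 0 := by positivity
    have e1 : n + (m + 1) + 1 = n + 1 + m + 1 := by ring
    rw [e1]
    have h4 : ((n : ℝ) + 1) * ((∫ s in (0:ℝ)..1, s ^ n * (1 - s) ^ (m + 1))
        * ((n + 1 + m + 1).factorial : ℝ))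
        = ((n : ℝ) + 1) * ((n.factorial : ℝ) * ((m + 1).factorial : ℝ)) := by
      calc ((n : ℝ) + 1) * ((∫ s in (0:ℝ)..1, s ^ n * (1 - s) ^ (m + 1))
            * ((n + 1 + m + 1).factorial : ℝ))
          = (((n : ℝ) + 1) * (∫ s in (0:ℝ)..1, s ^ n * (1 - s) ^ (m + 1)))
            * ((n + 1 + m + 1).factorial : ℝ) := by ring
        _ = ((m : ℝ) + 1) * ((∫ s in (0:ℝ)..1, s ^ (n + 1) * (1 - s) ^ m)
            * ((n + 1 + m + 1).factorial : ℝ)) := by rw [hby]; ring
        _ = ((m : ℝ) + 1) * (((n + 1).factorial : ℝ) * (m.factorial : ℝ)) := by rw [h2]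
        _ = ((n : ℝ) + 1) * ((n.factorial : ℝ) * ((m + 1).factorial : ℝ)) := by
            rw [Nat.factorial_succ, Nat.factorial_succ]; push_cast; ring
    exact mul_left_cancel₀ h3 h4

theorem vl_radial {d : ℕ} (hd : 1 ≤ d) (t : ℝ) (ht : 0 < t) :
    ∫⁻ x in ball (0 : E d) t, ENNReal.ofReal ((1 - ‖x‖ / t) ^ d)
      = ENNReal.ofReal (t ^ d / ((2 * d).choose d : ℝ)) * volume (closedBall (0 : E d) 1) := by
  obtain ⟨f, hf⟩ : ∃ f : ℝ → ℝ, f = (Iio t).indicator (fun r => (1 - r / t) ^ d) := ⟨_, rfl⟩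
  have hfn : ∀ x : E d, f ‖x‖ = (ball (0 : E d) t).indicator (fun x => (1 - ‖x‖ / t) ^ d) x := by
    intro x
    rw [hf]
    by_cases hx : ‖x‖ < t
    · rw [indicator_of_mem (show ‖x‖ ∈ Iio t from hx),
        indicator_of_mem (show x ∈ ball (0 : E d) t from by simpa using hx)]
    · rw [indicator_of_notMem (show ‖x‖ ∉ Iio t from hx),
        indicator_of_notMem (show x ∉ ball (0 : E d) t from by simpa using hx)]
  have hcont : Continuous (fun x : E d => (1 - ‖x‖ / t) ^ d) := by fun_prop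
  have hint : Integrable (fun x : E d => f ‖x‖) volume := by
    have h0 : (fun x : E d => f ‖x‖)
        = (ball (0 : E d) t).indicator (fun x => (1 - ‖x‖ / t) ^ d) := funext hfn
    rw [h0, integrable_indicator_iff measurableSet_ball]
    exact (hcont.continuousOn.integrableOn_compact (isCompact_closedBall 0 t)).mono_set
      ball_subset_closedBall
  have hnn : ∀ x : E d, 0 ≤ f ‖x‖ := by
    intro x
    rw [hfn]
    apply indicator_nonneg
    intro y hy
    have : ‖y‖ < t := by simpa using hy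
    apply pow_nonneg
    have : ‖y‖ / t < 1 := by rw [div_lt_one ht]; exact this
    linarith
  have h1 : ∫⁻ x in ball (0 : E d) t, ENNReal.ofReal ((1 - ‖x‖ / t) ^ d)
      = ∫⁻ x : E d, ENNReal.ofReal (f ‖x‖) := by
    rw [← lintegral_indicator measurableSet_ball]
    congr 1
    funext x
    rw [hfn]
    by_cases hx : x ∈ ball (0 : E d) t
    · rw [indicator_of_mem hx, indicator_of_mem hx]
    · rw [indicator_of_notMem hx, indicator_of_notMem hx, ENNReal.ofReal_zero]
  rw [h1, ← ofReal_integral_eq_lintegral_ofReal hint (ae_of_all _ hnn)]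
  haveI : Nontrivial (E d) := by
    haveI : Nonempty (Fin d) := ⟨⟨0, by omega⟩⟩
    infer_instance
  rw [integral_fun_norm_addHaar]
  have h2 : ∫ y in Ioi (0 : ℝ), y ^ (Module.finrank ℝ (E d) - 1) • f y
      = t ^ d * ∫ s in (0:ℝ)..1, s ^ (d - 1) * (1 - s) ^ d := by
    rw [finrank_euclideanSpace_fin]
    have h3 : ∀ y : ℝ, y ^ (d - 1) • f y
        = (Iio t).indicator (fun y => y ^ (d - 1) * (1 - y / t) ^ d) y := by
      intro y
      rw [hf]
      by_cases hy : y ∈ Iio t
      · rw [indicator_of_mem hy, indicator_of_mem hy, smul_eq_mul]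
      · rw [indicator_of_notMem hy, indicator_of_notMem hy, smul_zero]
    simp only [h3]
    rw [setIntegral_indicator measurableSet_Iio, Ioi_inter_Iio, ← integral_Ioc_eq_integral_Ioo,
      ← intervalIntegral.integral_of_le ht.le]
    have h4 : ∀ y : ℝ, y ^ (d - 1) * (1 - y / t) ^ d
        = (fun s : ℝ => t ^ (d - 1) * (s ^ (d - 1) * (1 - s) ^ d)) (y / t) := by
      intro y
      dsimp only
      rw [div_pow]
      field_simp
    simp only [h4]
    rw [intervalIntegral.integral_comp_div (fun s : ℝ => t ^ (d - 1) * (s ^ (d - 1) * (1 - s) ^ d))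
      ht.ne', zero_div, div_self ht.ne', intervalIntegral.integral_const_mul, smul_eq_mul,
      ← mul_assoc]
    congr 1
    obtain ⟨q, rfl⟩ : ∃ q, d = q + 1 := ⟨d - 1, by omega⟩
    rw [Nat.add_sub_cancel]
    ring
  rw [h2, finrank_euclideanSpace_fin, nsmul_eq_mul, smul_eq_mul]
  have hb := vl_beta d (d - 1)
  have e1 : d - 1 + d + 1 = 2 * d := by omega
  rw [e1] at hb
  have hch : ((2 * d).choose d : ℝ) * ((d.factorial : ℝ) * (d.factorial : ℝ))
      = ((2 * d).factorial : ℝ) := by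
    have := Nat.choose_mul_factorial_mul_factorial (show d ≤ 2 * d by omega)
    have e2 : 2 * d - d = d := by omega
    rw [e2] at this
    rw [← mul_assoc]
    exact_mod_cast this
  have hfac : (d : ℝ) * ((d - 1).factorial : ℝ) = (d.factorial : ℝ) := by
    exact_mod_cast Nat.mul_factorial_pred (by omega)
  obtain ⟨I, hI⟩ : ∃ I, I = ∫ s in (0:ℝ)..1, s ^ (d - 1) * (1 - s) ^ d := ⟨_, rfl⟩
  rw [← hI] at hb ⊢
  have hchpos : (0 : ℝ) < ((2 * d).choose d : ℝ) := by
    exact_mod_cast Nat.choose_pos (by omega)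
  have hfpos : (0 : ℝ) < (d.factorial : ℝ) := by exact_mod_cast Nat.factorial_pos d
  have hdI : (d : ℝ) * I = 1 / ((2 * d).choose d : ℝ) := by
    rw [eq_div_iff hchpos.ne']
    have h5 : ((d : ℝ) * I * ((2 * d).choose d : ℝ)) * ((d.factorial : ℝ) * (d.factorial : ℝ))
        = 1 * ((d.factorial : ℝ) * (d.factorial : ℝ)) := by
      calc ((d : ℝ) * I * ((2 * d).choose d : ℝ)) * ((d.factorial : ℝ) * (d.factorial : ℝ))
          = (d : ℝ) * (I * (((2 * d).choose d : ℝ) * ((d.factorial : ℝ) * (d.factorial : ℝ)))) := by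
            ring
        _ = (d : ℝ) * (((d - 1).factorial : ℝ) * (d.factorial : ℝ)) := by rw [hch, hb]
        _ = 1 * ((d.factorial : ℝ) * (d.factorial : ℝ)) := by rw [← mul_assoc, hfac, one_mul]
    exact mul_right_cancel₀ (by positivity) h5
  have hfinal : (d : ℝ) * ((volume : Measure (E d)).real (ball 0 1) * (t ^ d * I))
      = (t ^ d / ((2 * d).choose d : ℝ)) * (volume : Measure (E d)).real (ball 0 1) := by
    calc (d : ℝ) * ((volume : Measure (E d)).real (ball 0 1) * (t ^ d * I))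
        = ((d : ℝ) * I) * t ^ d * (volume : Measure (E d)).real (ball 0 1) := by ring
      _ = (t ^ d / ((2 * d).choose d : ℝ)) * (volume : Measure (E d)).real (ball 0 1) := by
          rw [hdI]; ring
  rw [hfinal, ENNReal.ofReal_mul (by positivity), Measure.addHaar_closedBall_eq_addHaar_ball]
  congr 1
  exact ENNReal.ofReal_toReal measure_ball_lt_top.ne

theorem volLowerSharp (d : ℕ) (t : ℝ) (ht : 0 < t) (C : Set (E d)) (hC : Convex ℝ C)
    (hb : C ⊆ closedBall 0 1) (hw : ∀ u : E d, ‖u‖ = 1 → t ≤ widthDir C u) (hd : 1 ≤ d) :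
    ENNReal.ofReal (t ^ d / ((2 * d).choose d : ℝ)) * volume (closedBall (0 : E d) 1)
      ≤ volume (interior C) := by
  have hne := vl_nonempty hd t ht C hC hw
  obtain ⟨S, hS⟩ : ∃ S, S = interior C := ⟨_, rfl⟩
  have hdiff : ∀ v : E d, ‖v‖ < t → ∃ a ∈ S, ∃ b ∈ S, v = a - b := by
    intro v hv
    rw [hS]
    exact vl_diff t C hC hw hne v hv
  rw [← hS] at hne ⊢
  have hSo : IsOpen S := by rw [hS]; exact isOpen_interior
  have hSc : Convex ℝ S := by rw [hS]; exact hC.interior
  have hSfin : volume S ≠ ⊤ := by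
    have h1 : S ⊆ closedBall 0 1 := by rw [hS]; exact interior_subset.trans hb
    exact ((measure_mono h1).trans_lt measure_closedBall_lt_top).ne
  have hSpos : volume S ≠ 0 := (hSo.measure_pos volume hne).ne'
  have h1 : (∫⁻ x in ball (0 : E d) t, ENNReal.ofReal ((1 - ‖x‖ / t) ^ d)) * volume S
      ≤ volume S * volume S := by
    rw [← vl_fubini S hSo.measurableSet]
    have hmeas : Measurable (fun x : E d => ENNReal.ofReal ((1 - ‖x‖ / t) ^ d)) := by fun_prop
    rw [← lintegral_mul_const _ hmeas]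
    calc ∫⁻ x in ball (0 : E d) t, ENNReal.ofReal ((1 - ‖x‖ / t) ^ d) * volume S
        ≤ ∫⁻ x in ball (0 : E d) t, volume (S ∩ {y | y - x ∈ S}) := by
          apply setLIntegral_mono' measurableSet_ball
          intro x hx
          exact vl_inter t ht S hSc hdiff hSfin x (by simpa using hx)
      _ ≤ ∫⁻ x : E d, volume (S ∩ {y | y - x ∈ S}) := setLIntegral_le_lintegral _ _
  rw [vl_radial hd t ht] at h1
  exact (ENNReal.mul_le_mul_iff_left hSpos hSfin).mp h1

end Pool.Agent.Helper865.Wid
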