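import Pool.Agent.Helper865.Wid.Defs

set_option autoImplicit false

open MeasureTheory Set Filter Topology Metric

namespace Pool.Agent.Helper865.Wid


theorem packUpperSharp
    (volLowerSharp : ∀ (d : ℕ) (t : ℝ), 0 < t → ∀ (C : Set (E d)), Convex ℝ C →
      C ⊆ closedBall 0 1 → (∀ u : E d, ‖u‖ = 1 → t ≤ widthDir C u) → 1 ≤ d →
      ENNReal.ofReal (t ^ d / ((2 * d).choose d : ℝ)) * volume (closedBall (0 : E d) 1)
        ≤ volume (interior C))
    (d : ℕ) (hd : 1 ≤ d) (t : ℝ) (ht : 0 < t) (m : ℕ) (C : Fin m → Set (E d))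
    (hC : IsPacking d t C) : (m : ℝ) ≤ ((2 * d).choose d : ℝ) / t ^ d := by
  obtain ⟨h1, h2⟩ := hC
  set V : ENNReal := volume (closedBall (0 : E d) 1) with hV
  have hVpos : V ≠ 0 := (measure_closedBall_pos volume 0 one_pos).ne'
  have hVfin : V ≠ ⊤ := measure_closedBall_lt_top.ne
  have hcp : (0:ℝ) < ((2 * d).choose d : ℝ) := by
    exact_mod_cast Nat.choose_pos (by omega)
  have htd : (0:ℝ) < t ^ d := by positivity
  have hdis : Pairwise (Function.onFun Disjoint fun i => interior (C i)) := fun i j hij => h2 i j hij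
  have hsum : ∑ i : Fin m, volume (interior (C i)) ≤ V := by
    rw [← tsum_fintype (L := SummationFilter.unconditional _), ← measure_iUnion hdis (fun i => isOpen_interior.measurableSet)]
    apply measure_mono
    apply iUnion_subset
    intro i
    exact interior_subset.trans (h1 i).2.1
  have hlow : ∀ i : Fin m, ENNReal.ofReal (t ^ d / ((2 * d).choose d : ℝ)) * V ≤ volume (interior (C i)) :=
    fun i => volLowerSharp d t ht (C i) (h1 i).1 (h1 i).2.1 (h1 i).2.2 hd
  have hle : (m : ENNReal) * (ENNReal.ofReal (t ^ d / ((2 * d).choose d : ℝ)) * V) ≤ V := by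
    calc (m : ENNReal) * (ENNReal.ofReal (t ^ d / ((2 * d).choose d : ℝ)) * V)
        = ∑ _i : Fin m, (ENNReal.ofReal (t ^ d / ((2 * d).choose d : ℝ)) * V) := by
          rw [Finset.sum_const, Finset.card_univ, Fintype.card_fin, nsmul_eq_mul]
      _ ≤ ∑ i : Fin m, volume (interior (C i)) := Finset.sum_le_sum fun i _ => hlow i
      _ ≤ V := hsum
  rw [← mul_assoc] at hle
  have hle2 : (m : ENNReal) * ENNReal.ofReal (t ^ d / ((2 * d).choose d : ℝ)) ≤ 1 := by
    by_contra hcon
    push Not at hcon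
    have := ENNReal.mul_lt_mul_left hVpos hVfin hcon
    rw [one_mul] at this
    exact absurd hle (not_le.mpr this)
  have hle3 : ENNReal.ofReal ((m:ℝ) * (t ^ d / ((2 * d).choose d : ℝ))) ≤ ENNReal.ofReal 1 := by
    rw [ENNReal.ofReal_mul (Nat.cast_nonneg m), ENNReal.ofReal_natCast, ENNReal.ofReal_one]
    exact hle2
  have hle4 := (ENNReal.ofReal_le_ofReal_iff zero_le_one).mp hle3
  rw [le_div_iff₀ htd]
  rw [mul_div_assoc'] at hle4
  rwa [div_le_one hcp] at hle4

end Pool.Agent.Helper865.Wid
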