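import Pool.Agent.Helper865.Wid.Defs

set_option autoImplicit false

open MeasureTheory Set Filter Topology Metric

namespace Pool.Agent.Helper865.Wid


theorem ballPacking_net (d : ℕ) (r t : ℝ) (ht : 0 < t) :
    ∃ F : Finset (E d), (∀ s ∈ F, s ∈ closedBall (0 : E d) r) ∧
      (∀ s ∈ F, ∀ s' ∈ F, s ≠ s' → t ≤ dist s s') ∧
      closedBall (0 : E d) r ⊆ ⋃ s ∈ F, closedBall s t := by
  obtain ⟨ε, hε⟩ : ∃ ε : NNReal, (ε : ℝ) = t := ⟨⟨t, ht.le⟩, rfl⟩
  obtain ⟨ε2, hε2⟩ : ∃ ε2 : NNReal, (ε2 : ℝ) = t/2 := ⟨⟨t/2, by positivity⟩, rfl⟩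
  have h2 : 2 * ε2 = ε := by
    apply NNReal.eq
    rw [NNReal.coe_mul, hε, hε2]
    simp
    ring
  have hfin : packingNumber ε (closedBall (0 : E d) r) ≠ ⊤ := by
    have h1 := packingNumber_two_mul_le_externalCoveringNumber ε2 (closedBall (0 : E d) r)
    rw [h2] at h1
    obtain ⟨N, hN1, hN2, hN3⟩ := exists_finite_isCover_of_isCompact (ε := ε2)
      (by
        intro h
        rw [h] at hε2
        simp at hε2
        linarith) (isCompact_closedBall (0 : E d) r)
    have h3 := hN3.externalCoveringNumber_le_encard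
    have h4 : N.encard < ⊤ := Set.encard_lt_top_iff.mpr hN2
    exact ((h1.trans h3).trans_lt h4).ne
  obtain ⟨C, hC1, hC2, hC3, hC4⟩ := exists_set_encard_eq_packingNumber hfin
  have hsub := maximalSeparatedSet_subset (ε := ε) (A := closedBall (0 : E d) r)
  have hsep := isSeparated_maximalSeparatedSet (ε := ε) (A := closedBall (0 : E d) r)
  have hcov := isCover_maximalSeparatedSet hfin
  have hF : (maximalSeparatedSet ε (closedBall (0 : E d) r)).Finite := by
    rw [← Set.encard_ne_top_iff, encard_maximalSeparatedSet hfin]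
    exact hfin
  refine ⟨hF.toFinset, ?_, ?_, ?_⟩
  · intro s hs
    rw [Set.Finite.mem_toFinset] at hs
    exact hsub hs
  · intro s hs s' hs' hne
    rw [Set.Finite.mem_toFinset] at hs hs'
    have h : (ε : ENNReal) < edist s s' := hsep hs hs' hne
    rw [edist_dist] at h
    have h5 : (ε : ENNReal) = ENNReal.ofReal t := by
      rw [← hε, ENNReal.ofReal_coe_nnreal]
    rw [h5, ENNReal.ofReal_lt_ofReal_iff_of_nonneg ht.le] at h
    exact h.le
  · rw [isCover_iff_subset_iUnion_closedBall] at hcov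
    intro x hx
    have := hcov hx
    simp only [Set.mem_iUnion] at this ⊢
    obtain ⟨y, hy, hxy⟩ := this
    rw [hε] at hxy
    exact ⟨y, (Set.Finite.mem_toFinset _).mpr hy, hxy⟩

theorem ballPacking_width (d : ℕ) (s : E d) (t : ℝ) (ht : 0 < t) (u : E d) (hu : ‖u‖ = 1) :
    t ≤ widthDir (closedBall s (t/2)) u := by
  unfold widthDir
  have hb : ∀ x ∈ closedBall s (t/2), |inner ℝ x u| ≤ ‖s‖ + t/2 := by
    intro x hx
    have h1 := abs_real_inner_le_norm x u
    rw [hu, mul_one] at h1
    have h2 : ‖x‖ ≤ ‖s‖ + ‖x - s‖ := by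
      have := norm_add_le s (x - s)
      simpa using this
    have h3 : ‖x - s‖ ≤ t/2 := by
      rw [← dist_eq_norm]; exact hx
    linarith
  have hA : BddAbove ((fun x => inner ℝ x u) '' closedBall s (t/2)) := by
    refine ⟨‖s‖ + t/2, ?_⟩
    rintro _ ⟨x, hx, rfl⟩
    exact (le_abs_self _).trans (hb x hx)
  have hB : BddBelow ((fun x => inner ℝ x u) '' closedBall s (t/2)) := by
    refine ⟨-(‖s‖ + t/2), ?_⟩
    rintro _ ⟨x, hx, rfl⟩
    have := (abs_le.mp (hb x hx)).1
    exact this
  have hi : inner ℝ u u = (1:ℝ) := by rw [real_inner_self_eq_norm_sq, hu]; norm_num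
  have h1 : inner ℝ s u + t/2 ≤ sSup ((fun x => inner ℝ x u) '' closedBall s (t/2)) := by
    apply le_csSup hA
    refine ⟨s + (t/2) • u, ?_, ?_⟩
    · rw [mem_closedBall, dist_eq_norm, add_sub_cancel_left, norm_smul, hu, Real.norm_eq_abs,
        abs_of_pos (by positivity)]
      linarith
    · simp only [inner_add_left, inner_smul_left, hi]
      simp
  have h2 : sInf ((fun x => inner ℝ x u) '' closedBall s (t/2)) ≤ inner ℝ s u - t/2 := by
    apply csInf_le hB
    refine ⟨s + (-(t/2)) • u, ?_, ?_⟩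
    · rw [mem_closedBall, dist_eq_norm, add_sub_cancel_left, norm_smul, hu, Real.norm_eq_abs,
        abs_neg, abs_of_pos (by positivity)]
      linarith
    · simp only [inner_add_left, inner_smul_left, hi]
      simp
      ring
  linarith

theorem ballPacking (d : ℕ) (hd : 1 ≤ d) (t : ℝ) (ht : 0 < t) (ht1 : t ≤ 1) :
    ∃ (m : ℕ) (C : Fin m → Set (E d)), IsPacking d t C ∧ (1 / t - 1 / 2) ^ d ≤ (m : ℝ) := by
  have : Nonempty (Fin d) := ⟨⟨0, hd⟩⟩
  obtain ⟨F, hF1, hF2, hF3⟩ := ballPacking_net d (1 - t/2) t ht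
  refine ⟨F.card, fun i => closedBall ((F.equivFin.symm i : F) : E d) (t/2), ⟨?_, ?_⟩, ?_⟩
  · intro i
    refine ⟨convex_closedBall _ _, ?_, fun u hu => ballPacking_width d _ t ht u hu⟩
    apply closedBall_subset_closedBall'
    have := hF1 _ (F.equivFin.symm i).2
    rw [mem_closedBall] at this
    linarith
  · intro i j hij
    rw [interior_closedBall _ (by positivity : t/2 ≠ 0), interior_closedBall _ (by positivity : t/2 ≠ 0)]
    apply ball_disjoint_ball
    have := hF2 _ (F.equivFin.symm i).2 _ (F.equivFin.symm j).2 (by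
      intro h
      exact hij (F.equivFin.symm.injective (Subtype.ext h)))
    linarith
  · have h1 : volume (closedBall (0 : E d) (1 - t/2)) ≤ ∑ s ∈ F, volume (closedBall s t) :=
      (measure_mono hF3).trans (measure_biUnion_finset_le F _)
    simp only [Measure.addHaar_closedBall _ _ (by linarith : (0:ℝ) ≤ 1 - t/2),
      Measure.addHaar_closedBall _ _ ht.le, Finset.sum_const, nsmul_eq_mul] at h1
    rw [← mul_assoc] at h1
    have hV : volume (ball (0 : E d) 1) ≠ 0 := (measure_ball_pos volume (0 : E d) one_pos).ne'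
    have hV' : volume (ball (0 : E d) 1) ≠ ⊤ := measure_ball_lt_top.ne
    rw [ENNReal.mul_le_mul_iff_left hV hV'] at h1
    have hfr : Module.finrank ℝ (E d) = d := by simp
    rw [hfr] at h1
    have h2 : (1 - t/2)^d ≤ F.card * t^d := by
      have h3 : (F.card : ENNReal) * ENNReal.ofReal (t^d) = ENNReal.ofReal (F.card * t^d) := by
        rw [ENNReal.ofReal_mul (by positivity)]
        simp
      rw [h3] at h1
      exact (ENNReal.ofReal_le_ofReal_iff (by positivity)).mp h1
    have h4 : 1/t - 1/2 = (1 - t/2)/t := by field_simp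
    rw [h4, div_pow, div_le_iff₀ (by positivity)]
    exact h2

end Pool.Agent.Helper865.Wid
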