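import Pool.Agent.Helper865.Wid.Defs

set_option autoImplicit false

open MeasureTheory Set Filter Topology Metric

namespace Pool.Agent.Helper865.Wid


/-- sign -/
noncomputable def osg {d : ℕ} (s : Fin d → Bool) (i : Fin d) : ℝ := if s i then 1 else -1

/-- orthant piece -/
def orth {d : ℕ} (s : Fin d → Bool) : Set (E d) :=
  {x | x ∈ closedBall (0 : E d) 1 ∧ ∀ i, 0 ≤ osg s i * x i}

theorem osg_sq {d : ℕ} (s : Fin d → Bool) (i : Fin d) : osg s i * osg s i = 1 := by
  unfold osg; split_ifs <;> norm_num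

theorem orth_convex {d : ℕ} (s : Fin d → Bool) : Convex ℝ (orth s) := by
  rintro x ⟨hx1, hx2⟩ y ⟨hy1, hy2⟩ a b ha hb hab
  refine ⟨convex_closedBall _ _ hx1 hy1 ha hb hab, fun i => ?_⟩
  have e : osg s i * (a • x + b • y) i = a * (osg s i * x i) + b * (osg s i * y i) := by
    simp only [PiLp.add_apply, PiLp.smul_apply, smul_eq_mul]; ring
  rw [e]
  exact add_nonneg (mul_nonneg ha (hx2 i)) (mul_nonneg hb (hy2 i))

theorem orth_disj {d : ℕ} (s s' : Fin d → Bool) (h : s ≠ s') :
    Disjoint (interior (orth s)) (interior (orth s')) := by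
  rw [Set.disjoint_left]
  intro z hz hz'
  obtain ⟨i, hi⟩ := Function.ne_iff.1 h
  have hzero : ∀ x : E d, x ∈ orth s → x ∈ orth s' → x i = 0 := by
    intro x hx hx'
    have h1 := hx.2 i
    have h2 := hx'.2 i
    unfold osg at h1 h2
    cases hs : s i <;> cases hs' : s' i
    · rw [hs, hs'] at hi; exact absurd rfl hi
    · rw [hs] at h1; rw [hs'] at h2; simp at h1 h2; linarith
    · rw [hs] at h1; rw [hs'] at h2; simp at h1 h2; linarith
    · rw [hs, hs'] at hi; exact absurd rfl hi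
  have hc : Continuous (fun ε : ℝ => z + ε • (EuclideanSpace.single i (1:ℝ) : E d)) := by fun_prop
  have hopen : IsOpen (interior (orth s) ∩ interior (orth s')) := isOpen_interior.inter isOpen_interior
  have hmem : ∀ᶠ ε in 𝓝 (0:ℝ), z + ε • (EuclideanSpace.single i (1:ℝ) : E d) ∈
      interior (orth s) ∩ interior (orth s') := by
    have h0 : (fun ε : ℝ => z + ε • (EuclideanSpace.single i (1:ℝ) : E d)) 0 ∈
      interior (orth s) ∩ interior (orth s') := by
      simp only [zero_smul, add_zero]; exact ⟨hz, hz'⟩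
    exact hc.continuousAt.preimage_mem_nhds (hopen.mem_nhds h0)
  have h2 : ∀ᶠ ε in 𝓝[>] (0:ℝ), z + ε • (EuclideanSpace.single i (1:ℝ) : E d) ∈
      interior (orth s) ∩ interior (orth s') := hmem.filter_mono nhdsWithin_le_nhds
  obtain ⟨ε, hε, hε0⟩ := (h2.and self_mem_nhdsWithin).exists
  have e1 := hzero _ (interior_subset hε.1) (interior_subset hε.2)
  have e2 := hzero _ (interior_subset hz) (interior_subset hz')
  simp only [PiLp.add_apply, PiLp.smul_apply, smul_eq_mul, e2, EuclideanSpace.single_apply] at e1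
  simp at e1
  have : (0:ℝ) < ε := hε0
  linarith

theorem orth_width {d : ℕ} (s : Fin d → Bool) (u : E d) (hu : ‖u‖ = 1) : 1 ≤ widthDir (orth s) u := by
  have hin : ∀ x y : E d, inner ℝ x y = ∑ i, x i * y i := by
    intro x y
    rw [PiLp.inner_apply]
    refine Finset.sum_congr rfl fun i _ => ?_
    simp [mul_comm]
  have hn : ∀ x : E d, ‖x‖ ^ 2 = ∑ i, x i * x i := by
    intro x
    rw [← hin, real_inner_self_eq_norm_sq]
  obtain ⟨p, hp⟩ : ∃ p : E d, ∀ i, p i = if 0 < osg s i * u i then u i else 0 :=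
    ⟨WithLp.toLp 2 fun i => if 0 < osg s i * u i then u i else 0, fun i => rfl⟩
  obtain ⟨q, hq⟩ : ∃ q : E d, ∀ i, q i = if osg s i * u i < 0 then - u i else 0 :=
    ⟨WithLp.toLp 2 fun i => if osg s i * u i < 0 then - u i else 0, fun i => rfl⟩
  have hpu : inner ℝ p u = ‖p‖ ^ 2 := by
    rw [hin, hn]
    refine Finset.sum_congr rfl fun i _ => ?_
    rw [hp]; split_ifs <;> simp
  have hqu : inner ℝ q u = - ‖q‖ ^ 2 := by
    rw [hin, hn, ← Finset.sum_neg_distrib]
    refine Finset.sum_congr rfl fun i _ => ?_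
    rw [hq]; split_ifs <;> ring
  have hsum : ‖p‖ ^ 2 + ‖q‖ ^ 2 = 1 := by
    have h1 : ‖u‖ ^ 2 = 1 := by rw [hu]; norm_num
    rw [← h1, hn, hn, hn, ← Finset.sum_add_distrib]
    refine Finset.sum_congr rfl fun i _ => ?_
    rw [hp, hq]
    rcases lt_trichotomy (osg s i * u i) 0 with h | h | h
    · rw [if_neg (not_lt.2 h.le), if_pos h]; ring
    · have hu0 : u i = 0 := by
        have h2 := osg_sq s i
        have h3 : osg s i * (osg s i * u i) = 0 := by rw [h]; ring
        rw [← mul_assoc, h2, one_mul] at h3; exact h3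
      rw [hu0]; simp
    · rw [if_pos h, if_neg (not_lt.2 h.le)]; ring
  have hmem : ∀ v : E d, (∀ i, 0 ≤ osg s i * v i) → (‖v‖⁻¹ • v) ∈ orth s := by
    intro v hv
    refine ⟨?_, fun i => ?_⟩
    · rw [mem_closedBall_zero_iff, norm_smul, norm_inv, norm_norm]
      exact inv_mul_le_one
    · have e : osg s i * (‖v‖⁻¹ • v) i = ‖v‖⁻¹ * (osg s i * v i) := by
        simp only [PiLp.smul_apply, smul_eq_mul]; ring
      rw [e]
      exact mul_nonneg (inv_nonneg.2 (norm_nonneg _)) (hv i)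
  have hpm := hmem p (fun i => by
    rw [hp]; split_ifs with h
    · exact h.le
    · simp)
  have hqm := hmem q (fun i => by
    rw [hq]; split_ifs with h
    · have : osg s i * -u i = -(osg s i * u i) := by ring
      rw [this]; linarith
    · simp)
  have hbd : ∀ x ∈ orth s, |inner ℝ x u| ≤ 1 := by
    intro x hx
    have h1 := abs_real_inner_le_norm x u
    have h2 := mem_closedBall_zero_iff.1 hx.1
    rw [hu, mul_one] at h1
    exact h1.trans h2
  have hba : BddAbove ((fun x => inner ℝ x u) '' (orth s)) := by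
    refine ⟨1, ?_⟩
    rintro _ ⟨x, hx, rfl⟩
    exact (abs_le.1 (hbd x hx)).2
  have hbb : BddBelow ((fun x => inner ℝ x u) '' (orth s)) := by
    refine ⟨-1, ?_⟩
    rintro _ ⟨x, hx, rfl⟩
    exact (abs_le.1 (hbd x hx)).1
  have h1 : ‖p‖ ≤ sSup ((fun x => inner ℝ x u) '' (orth s)) := by
    refine le_csSup hba ⟨_, hpm, ?_⟩
    simp only
    rw [real_inner_smul_left, hpu]
    by_cases h0 : ‖p‖ = 0
    · rw [h0]; simp
    · field_simp
  have h2 : sInf ((fun x => inner ℝ x u) '' (orth s)) ≤ -‖q‖ := by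
    refine csInf_le hbb ⟨_, hqm, ?_⟩
    simp only
    rw [real_inner_smul_left, hqu]
    by_cases h0 : ‖q‖ = 0
    · rw [h0]; simp
    · field_simp
  unfold widthDir
  have hp0 := norm_nonneg p
  have hq0 := norm_nonneg q
  have h3 : 1 ≤ ‖p‖ + ‖q‖ := by nlinarith [mul_nonneg hp0 hq0]
  linarith


theorem orthants (d : ℕ) (t : ℝ) (ht1 : t ≤ 1) :
    ∃ C : Fin (2 ^ d) → Set (E d), IsPacking d t C := by
  obtain ⟨e⟩ : Nonempty (Fin (2 ^ d) ≃ (Fin d → Bool)) := ⟨(Fintype.equivFinOfCardEq (by simp)).symm⟩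
  refine ⟨fun k => orth (e k), fun k => ⟨orth_convex _, fun x hx => hx.1, fun u hu => ?_⟩, ?_⟩
  · exact ht1.trans (orth_width _ u hu)
  · intro i j hij
    exact orth_disj _ _ (fun h => hij (e.injective h))

end Pool.Agent.Helper865.Wid
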