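import Pool.Agent.Helper865.Wid.Defs

set_option autoImplicit false

open MeasureTheory Set Filter Topology Metric

namespace Pool.Agent.Helper865.Wid


theorem exists_unit (d : ℕ) (hd : 1 ≤ d) : ∃ u : E d, ‖u‖ = 1 :=
  ⟨EuclideanSpace.single (⟨0, hd⟩ : Fin d) (1 : ℝ), by simp⟩

theorem ne_of_width {d : ℕ} (hd : 1 ≤ d) {t : ℝ} (ht : 0 < t) {C : Set (E d)}
    (hw : ∀ u : E d, ‖u‖ = 1 → t ≤ widthDir C u) : C.Nonempty := by
  by_contra h
  rw [Set.not_nonempty_iff_eq_empty] at h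
  obtain ⟨u, hu⟩ := exists_unit d hd
  have := hw u hu
  rw [h] at this
  simp [widthDir] at this
  linarith

theorem interior_ne {d : ℕ} (hd : 1 ≤ d) {t : ℝ} (ht : 0 < t) {C : Set (E d)}
    (hconv : Convex ℝ C)
    (hw : ∀ u : E d, ‖u‖ = 1 → t ≤ widthDir C u) : (interior C).Nonempty := by
  have hne := ne_of_width hd ht hw
  by_contra h
  rw [hconv.interior_nonempty_iff_affineSpan_eq_top] at h
  have hne' : (affineSpan ℝ C : Set (E d)).Nonempty := hne.mono (subset_affineSpan ℝ C)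
  have hdir : (affineSpan ℝ C).direction ≠ ⊤ := fun h' =>
    h ((AffineSubspace.direction_eq_top_iff_of_nonempty hne').1 h')
  have horth : (affineSpan ℝ C).directionᗮ ≠ ⊥ := fun h' =>
    hdir ((Submodule.orthogonal_eq_bot_iff).1 h')
  obtain ⟨w, hw1, hw2⟩ := Submodule.exists_mem_ne_zero_of_ne_bot horth
  have hwn : ‖w‖ ≠ 0 := norm_ne_zero_iff.2 hw2
  have hun : ‖(‖w‖⁻¹ • w : E d)‖ = 1 := by
    rw [norm_smul, norm_inv, norm_norm, inv_mul_cancel₀ hwn]
  obtain ⟨y, hy⟩ := hne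
  have hconst : ∀ x ∈ C, inner ℝ x (‖w‖⁻¹ • w) = inner ℝ y (‖w‖⁻¹ • w) := by
    intro x hx
    have h1 : x -ᵥ y ∈ (affineSpan ℝ C).direction :=
      AffineSubspace.vsub_mem_direction (subset_affineSpan ℝ C hx) (subset_affineSpan ℝ C hy)
    have h2 : inner ℝ (x -ᵥ y) w = 0 := Submodule.inner_right_of_mem_orthogonal h1 hw1
    rw [vsub_eq_sub, inner_sub_left] at h2
    rw [inner_smul_right, inner_smul_right]
    have : inner ℝ x w = inner ℝ y w := by linarith
    rw [this]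
  have himg : (fun x => inner ℝ x (‖w‖⁻¹ • w)) '' C = {inner ℝ y (‖w‖⁻¹ • w)} := by
    ext r
    constructor
    · rintro ⟨x, hx, rfl⟩
      exact hconst x hx
    · intro hr
      exact ⟨y, hy, hr.symm⟩
  have := hw _ hun
  unfold widthDir at this
  rw [himg] at this
  simp at this
  linarith

theorem level_le {d : ℕ} (hd : 1 ≤ d) {t : ℝ} (ht : 0 < t) {C : Set (E d)}
    (hball : C ⊆ closedBall 0 1)
    (hw : ∀ u : E d, ‖u‖ = 1 → t ≤ widthDir C u) (u : E d) (hu : ‖u‖ = 1) (c : ℝ)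
    (hc : ∀ x ∈ C, c ≤ inner ℝ x u) : c ≤ 1 - t := by
  have hne := ne_of_width hd ht hw
  have h1 := hw u hu
  unfold widthDir at h1
  have h2 : sSup ((fun x => inner ℝ x u) '' C) ≤ 1 := by
    apply csSup_le (hne.image _)
    rintro r ⟨x, hx, rfl⟩
    have hx1 : ‖x‖ ≤ 1 := by simpa using hball hx
    calc inner ℝ x u ≤ ‖x‖ * ‖u‖ := real_inner_le_norm x u
      _ ≤ 1 := by rw [hu, mul_one]; exact hx1
  have h3 : c ≤ sInf ((fun x => inner ℝ x u) '' C) := by
    apply le_csInf (hne.image _)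
    rintro r ⟨x, hx, rfl⟩
    exact hc x hx
  linarith

theorem pair_sep {d : ℕ} (hd : 1 ≤ d) {t : ℝ} (ht : 0 < t) {A B : Set (E d)}
    (hA : Convex ℝ A) (hB : Convex ℝ B) (hAb : A ⊆ closedBall 0 1) (hBb : B ⊆ closedBall 0 1)
    (hAw : ∀ u : E d, ‖u‖ = 1 → t ≤ widthDir A u)
    (hBw : ∀ u : E d, ‖u‖ = 1 → t ≤ widthDir B u)
    (hdisj : Disjoint (interior A) (interior B)) :
    ∃ v : E d, ‖v‖ = 1 ∧ (∀ x ∈ A, -(1 - t) ≤ inner ℝ x v) ∧
      ∀ x ∈ B, -(1 - t) ≤ inner ℝ x (-v) := by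
  have hAi := interior_ne hd ht hA hAw
  have hBi := interior_ne hd ht hB hBw
  obtain ⟨f, c, hf1, hf2⟩ := geometric_hahn_banach_open (hB.interior) isOpen_interior
    hA.interior hdisj.symm
  set w : E d := (InnerProductSpace.toDual ℝ (E d)).symm f with hwdef
  have hfw : ∀ x, f x = inner ℝ x w := by
    intro x
    rw [real_inner_comm, hwdef, InnerProductSpace.toDual_symm_apply]
  have hw0 : w ≠ 0 := by
    intro h0
    obtain ⟨a, ha⟩ := hAi
    obtain ⟨b, hb⟩ := hBi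
    have h1 := hf1 b hb
    have h2 := hf2 a ha
    rw [hfw, h0, inner_zero_right] at h1 h2
    linarith
  have hwn : 0 < ‖w‖ := norm_pos_iff.2 hw0
  have hA' : ∀ x ∈ A, c ≤ f x := by
    intro x hx
    have hcl : x ∈ closure (interior A) := by
      rw [hA.closure_interior_eq_closure_of_nonempty_interior hAi]
      exact subset_closure hx
    have hclosed : IsClosed {x : E d | c ≤ f x} := isClosed_le continuous_const f.continuous
    exact closure_minimal (fun y hy => hf2 y hy) hclosed hcl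
  have hB' : ∀ x ∈ B, f x ≤ c := by
    intro x hx
    have hcl : x ∈ closure (interior B) := by
      rw [hB.closure_interior_eq_closure_of_nonempty_interior hBi]
      exact subset_closure hx
    have hclosed : IsClosed {x : E d | f x ≤ c} := isClosed_le f.continuous continuous_const
    exact closure_minimal (fun y hy => (hf1 y hy).le) hclosed hcl
  have hun : ‖(‖w‖⁻¹ • w : E d)‖ = 1 := by
    rw [norm_smul, norm_inv, norm_norm, inv_mul_cancel₀ hwn.ne']
  have hA2 : ∀ x ∈ A, ‖w‖⁻¹ * c ≤ inner ℝ x (‖w‖⁻¹ • w) := by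
    intro x hx
    rw [inner_smul_right, ← hfw]
    exact mul_le_mul_of_nonneg_left (hA' x hx) (by positivity)
  have hB2 : ∀ x ∈ B, -(‖w‖⁻¹ * c) ≤ inner ℝ x (-(‖w‖⁻¹ • w)) := by
    intro x hx
    rw [inner_neg_right, inner_smul_right, ← hfw, neg_le_neg_iff]
    exact mul_le_mul_of_nonneg_left (hB' x hx) (by positivity)
  have hc1 : ‖w‖⁻¹ * c ≤ 1 - t := level_le hd ht hAb hAw _ hun _ hA2
  have hc2 : -(‖w‖⁻¹ * c) ≤ 1 - t :=
    level_le hd ht hBb hBw _ (by rw [norm_neg]; exact hun) _ hB2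
  refine ⟨‖w‖⁻¹ • w, hun, fun x hx => ?_, fun x hx => ?_⟩
  · have := hA2 x hx
    linarith
  · have := hB2 x hx
    linarith

theorem separators (d : ℕ) (hd : 1 ≤ d) (t : ℝ) (ht : 0 < t) (m : ℕ) (C : Fin m → Set (E d))
    (hC : IsPacking d t C) :
    ∃ (u : Fin m → Fin m → E d), ∀ i j, i ≠ j →
      ‖u i j‖ = 1 ∧ u j i = - u i j ∧ ∀ x ∈ C i, -(1 - t) ≤ inner ℝ x (u i j) := by
  classical
  have key : ∀ i j : Fin m, i ≠ j → ∃ v : E d, ‖v‖ = 1 ∧
      (∀ x ∈ C i, -(1 - t) ≤ inner ℝ x v) ∧ ∀ x ∈ C j, -(1 - t) ≤ inner ℝ x (-v) := by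
    intro i j hij
    exact pair_sep hd ht (hC.1 i).1 (hC.1 j).1 (hC.1 i).2.1 (hC.1 j).2.1 (hC.1 i).2.2
      (hC.1 j).2.2 (hC.2 i j hij)
  choose v hv1 hv2 hv3 using key
  refine ⟨fun i j => if h : i < j then v i j h.ne else if h : j < i then - v j i h.ne else 0, ?_⟩
  intro i j hij
  rcases lt_or_gt_of_ne hij with h | h
  · have h' : ¬ j < i := not_lt.2 h.le
    simp only [h, h', dif_pos, dif_neg, not_false_eq_true]
    exact ⟨hv1 i j h.ne, trivial, hv2 i j h.ne⟩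
  · have h' : ¬ i < j := not_lt.2 h.le
    simp only [h, h', dif_pos, dif_neg, not_false_eq_true]
    refine ⟨by rw [norm_neg]; exact hv1 j i h.ne, by rw [neg_neg], hv3 j i h.ne⟩

end Pool.Agent.Helper865.Wid
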