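import Pool.Agent.Helper865.Wid.Defs

set_option autoImplicit false

open MeasureTheory Set Filter Topology Metric

namespace Pool.Agent.Helper865.Wid


theorem wedge (t : ℝ) (ht : 249 / 250 ≤ t) (C : Set (E 2))
    (hb : C ⊆ closedBall 0 1) (hw : ∀ u : E 2, ‖u‖ = 1 → t ≤ widthDir C u)
    (u v : E 2) (hu : ‖u‖ = 1) (hv : ‖v‖ = 1)
    (hCu : ∀ x ∈ C, -(1 / 250) ≤ inner ℝ x u) (hCv : ∀ x ∈ C, -(1 / 250) ≤ inner ℝ x v) :
    -(2 / 15) ≤ inner ℝ u v := by
  have hCne : C.Nonempty := by
    rcases Set.eq_empty_or_nonempty C with h | h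
    · exfalso
      have h1 := hw u hu
      simp only [widthDir, h, Set.image_empty, Real.sSup_empty, Real.sInf_empty] at h1
      linarith
    · exact h
  have hne : ((fun x => inner ℝ x u) '' C).Nonempty := hCne.image _
  have hInf : -(1 / 250 : ℝ) ≤ sInf ((fun x => inner ℝ x u) '' C) := by
    apply le_csInf hne
    rintro _ ⟨x, hx, rfl⟩
    exact hCu x hx
  have hw1 := hw u hu
  unfold widthDir at hw1
  have hSup : (9919 / 10000 : ℝ) < sSup ((fun x => inner ℝ x u) '' C) := by linarith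
  obtain ⟨_, ⟨x, hx, rfl⟩, hax⟩ := exists_lt_of_lt_csSup hne hSup
  have hax' : (9919 / 10000 : ℝ) < inner ℝ x u := hax
  have hxn : ‖x‖ ≤ 1 := by
    have := hb hx
    simpa using this
  have hbx := hCv x hx
  by_contra hcon
  push Not at hcon
  set g : ℝ := inner ℝ u v with hg
  set a : ℝ := inner ℝ x u with ha
  set b : ℝ := inner ℝ x v with hb'
  have huu : inner ℝ u u = (1 : ℝ) := by rw [real_inner_self_eq_norm_sq, hu]; norm_num
  have hvv : inner ℝ v v = (1 : ℝ) := by rw [real_inner_self_eq_norm_sq, hv]; norm_num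
  have hxx : inner ℝ x x ≤ (1 : ℝ) := by
    rw [real_inner_self_eq_norm_sq]
    nlinarith [norm_nonneg x]
  have hvu : inner ℝ v u = g := by rw [hg, real_inner_comm]
  have hux : inner ℝ u x = a := by rw [ha, real_inner_comm]
  have hvx : inner ℝ v x = b := by rw [hb', real_inner_comm]
  have hCS := real_inner_mul_inner_self_le (x - a • u) (v - g • u)
  have e1 : inner ℝ (x - a • u) (v - g • u) = b - g * a := by
    simp only [inner_sub_left, inner_sub_right, inner_smul_left, inner_smul_right, huu,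
      RCLike.conj_to_real, ← hg, ← ha, ← hb']
    ring
  have e2 : inner ℝ (x - a • u) (x - a • u) = inner ℝ x x - a ^ 2 := by
    simp only [inner_sub_left, inner_sub_right, inner_smul_left, inner_smul_right, huu,
      RCLike.conj_to_real, ← ha, hux]
    ring
  have e3 : inner ℝ (v - g • u) (v - g • u) = 1 - g ^ 2 := by
    simp only [inner_sub_left, inner_sub_right, inner_smul_left, inner_smul_right, huu, hvv,
      RCLike.conj_to_real, ← hg, hvu]
    ring
  rw [e1, e2, e3] at hCS
  have ha1 : a ^ 2 > (9919 / 10000) ^ 2 := by nlinarith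
  have h1 : inner ℝ x x - a ^ 2 ≤ 1 - (9919 / 10000) ^ 2 := by linarith
  have hg2 : g ^ 2 ≥ 4 / 225 := by nlinarith
  have hg1 : 0 ≤ 1 - g ^ 2 := by
    rw [← e3, real_inner_self_eq_norm_sq]; positivity
  have h2 : (inner ℝ x x - a ^ 2) * (1 - g ^ 2) ≤ (1 - (9919 / 10000) ^ 2) * (1 - 4 / 225) := by
    calc (inner ℝ x x - a ^ 2) * (1 - g ^ 2) ≤ (1 - (9919 / 10000) ^ 2) * (1 - g ^ 2) :=
          mul_le_mul_of_nonneg_right h1 hg1
      _ ≤ (1 - (9919 / 10000) ^ 2) * (1 - 4 / 225) := by
          apply mul_le_mul_of_nonneg_left _ (by norm_num)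
          linarith
  have h3 : b - g * a > 1282 / 10000 := by nlinarith
  nlinarith

end Pool.Agent.Helper865.Wid
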