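import Pool.Agent.Helper865.Wid.Defs

set_option autoImplicit false

open MeasureTheory Set Filter Topology Metric

namespace Pool.Agent.Helper865.Wid


theorem frame_key (sA cA sB cB : ℝ) (h1 : cA ^ 2 + sA ^ 2 = 1) (h2 : cB ^ 2 + sB ^ 2 = 1)
    (hsA : 0 ≤ sA) (hsB : 0 ≤ sB) (hA : -(2 / 15) ≤ cA) (hB : -(2 / 15) ≤ cB)
    (h : -(2 / 15) ≤ cA * cB - sA * sB) : 0 ≤ sA * cB + cA * sB := by
  by_contra hc
  push Not at hc
  have hsA1 : sA ≤ 1 := by nlinarith [sq_nonneg cA]
  have hsB1 : sB ≤ 1 := by nlinarith [sq_nonneg cB]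
  rcases lt_or_ge cA 0 with ha | ha <;> rcases lt_or_ge cB 0 with hb | hb
  · have e1 : (14:ℝ) / 15 ≤ sA := by
      by_contra h'
      push Not at h'
      nlinarith
    have e2 : (14:ℝ) / 15 ≤ sB := by
      by_contra h'
      push Not at h'
      nlinarith
    nlinarith [mul_nonneg (sub_nonneg.2 e1) (sub_nonneg.2 e2)]
  · have e1 : (14:ℝ) / 15 ≤ sA := by
      by_contra h'
      push Not at h'
      nlinarith
    have e2 : cB < 1 / 7 := by
      by_contra h'
      push Not at h'
      nlinarith
    have e3 : (14:ℝ) / 15 ≤ sB := by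
      by_contra h'
      push Not at h'
      nlinarith
    nlinarith [mul_nonneg (sub_nonneg.2 e1) (sub_nonneg.2 e3), mul_nonneg (neg_nonneg.2 ha.le) hb]
  · have e1 : (14:ℝ) / 15 ≤ sB := by
      by_contra h'
      push Not at h'
      nlinarith
    have e2 : cA < 1 / 7 := by
      by_contra h'
      push Not at h'
      nlinarith
    have e3 : (14:ℝ) / 15 ≤ sA := by
      by_contra h'
      push Not at h'
      nlinarith
    nlinarith [mul_nonneg (sub_nonneg.2 e1) (sub_nonneg.2 e3), mul_nonneg ha (neg_nonneg.2 hb.le)]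
  · nlinarith [mul_nonneg hsA hb, mul_nonneg ha hsB]

theorem frame_ind {ι : Type*} [DecidableEq ι] (a b : ι → ℝ) (h1 : ∀ i, a i ^ 2 + b i ^ 2 = 1)
    (hp : ∀ i j, -(2 / 15) ≤ a i * a j + b i * b j) (s : Finset ι) (hs : s.Nonempty) :
    ∃ k ∈ s, ∀ i ∈ s, 0 ≤ a k * b i - b k * a i := by
  induction hs using Finset.Nonempty.cons_induction with
  | singleton k =>
    refine ⟨k, Finset.mem_singleton_self k, fun i hi => ?_⟩
    rw [Finset.mem_singleton.1 hi]
    apply le_of_eq
    ring
  | cons v s hv hs ih =>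
    obtain ⟨k, hk, hki⟩ := ih
    by_cases hd : 0 ≤ a k * b v - b k * a v
    · refine ⟨k, Finset.mem_cons_of_mem hk, fun i hi => ?_⟩
      rcases Finset.mem_cons.1 hi with rfl | hi
      · exact hd
      · exact hki i hi
    · push Not at hd
      refine ⟨v, Finset.mem_cons_self v s, fun i hi => ?_⟩
      rcases Finset.mem_cons.1 hi with rfl | hi
      · apply le_of_eq
        ring
      · have hki' := hki i hi
        have e1 := h1 k
        have ev := h1 v
        have ei := h1 i
        have key := frame_key (a v * b k - b v * a k) (a v * a k + b v * b k)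
          (a k * b i - b k * a i) (a k * a i + b k * b i)
          (by
            have : (a v * a k + b v * b k) ^ 2 + (a v * b k - b v * a k) ^ 2 =
              (a v ^ 2 + b v ^ 2) * (a k ^ 2 + b k ^ 2) := by ring
            rw [this, ev, e1, one_mul])
          (by
            have : (a k * a i + b k * b i) ^ 2 + (a k * b i - b k * a i) ^ 2 =
              (a k ^ 2 + b k ^ 2) * (a i ^ 2 + b i ^ 2) := by ring
            rw [this, ei, e1, one_mul])
          (by linarith) hki' (hp v k) (hp k i)
          (by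
            have h := hp v i
            have : (a v * a k + b v * b k) * (a k * a i + b k * b i) -
              (a v * b k - b v * a k) * (a k * b i - b k * a i) =
              (a k ^ 2 + b k ^ 2) * (a v * a i + b v * b i) := by ring
            rw [this, e1, one_mul]
            exact h)
        have : (a v * b k - b v * a k) * (a k * a i + b k * b i) +
          (a v * a k + b v * b k) * (a k * b i - b k * a i) =
          (a k ^ 2 + b k ^ 2) * (a v * b i - b v * a i) := by ring
        rw [this, e1, one_mul] at key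
        exact key

theorem frame_norm (x : E 2) : ‖x‖ = 1 ↔ x 0 ^ 2 + x 1 ^ 2 = 1 := by
  rw [EuclideanSpace.norm_eq, Real.sqrt_eq_one, Fin.sum_univ_two]
  simp

theorem frame_inner (x y : E 2) : inner ℝ x y = x 0 * y 0 + x 1 * y 1 := by
  simp [PiLp.inner_apply, Fin.sum_univ_two]
  ring

theorem frame {m : ℕ} (u : Fin m → E 2) (hu : ∀ i, ‖u i‖ = 1)
    (hp : ∀ i j, -(2 / 15) ≤ inner ℝ (u i) (u j)) :
    ∃ e f : E 2, ‖e‖ = 1 ∧ ‖f‖ = 1 ∧ inner ℝ e f = 0 ∧
      ∀ i, -(2 / 15) ≤ inner ℝ (u i) e ∧ 0 ≤ inner ℝ (u i) f := by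
  
  rcases Nat.eq_zero_or_pos m with hm | hm
  · subst hm
    refine ⟨!₂[1, 0], !₂[0, 1], ?_, ?_, ?_, fun i => i.elim0⟩
    · rw [frame_norm]
      simp
    · rw [frame_norm]
      simp
    · rw [frame_inner]
      simp
  · have : Nonempty (Fin m) := ⟨⟨0, hm⟩⟩
    obtain ⟨k, -, hk⟩ := frame_ind (fun i => u i 0) (fun i => u i 1)
      (fun i => (frame_norm _).1 (hu i))
      (fun i j => by
        have h := hp i j
        rw [frame_inner] at h
        exact h) Finset.univ Finset.univ_nonempty
    have hk1 := (frame_norm _).1 (hu k)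
    refine ⟨u k, !₂[-(u k 1), u k 0], hu k, ?_, ?_, fun i => ⟨hp i k, ?_⟩⟩
    · rw [frame_norm]
      simp
      linarith
    · rw [frame_inner]
      simp
      ring
    · rw [frame_inner]
      have h := hk i (Finset.mem_univ i)
      simp at h ⊢
      linarith


end Pool.Agent.Helper865.Wid
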