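import Pool.Agent.Helper865.Wid.Defs

set_option autoImplicit false

open MeasureTheory Set Filter Topology Metric

namespace Pool.Agent.Helper865.Wid


theorem quarterArea_on (e f : E 2) (he : ‖e‖ = 1) (hf : ‖f‖ = 1) (hef : inner ℝ e f = 0) :
    Orthonormal ℝ ![e, f] := by
  refine ⟨fun i => ?_, fun i j hij => ?_⟩
  · fin_cases i
    · exact he
    · exact hf
  · fin_cases i <;> fin_cases j
    · exact absurd rfl hij
    · exact hef
    · show inner ℝ f e = 0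
      rw [real_inner_comm]; exact hef
    · exact absurd rfl hij

theorem quarterArea_basis (e f : E 2) (he : ‖e‖ = 1) (hf : ‖f‖ = 1) (hef : inner ℝ e f = 0) :
    ∃ O : OrthonormalBasis (Fin 2) ℝ (E 2), O 0 = e ∧ O 1 = f := by
  have hon := quarterArea_on e f he hf hef
  have hcard : Fintype.card (Fin 2) = Module.finrank ℝ (E 2) := by simp
  have hsp : ⊤ ≤ Submodule.span ℝ (Set.range ![e, f]) := by
    rw [← coe_basisOfOrthonormalOfCardEqFinrank hon hcard, Module.Basis.span_eq]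
  refine ⟨OrthonormalBasis.mk hon hsp, ?_, ?_⟩
  · rw [OrthonormalBasis.coe_mk]; rfl
  · rw [OrthonormalBasis.coe_mk]; rfl

/-- the standard truncated quarter -/
def quarterArea_T (a b : ℝ) : Set (E 2) := {y : E 2 | y ∈ closedBall 0 1 ∧ a ≤ y 0 ∧ b ≤ y 1}

theorem quarterArea_vol (e f : E 2) (he : ‖e‖ = 1) (hf : ‖f‖ = 1) (hef : inner ℝ e f = 0)
    (a b : ℝ) :
    volume {x : E 2 | x ∈ closedBall 0 1 ∧ a ≤ inner ℝ x e ∧ b ≤ inner ℝ x f} =
      volume (quarterArea_T a b) := by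
  obtain ⟨O, h0, h1⟩ := quarterArea_basis e f he hf hef
  have hmp := O.measurePreserving_repr
  have hT : MeasurableSet (quarterArea_T a b) := by
    have h1 : IsClosed (quarterArea_T a b) := by
      have c0 : IsClosed {y : E 2 | a ≤ y 0} :=
        isClosed_le continuous_const (by fun_prop)
      have c1 : IsClosed {y : E 2 | b ≤ y 1} :=
        isClosed_le continuous_const (by fun_prop)
      exact IsClosed.inter isClosed_closedBall (IsClosed.inter c0 c1)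
    exact h1.measurableSet
  rw [← hmp.measure_preimage hT.nullMeasurableSet]
  congr 1
  ext x
  have e0 : (O.repr x) 0 = inner ℝ x e := by
    rw [O.repr_apply_apply, h0, real_inner_comm]
  have e1 : (O.repr x) 1 = inner ℝ x f := by
    rw [O.repr_apply_apply, h1, real_inner_comm]
  have e2 : O.repr x ∈ closedBall (0 : E 2) 1 ↔ x ∈ closedBall (0 : E 2) 1 := by
    rw [mem_closedBall_zero_iff, mem_closedBall_zero_iff, LinearIsometryEquiv.norm_map]
  show _ ↔ (O.repr x ∈ closedBall (0 : E 2) 1 ∧ a ≤ (O.repr x) 0 ∧ b ≤ (O.repr x) 1)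
  rw [e0, e1, e2]
  rfl

theorem quarterArea_quarter (e f : E 2) (he : ‖e‖ = 1) (hf : ‖f‖ = 1) (hef : inner ℝ e f = 0) :
    ENNReal.ofReal (Real.pi / 4) ≤ volume (quarterArea_T 0 0) := by
  have hcov : closedBall (0 : E 2) 1 ⊆
      ({x : E 2 | x ∈ closedBall 0 1 ∧ 0 ≤ inner ℝ x e ∧ 0 ≤ inner ℝ x f} ∪
        {x : E 2 | x ∈ closedBall 0 1 ∧ 0 ≤ inner ℝ x (-e) ∧ 0 ≤ inner ℝ x f}) ∪
      ({x : E 2 | x ∈ closedBall 0 1 ∧ 0 ≤ inner ℝ x e ∧ 0 ≤ inner ℝ x (-f)} ∪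
        {x : E 2 | x ∈ closedBall 0 1 ∧ 0 ≤ inner ℝ x (-e) ∧ 0 ≤ inner ℝ x (-f)}) := by
    intro x hx
    rcases le_total 0 (inner ℝ x e) with h1 | h1 <;> rcases le_total 0 (inner ℝ x f) with h2 | h2
    · exact Or.inl (Or.inl ⟨hx, h1, h2⟩)
    · exact Or.inr (Or.inl ⟨hx, h1, by rw [inner_neg_right]; linarith⟩)
    · exact Or.inl (Or.inr ⟨hx, by rw [inner_neg_right]; linarith, h2⟩)
    · exact Or.inr (Or.inr ⟨hx, by rw [inner_neg_right]; linarith,
        by rw [inner_neg_right]; linarith⟩)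
  have hvol : volume (closedBall (0 : E 2) 1) = ENNReal.ofReal Real.pi := by
    rw [EuclideanSpace.volume_closedBall_fin_two]
    simp
  have v1 := quarterArea_vol e f he hf hef 0 0
  have v2 := quarterArea_vol (-e) f (by rw [norm_neg, he]) hf
    (by rw [inner_neg_left, hef, neg_zero]) 0 0
  have v3 := quarterArea_vol e (-f) he (by rw [norm_neg, hf])
    (by rw [inner_neg_right, hef, neg_zero]) 0 0
  have v4 := quarterArea_vol (-e) (-f) (by rw [norm_neg, he]) (by rw [norm_neg, hf])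
    (by rw [inner_neg_right, inner_neg_left, hef, neg_zero, neg_zero]) 0 0
  have hle : ENNReal.ofReal Real.pi ≤ 4 * volume (quarterArea_T 0 0) := by
    rw [← hvol]
    refine (measure_mono hcov).trans ((measure_union_le _ _).trans ?_)
    refine (add_le_add (measure_union_le _ _) (measure_union_le _ _)).trans ?_
    rw [v1, v2, v3, v4]
    apply le_of_eq
    ring
  have h4 : ENNReal.ofReal Real.pi = 4 * ENNReal.ofReal (Real.pi / 4) := by
    have h5 : (4 : ENNReal) = ENNReal.ofReal 4 := by norm_num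
    rw [h5, ← ENNReal.ofReal_mul (by norm_num)]
    congr 1
    ring
  rw [h4] at hle
  exact (ENNReal.mul_le_mul_iff_right (by norm_num) (by norm_num)).1 hle

theorem quarterArea_rect (a b : ℝ) (ha : 0 ≤ a) (hb : 0 ≤ b) :
    volume {y : E 2 | (0 ≤ y 0 ∧ y 0 ≤ a) ∧ (0 ≤ y 1 ∧ y 1 ≤ b)} ≤ ENNReal.ofReal (a * b) := by
  have hmp := EuclideanSpace.volume_preserving_symm_measurableEquiv_toLp (Fin 2)
  have hset : {y : E 2 | (0 ≤ y 0 ∧ y 0 ≤ a) ∧ (0 ≤ y 1 ∧ y 1 ≤ b)} =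
      (MeasurableEquiv.toLp 2 (Fin 2 → ℝ)).symm ⁻¹' (Set.Icc ![0, 0] ![a, b]) := by
    ext y
    show ((0 ≤ y 0 ∧ y 0 ≤ a) ∧ (0 ≤ y 1 ∧ y 1 ≤ b)) ↔
      ((![0, 0] : Fin 2 → ℝ) ≤ (fun i => y i) ∧ (fun i => y i) ≤ ![a, b])
    constructor
    · rintro ⟨⟨h1, h2⟩, h3, h4⟩
      refine ⟨fun i => ?_, fun i => ?_⟩
      · fin_cases i
        · exact h1
        · exact h3
      · fin_cases i
        · exact h2
        · exact h4
    · rintro ⟨h1, h2⟩
      exact ⟨⟨h1 0, h2 0⟩, h1 1, h2 1⟩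
  rw [hset, hmp.measure_preimage measurableSet_Icc.nullMeasurableSet, Real.volume_Icc_pi,
    Fin.prod_univ_two]
  rw [← ENNReal.ofReal_mul]
  · apply le_of_eq
    congr 1
    simp
  · simpa using ha

theorem quarterArea_cover (a b : ℝ) :
    quarterArea_T 0 0 ⊆ (quarterArea_T a b ∪
      {y : E 2 | (0 ≤ y 0 ∧ y 0 ≤ a) ∧ (0 ≤ y 1 ∧ y 1 ≤ 1)}) ∪
      {y : E 2 | (0 ≤ y 0 ∧ y 0 ≤ 1) ∧ (0 ≤ y 1 ∧ y 1 ≤ b)} := by
  rintro y ⟨hy, h0, h1⟩
  have hn : ‖y‖ ≤ 1 := mem_closedBall_zero_iff.1 hy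
  have hn2 : y 0 ^ 2 + y 1 ^ 2 ≤ 1 := by
    have h3 : ‖y‖ ^ 2 = y 0 ^ 2 + y 1 ^ 2 := by
      rw [EuclideanSpace.norm_sq_eq, Fin.sum_univ_two, Real.norm_eq_abs, Real.norm_eq_abs,
        sq_abs, sq_abs]
    rw [← h3]
    exact pow_le_one₀ (norm_nonneg _) hn
  have hy0 : y 0 ≤ 1 := by nlinarith [sq_nonneg (y 1)]
  have hy1 : y 1 ≤ 1 := by nlinarith [sq_nonneg (y 0)]
  by_cases ha : a ≤ y 0
  · by_cases hb : b ≤ y 1
    · exact Or.inl (Or.inl ⟨hy, ha, hb⟩)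
    · exact Or.inr ⟨⟨h0, hy0⟩, h1, (not_le.1 hb).le⟩
  · exact Or.inl (Or.inr ⟨⟨h0, (not_le.1 ha).le⟩, h1, hy1⟩)

theorem member_real (p q c s : ℝ) (hp : 2 / 250 ≤ p) (hp1 : p ≤ 1) (hq : 7 / 50 ≤ q)
    (hc : -(2 / 15) ≤ c) (hs : 0 ≤ s) (hcs : c ^ 2 + s ^ 2 = 1) : 1 / 250 ≤ p * c + q * s := by
  rcases le_total 0 c with h | h
  · have h1 : 1 ≤ c + s := by nlinarith [mul_nonneg h hs]
    nlinarith [mul_nonneg h (sub_nonneg.2 hp), mul_nonneg hs (sub_nonneg.2 hq)]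
  · have h1 : (221 : ℝ) / 225 ≤ s ^ 2 := by nlinarith
    have h2 : (991 : ℝ) / 1000 ≤ s := by
      by_contra h3
      push Not at h3
      nlinarith
    nlinarith [mul_nonneg (sub_nonneg.2 hp1) (neg_nonneg.2 h), mul_nonneg hs (sub_nonneg.2 hq)]

theorem quarterArea (e f : E 2) (he : ‖e‖ = 1) (hf : ‖f‖ = 1) (hef : inner ℝ e f = 0) (a b : ℝ)
    (ha : 0 ≤ a) (hb : 0 ≤ b) :
    ENNReal.ofReal (Real.pi / 4 - a - b)
      ≤ volume {x : E 2 | x ∈ closedBall 0 1 ∧ a ≤ inner ℝ x e ∧ b ≤ inner ℝ x f} := by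
  rw [quarterArea_vol e f he hf hef a b, ENNReal.ofReal_sub _ hb, ENNReal.ofReal_sub _ ha,
    tsub_le_iff_right, tsub_le_iff_right]
  refine (quarterArea_quarter e f he hf hef).trans ((measure_mono (quarterArea_cover a b)).trans ?_)
  refine (measure_union_le _ _).trans ?_
  refine (add_le_add (measure_union_le _ _) le_rfl).trans ?_
  have h1 := quarterArea_rect a 1 ha zero_le_one
  have h2 := quarterArea_rect 1 b zero_le_one hb
  rw [mul_one] at h1
  rw [one_mul] at h2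
  calc _ ≤ volume (quarterArea_T a b) + ENNReal.ofReal a + ENNReal.ofReal b :=
        add_le_add (add_le_add le_rfl h1) h2
    _ = _ := by ring

theorem member (e f : E 2) (he : ‖e‖ = 1) (hf : ‖f‖ = 1) (hef : inner ℝ e f = 0)
    (x u : E 2) (hx : x ∈ closedBall (0 : E 2) 1) (hxe : 2 / 250 ≤ inner ℝ x e)
    (hxf : 7 / 50 ≤ inner ℝ x f) (hu : ‖u‖ = 1) (hue : -(2 / 15) ≤ inner ℝ u e)
    (huf : 0 ≤ inner ℝ u f) : 1 / 250 ≤ inner ℝ x u := by
  obtain ⟨O, h0, h1⟩ := quarterArea_basis e f he hf hef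
  have hxu : inner ℝ x u = inner ℝ x e * inner ℝ u e + inner ℝ x f * inner ℝ u f := by
    have h := O.sum_inner_mul_inner x u
    rw [Fin.sum_univ_two, h0, h1] at h
    rw [← h, real_inner_comm u e, real_inner_comm u f]
  have huu : inner ℝ u e ^ 2 + inner ℝ u f ^ 2 = 1 := by
    have h := O.sum_inner_mul_inner u u
    rw [Fin.sum_univ_two, h0, h1, real_inner_self_eq_norm_sq, hu, real_inner_comm u e,
      real_inner_comm u f] at h
    nlinarith
  have hx1 : inner ℝ x e ≤ 1 := by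
    have h2 := real_inner_le_norm x e
    have h3 : ‖x‖ ≤ 1 := mem_closedBall_zero_iff.1 hx
    rw [he, mul_one] at h2
    linarith
  rw [hxu]
  exact member_real _ _ _ _ hxe hx1 hxf hue huf huu

end Pool.Agent.Helper865.Wid
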