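import Pool.Agent.Helper865.Wid.Defs

set_option autoImplicit false

open MeasureTheory Set Filter Topology Metric

namespace Pool.Agent.Helper865.Wid


theorem noFive
    (separators : ∀ (d : ℕ), 1 ≤ d → ∀ (t : ℝ), 0 < t → ∀ (m : ℕ) (C : Fin m → Set (E d)),
      IsPacking d t C → ∃ (u : Fin m → Fin m → E d), ∀ i j, i ≠ j →
      ‖u i j‖ = 1 ∧ u j i = - u i j ∧ ∀ x ∈ C i, -(1 - t) ≤ inner ℝ x (u i j))
    (wedge : ∀ (t : ℝ), 249 / 250 ≤ t → ∀ (C : Set (E 2)),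
      C ⊆ closedBall 0 1 → (∀ u : E 2, ‖u‖ = 1 → t ≤ widthDir C u) →
      ∀ (u v : E 2), ‖u‖ = 1 → ‖v‖ = 1 →
      (∀ x ∈ C, -(1 / 250) ≤ inner ℝ x u) → (∀ x ∈ C, -(1 / 250) ≤ inner ℝ x v) →
      -(2 / 15) ≤ inner ℝ u v)
    (frame : ∀ {m : ℕ} (u : Fin m → E 2), (∀ i, ‖u i‖ = 1) →
      (∀ i j, -(2 / 15) ≤ inner ℝ (u i) (u j)) →
      ∃ e f : E 2, ‖e‖ = 1 ∧ ‖f‖ = 1 ∧ inner ℝ e f = 0 ∧
        ∀ i, -(2 / 15) ≤ inner ℝ (u i) e ∧ 0 ≤ inner ℝ (u i) f)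
    (quarterArea : ∀ (e f : E 2), ‖e‖ = 1 → ‖f‖ = 1 → inner ℝ e f = 0 → ∀ (a b : ℝ),
      0 ≤ a → 0 ≤ b → ENNReal.ofReal (Real.pi / 4 - a - b)
        ≤ volume {x : E 2 | x ∈ closedBall 0 1 ∧ a ≤ inner ℝ x e ∧ b ≤ inner ℝ x f})
    (member : ∀ (e f : E 2), ‖e‖ = 1 → ‖f‖ = 1 → inner ℝ e f = 0 →
      ∀ (x u : E 2), x ∈ closedBall (0 : E 2) 1 → 2 / 250 ≤ inner ℝ x e →
      7 / 50 ≤ inner ℝ x f → ‖u‖ = 1 → -(2 / 15) ≤ inner ℝ u e →
      0 ≤ inner ℝ u f → 1 / 250 ≤ inner ℝ x u)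
    (t : ℝ) (ht : 249 / 250 ≤ t) (m : ℕ) (C : Fin m → Set (E 2))
    (hC : IsPacking 2 t C) : m ≤ 4 := by
  by_contra hm
  rw [not_le] at hm
  have hnt : Nontrivial (Fin m) := Fin.nontrivial_iff_two_le.2 (by omega)
  obtain ⟨u, hu⟩ := separators 2 (by norm_num) t (by linarith) m C hC
  have hs : ∀ i : Fin m, ∃ j, j ≠ i := fun i => exists_ne i
  choose s hs using hs
  let U : Fin m → Fin m → E 2 := fun i j => if j = i then u i (s i) else u i j
  have hU : ∀ i j, ‖U i j‖ = 1 ∧ ∀ x ∈ C i, -(1 / 250 : ℝ) ≤ inner ℝ x (U i j) := by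
    intro i j
    by_cases hji : j = i
    · have e : U i j = u i (s i) := if_pos hji
      rw [e]
      obtain ⟨h1, -, h3⟩ := hu i (s i) (hs i).symm
      exact ⟨h1, fun x hx => le_trans (by linarith) (h3 x hx)⟩
    · have e : U i j = u i j := if_neg hji
      rw [e]
      obtain ⟨h1, -, h3⟩ := hu i j (fun h => hji h.symm)
      exact ⟨h1, fun x hx => le_trans (by linarith) (h3 x hx)⟩
  have hfr : ∀ i, ∃ e f : E 2, ‖e‖ = 1 ∧ ‖f‖ = 1 ∧ inner ℝ e f = 0 ∧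
        ∀ j, -(2 / 15) ≤ inner ℝ (U i j) e ∧ 0 ≤ inner ℝ (U i j) f := fun i =>
    frame (U i) (fun j => (hU i j).1) (fun j k => wedge t ht (C i) (hC.1 i).2.1 (hC.1 i).2.2
      (U i j) (U i k) (hU i j).1 (hU i k).1 (hU i j).2 (hU i k).2)
  choose e f he hf hef hUef using hfr
  let Q : Fin m → Set (E 2) := fun i =>
    {x : E 2 | x ∈ closedBall 0 1 ∧ (2 / 250 : ℝ) ≤ inner ℝ x (e i) ∧ (7 / 50 : ℝ) ≤ inner ℝ x (f i)}
  have hQ : ∀ i j, ∀ x ∈ Q i, (1 / 250 : ℝ) ≤ inner ℝ x (U i j) := by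
    rintro i j x ⟨h1, h2, h3⟩
    exact member (e i) (f i) (he i) (hf i) (hef i) x (U i j) h1 h2 h3 (hU i j).1
      (hUef i j).1 (hUef i j).2
  have hdisj : Pairwise (Function.onFun Disjoint Q) := by
    intro i j hij
    show Disjoint (Q i) (Q j)
    rw [Set.disjoint_left]
    intro x hx hx'
    have h1 := hQ i j x hx
    have h2 := hQ j i x hx'
    have e1 : U i j = u i j := if_neg (fun h => hij h.symm)
    have e2 : U j i = u j i := if_neg hij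
    rw [e1] at h1
    rw [e2, (hu i j hij).2.1, inner_neg_right] at h2
    linarith
  have hmeas : ∀ i, MeasurableSet (Q i) := by
    intro i
    have h1 : IsClosed {x : E 2 | (2 / 250 : ℝ) ≤ inner ℝ x (e i)} :=
      isClosed_le continuous_const (by fun_prop)
    have h2 : IsClosed {x : E 2 | (7 / 50 : ℝ) ≤ inner ℝ x (f i)} :=
      isClosed_le continuous_const (by fun_prop)
    exact (isClosed_closedBall.inter (h1.inter h2)).measurableSet
  have hvol : ∀ i, ENNReal.ofReal (Real.pi / 4 - 2 / 250 - 7 / 50) ≤ volume (Q i) := fun i =>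
    quarterArea (e i) (f i) (he i) (hf i) (hef i) (2 / 250) (7 / 50) (by norm_num) (by norm_num)
  have hsum : ∑ i, volume (Q i) ≤ volume (closedBall (0 : E 2) 1) := by
    have hiU : volume (⋃ i, Q i) = ∑ i, volume (Q i) := by
      rw [measure_iUnion hdisj hmeas, tsum_fintype]
    rw [← hiU]
    exact measure_mono (Set.iUnion_subset fun i x hx => hx.1)
  have hball : volume (closedBall (0 : E 2) 1) = ENNReal.ofReal Real.pi := by
    rw [EuclideanSpace.volume_closedBall_fin_two]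
    simp
  have hpi := Real.pi_gt_three
  have h5 : (m : ENNReal) * ENNReal.ofReal (Real.pi / 4 - 2 / 250 - 7 / 50) ≤
      ENNReal.ofReal Real.pi := by
    rw [← hball]
    refine le_trans ?_ hsum
    calc (m : ENNReal) * ENNReal.ofReal (Real.pi / 4 - 2 / 250 - 7 / 50)
        = ∑ _i : Fin m, ENNReal.ofReal (Real.pi / 4 - 2 / 250 - 7 / 50) := by
          rw [Finset.sum_const, Finset.card_univ, Fintype.card_fin, nsmul_eq_mul]
      _ ≤ _ := Finset.sum_le_sum fun i _ => hvol i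
  have h6 : ENNReal.ofReal ((m : ℝ) * (Real.pi / 4 - 2 / 250 - 7 / 50)) ≤ ENNReal.ofReal Real.pi := by
    rw [ENNReal.ofReal_mul (Nat.cast_nonneg m), ENNReal.ofReal_natCast]
    exact h5
  rw [ENNReal.ofReal_le_ofReal_iff Real.pi_pos.le] at h6
  have h7 : (5:ℝ) ≤ m := by exact_mod_cast hm
  nlinarith

end Pool.Agent.Helper865.Wid
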