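import Mathlib

set_option autoImplicit false

open MeasureTheory Set Filter Topology Metric

namespace Pool.Agent.Helper865.Wid

/-- Euclidean space of dimension `d`. -/
abbrev E (d : ℕ) : Type := EuclideanSpace ℝ (Fin d)

/-- The width of `C` in the direction `u`: for a unit vector `u` and a nonempty bounded set `C`,
the distance between the two supporting hyperplanes of `C` orthogonal to `u`. -/
noncomputable def widthDir {d : ℕ} (C : Set (E d)) (u : E d) : ℝ :=
  sSup ((fun x => inner ℝ x u) '' C) - sInf ((fun x => inner ℝ x u) '' C)

/-- `C 0, …, C (m-1)` are convex subsets of the closed unit ball with pairwise disjoint interiors,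
each of width at least `t` (the width in every direction is at least `t`). -/
def IsPacking (d : ℕ) (t : ℝ) {m : ℕ} (C : Fin m → Set (E d)) : Prop :=
  (∀ i, Convex ℝ (C i) ∧ C i ⊆ closedBall 0 1 ∧ ∀ u : E d, ‖u‖ = 1 → t ≤ widthDir (C i) u) ∧
    ∀ i j, i ≠ j → Disjoint (interior (C i)) (interior (C j))

/-- The largest number of convex sets of width at least `t` in a packing in the unit ball. -/
noncomputable def P (d : ℕ) (t : ℝ) : ℕ :=
  sSup {m : ℕ | ∃ C : Fin m → Set (E d), IsPacking d t C}

end Pool.Agent.Helper865.Wid
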