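import Pool.Agent.Helper865.Wid.Defs

set_option autoImplicit false

open MeasureTheory Set Filter Topology Metric

namespace Pool.Agent.Helper865.Wid



theorem tch_cara (N : Set (E 2)) (x : E 2) (hx : x ∈ convexHull ℝ N) :
    ∃ (n : ℕ) (z : Fin n → E 2) (w : Fin n → ℝ), n ≤ 3 ∧ (∀ i, z i ∈ N) ∧
      Function.Injective z ∧ (∀ i, 0 < w i) ∧ ∑ i, w i = 1 ∧ ∑ i, w i • z i = x := by
  obtain ⟨ι, hι, z, w, hz, hind, hw, hw1, hwz⟩ := eq_pos_convex_span_of_mem_convexHull hx
  have hcard : Fintype.card ι ≤ 3 := by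
    have h1 := hind.card_le_finrank_succ
    have h2 : Module.finrank ℝ (vectorSpan ℝ (Set.range z)) ≤ 2 := by
      have := Submodule.finrank_le (vectorSpan ℝ (Set.range z))
      rwa [finrank_euclideanSpace_fin] at this
    omega
  obtain ⟨n, hn⟩ : ∃ n, n = Fintype.card ι := ⟨_, rfl⟩
  obtain ⟨e⟩ : Nonempty (Fin n ≃ ι) := ⟨(Fintype.equivFinOfCardEq hn.symm).symm⟩
  refine ⟨n, z ∘ e, w ∘ e, by omega, fun i => hz ⟨e i, rfl⟩, hind.injective.comp e.injective,
    fun i => hw _, ?_, ?_⟩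
  · rw [← hw1]; exact Equiv.sum_comp e w
  · rw [← hwz]; exact Equiv.sum_comp e (fun i => w i • z i)

theorem tch_compact (N : Set (E 2)) (hN : IsCompact N) : IsCompact (convexHull ℝ N) := by
  obtain ⟨F, hF⟩ : ∃ F : (Fin 3 → ℝ) × (Fin 3 → E 2) → E 2, F = fun p => ∑ i, p.1 i • p.2 i :=
    ⟨_, rfl⟩
  have hFc : Continuous F := by rw [hF]; fun_prop
  have hK : IsCompact (stdSimplex ℝ (Fin 3) ×ˢ (Set.pi univ (fun _ : Fin 3 => N))) :=
    (isCompact_stdSimplex ℝ (Fin 3)).prod (isCompact_univ_pi (fun _ => hN))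
  have heq : convexHull ℝ N = F '' (stdSimplex ℝ (Fin 3) ×ˢ (Set.pi univ (fun _ : Fin 3 => N))) := by
    apply Set.Subset.antisymm
    · intro x hx
      obtain ⟨n, z, w, hn, hz, _, hw, hw1, hwz⟩ := tch_cara N x hx
      interval_cases n
      · simp at hw1
      · refine ⟨(![w 0, 0, 0], ![z 0, z 0, z 0]), ⟨⟨?_, ?_⟩, ?_⟩, ?_⟩
        · intro i; fin_cases i
          · exact (hw 0).le
          · exact le_refl _
          · exact le_refl _
        · rw [Fin.sum_univ_one] at hw1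
          simp [Fin.sum_univ_three, hw1]
        · intro i _; fin_cases i <;> exact hz 0
        · rw [Fin.sum_univ_one] at hwz
          rw [hF]
          simp [Fin.sum_univ_three, hwz]
      · refine ⟨(![w 0, w 1, 0], ![z 0, z 1, z 1]), ⟨⟨?_, ?_⟩, ?_⟩, ?_⟩
        · intro i; fin_cases i
          · exact (hw 0).le
          · exact (hw 1).le
          · exact le_refl _
        · rw [Fin.sum_univ_two] at hw1
          simp [Fin.sum_univ_three, hw1]
        · intro i _; fin_cases i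
          · exact hz 0
          · exact hz 1
          · exact hz 1
        · rw [Fin.sum_univ_two] at hwz
          rw [hF]
          simp [Fin.sum_univ_three, hwz]
      · refine ⟨(w, z), ⟨⟨fun i => (hw i).le, hw1⟩, fun i _ => hz i⟩, ?_⟩
        rw [hF]; exact hwz
    · rintro _ ⟨⟨w, z⟩, ⟨hw, hz⟩, rfl⟩
      rw [hF]
      exact (convex_convexHull ℝ N).sum_mem (fun i _ => hw.1 i) hw.2
        (fun i _ => subset_convexHull ℝ N (hz i (mem_univ i)))
  rw [heq]
  exact hK.image hFc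

theorem touching (N : Set (E 2)) (hN : IsCompact N) (hN1 : ∀ u ∈ N, ‖u‖ = 1)
    (h : ∀ v : E 2, ∃ u ∈ N, 0 ≤ inner ℝ u v) :
    (∃ u : E 2, u ∈ N ∧ -u ∈ N) ∨
      (∃ (u : Fin 3 → E 2) (l : Fin 3 → ℝ), (∀ i, u i ∈ N) ∧ (∀ i, 0 < l i) ∧
        ∑ i, l i = 1 ∧ ∑ i, l i • u i = 0 ∧ ∀ i j, i ≠ j → u i ≠ u j ∧ u i ≠ - u j) := by
  have hconv : (0 : E 2) ∈ convexHull ℝ N := by
    by_contra h0
    have hcomp : IsCompact (convexHull ℝ N) := tch_compact N hN
    obtain ⟨f, s, hfs, hs⟩ := geometric_hahn_banach_closed_point (convex_convexHull ℝ N)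
      hcomp.isClosed h0
    obtain ⟨y, hy⟩ : ∃ y, ∀ x, f x = inner ℝ x y :=
      ⟨(InnerProductSpace.toDual ℝ (E 2)).symm f, fun x => by
        rw [real_inner_comm, InnerProductSpace.toDual_symm_apply]⟩
    obtain ⟨u, hu, hu2⟩ := h y
    have h1 := hfs u (subset_convexHull ℝ N hu)
    rw [hy] at h1
    rw [map_zero] at hs
    linarith
  obtain ⟨n, z, w, hcard, hzN, hinj, hw, hs1, hs2⟩ := tch_cara N 0 hconv
  interval_cases n
  · simp at hs1
  · exfalso
    rw [Fin.sum_univ_one] at hs1 hs2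
    rw [hs1, one_smul] at hs2
    have := hN1 _ (hzN 0)
    rw [hs2, norm_zero] at this
    norm_num at this
  · left
    rw [Fin.sum_univ_two] at hs1 hs2
    have h0 := hw 0
    have h1 := hw 1
    have n0 := hN1 _ (hzN 0)
    have n1 := hN1 _ (hzN 1)
    have h2 : w 0 • z 0 = -(w 1 • z 1) := eq_neg_of_add_eq_zero_left hs2
    have h3 : w 0 = w 1 := by
      have := congrArg norm h2
      rw [norm_neg, norm_smul, norm_smul, n0, n1, mul_one, mul_one,
        Real.norm_of_nonneg h0.le, Real.norm_of_nonneg h1.le] at this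
      exact this
    refine ⟨z 0, hzN 0, ?_⟩
    have h4 : -z 0 = z 1 := by
      rw [h3, ← smul_neg] at h2
      have := smul_right_injective (E 2) h1.ne' h2
      rw [this, neg_neg]
    rw [h4]
    exact hzN 1
  · by_cases hneg : ∃ i j : Fin 3, z i = -z j
    · obtain ⟨i, j, hij⟩ := hneg
      left
      refine ⟨z j, hzN j, ?_⟩
      rw [← hij]
      exact hzN i
    · right
      push Not at hneg
      refine ⟨z, w, hzN, hw, hs1, hs2, ?_⟩
      intro i j hij
      exact ⟨fun heq => hij (hinj heq), hneg i j⟩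

end Pool.Agent.Helper865.Wid
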