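import Pool.Agent.Helper865.Wid.Defs

set_option autoImplicit false

open MeasureTheory Set Filter Topology Metric

namespace Pool.Agent.Helper865.Wid


theorem cap_nrm (b : OrthonormalBasis (Fin 2) ℝ (E 2)) (x y : ℝ) :
    ‖x • b 0 + y • b 1‖ ^ 2 = x ^ 2 + y ^ 2 := by
  have h0 : ‖b 0‖ = 1 := b.orthonormal.1 0
  have h1 : ‖b 1‖ = 1 := b.orthonormal.1 1
  have h01 : inner ℝ (b 0) (b 1) = 0 := b.orthonormal.2 (by decide)
  rw [norm_add_sq_real, norm_smul, norm_smul, inner_smul_left, inner_smul_right, h01, h0, h1]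
  simp

theorem cap_mp (b : OrthonormalBasis (Fin 2) ℝ (E 2)) :
    MeasurePreserving (fun p : ℝ × ℝ => p.1 • b 0 + p.2 • b 1) volume volume := by
  have h1 := (volume_preserving_finTwoArrow ℝ).symm
  have h2 := PiLp.volume_preserving_toLp (Fin 2)
  have h3 := b.measurePreserving_repr_symm
  have h4 := h3.comp (h2.comp h1)
  convert h4 using 1
  funext p
  simp only [Function.comp]
  rw [← OrthonormalBasis.sum_repr_symm, Fin.sum_univ_two]
  rfl

theorem cap_comb {V : Type*} [AddCommGroup V] [Module ℝ V] (K : Set V) (hK : Convex ℝ K) (h0 : (0 : V) ∈ K)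
    (T P : V) (hT : T ∈ K) (hP : P ∈ K) (a b : ℝ) (ha : 0 ≤ a) (hb : 0 ≤ b) (hab : a + b ≤ 1) :
    a • T + b • P ∈ K := by
  rcases eq_or_lt_of_le (add_nonneg ha hb) with h | h
  · have ha0 : a = 0 := by linarith
    have hb0 : b = 0 := by linarith
    rw [ha0, hb0]
    simpa using h0
  · have h1 : (a / (a + b)) • T + (b / (a + b)) • P ∈ K :=
      hK hT hP (by positivity) (by positivity) (by field_simp)
    have h2 := hK.smul_mem_of_zero_mem h0 h1 (t := a + b) ⟨h.le, hab⟩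
    convert h2 using 1
    rw [smul_add, smul_smul, smul_smul, mul_div_cancel₀ _ h.ne', mul_div_cancel₀ _ h.ne']

theorem cap_mem (b : OrthonormalBasis (Fin 2) ℝ (E 2)) (r ρ φ s ψ : ℝ) (hr : 0 < r) (hφ0 : 0 < φ)
    (hφ1 : φ < Real.pi / 2) (hρ : 0 < ρ) (hc : Real.cos φ = r / ρ) (hψ : |ψ| ≤ φ) (hs : 0 ≤ s)
    (hsr : s * Real.cos (φ - |ψ|) ≤ r) :
    (s * Real.cos ψ) • b 0 + (s * Real.sin ψ) • b 1 ∈
      convexHull ℝ (closedBall (0 : E 2) r ∪ {ρ • b 0}) := by
  have hsφ : 0 < Real.sin φ := Real.sin_pos_of_pos_of_lt_pi hφ0 (by linarith [Real.pi_pos])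
  have h0 : (0 : E 2) ∈ convexHull ℝ (closedBall (0 : E 2) r ∪ {ρ • b 0}) :=
    subset_convexHull _ _ (Or.inl (mem_closedBall_self hr.le))
  have hP : ρ • b 0 ∈ convexHull ℝ (closedBall (0 : E 2) r ∪ {ρ • b 0}) :=
    subset_convexHull _ _ (Or.inr rfl)
  obtain ⟨ε, hε, hεψ⟩ : ∃ ε : ℝ, ε ^ 2 = 1 ∧ Real.sin ψ = ε * Real.sin |ψ| := by
    rcases abs_cases ψ with ⟨h, -⟩ | ⟨h, -⟩
    · exact ⟨1, by norm_num, by rw [h, one_mul]⟩
    · exact ⟨-1, by norm_num, by rw [h, Real.sin_neg]; ring⟩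
  have hT : (r * Real.cos φ) • b 0 + (r * (ε * Real.sin φ)) • b 1 ∈
      convexHull ℝ (closedBall (0 : E 2) r ∪ {ρ • b 0}) := by
    refine subset_convexHull _ _ (Or.inl ?_)
    rw [mem_closedBall_zero_iff]
    have h1 := cap_nrm b (r * Real.cos φ) (r * (ε * Real.sin φ))
    have h2 : (r * Real.cos φ) ^ 2 + (r * (ε * Real.sin φ)) ^ 2 = r ^ 2 := by
      have := Real.sin_sq_add_cos_sq φ
      calc (r * Real.cos φ) ^ 2 + (r * (ε * Real.sin φ)) ^ 2
          = r ^ 2 * (Real.cos φ ^ 2 + ε ^ 2 * Real.sin φ ^ 2) := by ring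
        _ = r ^ 2 := by rw [hε]; rw [show Real.cos φ ^ 2 + 1 * Real.sin φ ^ 2 = 1 by linarith]; ring
    rw [h2] at h1
    exact le_of_eq ((pow_left_inj₀ (norm_nonneg _) hr.le two_ne_zero).1 h1)
  have hsin0 : 0 ≤ Real.sin |ψ| :=
    Real.sin_nonneg_of_nonneg_of_le_pi (abs_nonneg _) (by linarith [Real.pi_pos])
  have hsin1 : 0 ≤ Real.sin (φ - |ψ|) :=
    Real.sin_nonneg_of_nonneg_of_le_pi (by linarith) (by linarith [Real.pi_pos, abs_nonneg ψ])
  have hkey : Real.sin |ψ| = Real.sin φ * Real.cos (φ - |ψ|) - Real.cos φ * Real.sin (φ - |ψ|) := by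
    rw [← Real.sin_sub]
    congr 1
    ring
  have hcosψ : Real.cos ψ = Real.cos |ψ| := (Real.cos_abs ψ).symm
  have hkey2 : Real.sin (φ - |ψ|) = Real.sin φ * Real.cos |ψ| - Real.cos φ * Real.sin |ψ| :=
    Real.sin_sub _ _
  have h := cap_comb _ (convex_convexHull ℝ (closedBall (0 : E 2) r ∪ {ρ • b 0})) h0 _ _ hT hP
    (s * Real.sin |ψ| / (r * Real.sin φ)) (s * Real.sin (φ - |ψ|) / (ρ * Real.sin φ))
    (by positivity) (by positivity) ?_
  · convert h using 1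
    rw [smul_add, smul_smul, smul_smul, smul_smul, add_right_comm, ← add_smul]
    congr 2
    · rw [hcosψ, hkey2]
      field_simp
      ring
    · rw [hεψ]
      field_simp
  · have hρr : 1 / ρ = Real.cos φ / r := by rw [hc]; field_simp
    have e1 : s * Real.sin |ψ| / (r * Real.sin φ) + s * Real.sin (φ - |ψ|) / (ρ * Real.sin φ) =
        s * Real.cos (φ - |ψ|) / r := by
      have e2 : s * Real.sin (φ - |ψ|) / (ρ * Real.sin φ) =
          s * Real.sin (φ - |ψ|) * (1 / ρ) / Real.sin φ := by field_simp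
      rw [e2, hρr, hkey]
      field_simp
      ring
    rw [e1, div_le_one hr]
    exact hsr

theorem cap_inner (r R : ℝ) (hr : 0 ≤ r) (h : r ≤ R) :
    ENNReal.ofReal ((R ^ 2 - r ^ 2) / 2) ≤ ∫⁻ s in Ioo r R, ENNReal.ofReal s := by
  rw [← ofReal_integral_eq_lintegral_ofReal]
  · rw [← integral_Ioc_eq_integral_Ioo, ← intervalIntegral.integral_of_le h, integral_id]
  · exact (continuous_id.integrableOn_Icc (a := r) (b := R)).mono_set Ioo_subset_Icc_self
  · filter_upwards [ae_restrict_mem measurableSet_Ioo] with s hs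
    exact hr.trans hs.1.le

theorem cap_outer (r φ : ℝ) (hφ0 : 0 < φ) (hφ1 : φ < Real.pi / 2) :
    ENNReal.ofReal (r ^ 2 * (Real.tan φ - φ)) ≤
      ∫⁻ ψ in Ioc (-φ) φ, ENNReal.ofReal (((r / Real.cos (φ - |ψ|)) ^ 2 - r ^ 2) / 2) := by
  have hcospos : ∀ ψ ∈ Icc (-φ) φ, 0 < Real.cos (φ - |ψ|) := by
    intro ψ hψ
    have h1 : |ψ| ≤ φ := abs_le.mpr hψ
    exact Real.cos_pos_of_mem_Ioo ⟨by linarith [abs_nonneg ψ], by linarith [abs_nonneg ψ]⟩
  have hcont : ContinuousOn (fun ψ => ((r / Real.cos (φ - |ψ|)) ^ 2 - r ^ 2) / 2) (Icc (-φ) φ) := by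
    refine ContinuousOn.div_const (ContinuousOn.sub (ContinuousOn.pow (ContinuousOn.div
      continuousOn_const ?_ ?_) 2) continuousOn_const) 2
    · exact (Real.continuous_cos.comp (continuous_const.sub continuous_abs)).continuousOn
    · intro ψ hψ
      exact (hcospos ψ hψ).ne'
  rw [← ofReal_integral_eq_lintegral_ofReal]
  · refine ENNReal.ofReal_le_ofReal (le_of_eq ?_)
    rw [← intervalIntegral.integral_of_le (by linarith)]
    have i1 : IntervalIntegrable (fun ψ => ((r / Real.cos (φ - |ψ|)) ^ 2 - r ^ 2) / 2) volume (-φ) 0 := by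
      refine ContinuousOn.intervalIntegrable ?_
      rw [uIcc_of_le (by linarith)]
      exact hcont.mono (Icc_subset_Icc le_rfl hφ0.le)
    have i2 : IntervalIntegrable (fun ψ => ((r / Real.cos (φ - |ψ|)) ^ 2 - r ^ 2) / 2) volume 0 φ := by
      refine ContinuousOn.intervalIntegrable ?_
      rw [uIcc_of_le hφ0.le]
      exact hcont.mono (Icc_subset_Icc (by linarith) le_rfl)
    rw [← intervalIntegral.integral_add_adjacent_intervals i1 i2]
    have e1 : ∫ ψ in (-φ)..0, ((r / Real.cos (φ - |ψ|)) ^ 2 - r ^ 2) / 2 =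
        ((r ^ 2 * Real.tan (φ + 0) - r ^ 2 * 0) / 2) - ((r ^ 2 * Real.tan (φ + -φ) - r ^ 2 * -φ) / 2) := by
      refine intervalIntegral.integral_eq_sub_of_hasDerivAt
        (f := fun ψ => (r ^ 2 * Real.tan (φ + ψ) - r ^ 2 * ψ) / 2) ?_ i1
      intro ψ hψ
      rw [uIcc_of_le (by linarith)] at hψ
      have habs : |ψ| = -ψ := abs_of_nonpos hψ.2
      have hc : 0 < Real.cos (φ - |ψ|) := hcospos ψ ⟨hψ.1, hψ.2.trans hφ0.le⟩
      rw [habs, sub_neg_eq_add] at hc ⊢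
      have h1 : HasDerivAt (fun ψ => φ + ψ) 1 ψ := by
        simpa using (hasDerivAt_id ψ).const_add φ
      have h2 := (Real.hasDerivAt_tan hc.ne').comp ψ h1
      have h3 := ((h2.const_mul (r ^ 2)).sub ((hasDerivAt_id ψ).const_mul (r ^ 2))).div_const 2
      convert! h3 using 1
      field_simp
    have e2 : ∫ ψ in (0 : ℝ)..φ, ((r / Real.cos (φ - |ψ|)) ^ 2 - r ^ 2) / 2 =
        ((-(r ^ 2 * Real.tan (φ - φ)) - r ^ 2 * φ) / 2) - ((-(r ^ 2 * Real.tan (φ - 0)) - r ^ 2 * 0) / 2) := by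
      refine intervalIntegral.integral_eq_sub_of_hasDerivAt
        (f := fun ψ => (-(r ^ 2 * Real.tan (φ - ψ)) - r ^ 2 * ψ) / 2) ?_ i2
      intro ψ hψ
      rw [uIcc_of_le hφ0.le] at hψ
      have habs : |ψ| = ψ := abs_of_nonneg hψ.1
      have hc : 0 < Real.cos (φ - |ψ|) := hcospos ψ ⟨by linarith [hψ.1], hψ.2⟩
      rw [habs] at hc ⊢
      have h1 : HasDerivAt (fun ψ => φ - ψ) (-1) ψ := by
        simpa using (hasDerivAt_id ψ).const_sub φ
      have h2 := (Real.hasDerivAt_tan hc.ne').comp ψ h1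
      have h3 := ((h2.const_mul (r ^ 2)).neg.sub ((hasDerivAt_id ψ).const_mul (r ^ 2))).div_const 2
      convert! h3 using 1
      field_simp
    rw [e1, e2, add_neg_cancel, sub_self, Real.tan_zero, add_zero, sub_zero]
    ring
  · exact (hcont.integrableOn_Icc).mono_set Ioc_subset_Icc_self
  · filter_upwards [ae_restrict_mem measurableSet_Ioc] with ψ hψ
    have hc := hcospos ψ (Ioc_subset_Icc_self hψ)
    have hc1 := Real.cos_le_one (φ - |ψ|)
    show 0 ≤ ((r / Real.cos (φ - |ψ|)) ^ 2 - r ^ 2) / 2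
    have : r ^ 2 ≤ (r / Real.cos (φ - |ψ|)) ^ 2 := by
      rw [div_pow, le_div_iff₀ (by positivity)]
      have h1 : Real.cos (φ - |ψ|) ^ 2 ≤ 1 := by nlinarith
      nlinarith [sq_nonneg r]
    linarith

theorem capArea (e : E 2) (he : ‖e‖ = 1) (r ρ : ℝ) (hr : 0 < r) (hρ : r < ρ) :
    ENNReal.ofReal (r * √(ρ ^ 2 - r ^ 2) - r ^ 2 * Real.arccos (r / ρ))
      ≤ volume {x : E 2 | x ∈ convexHull ℝ (closedBall (0 : E 2) r ∪ {ρ • e}) ∧ r < ‖x‖} := by
  have hρ0 : 0 < ρ := hr.trans hρ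
  obtain ⟨φ, hφ⟩ : ∃ φ : ℝ, φ = Real.arccos (r / ρ) := ⟨_, rfl⟩
  have hx0 : 0 < r / ρ := by positivity
  have hx1 : r / ρ < 1 := (div_lt_one hρ0).mpr hρ
  have hc : Real.cos φ = r / ρ := by rw [hφ]; exact Real.cos_arccos (by linarith) hx1.le
  have hφ0 : 0 < φ := by rw [hφ]; exact Real.arccos_pos.2 hx1
  have hφ1 : φ < Real.pi / 2 := by rw [hφ]; exact Real.arccos_lt_pi_div_two.2 hx0
  have hval : r * √(ρ ^ 2 - r ^ 2) - r ^ 2 * Real.arccos (r / ρ) = r ^ 2 * (Real.tan φ - φ) := by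
    rw [← hφ]
    have h1 : Real.tan φ = √(1 - (r / ρ) ^ 2) / (r / ρ) := by rw [hφ]; exact Real.tan_arccos _
    have h2 : √(ρ ^ 2 - r ^ 2) = ρ * √(1 - (r / ρ) ^ 2) := by
      have h3 : ρ ^ 2 - r ^ 2 = ρ ^ 2 * (1 - (r / ρ) ^ 2) := by field_simp
      rw [h3, Real.sqrt_mul (by positivity), Real.sqrt_sq hρ0.le]
    rw [h1, h2]
    field_simp
  rw [hval]
  -- an orthonormal basis starting with e
  have hon : Orthonormal ℝ (({0} : Set (Fin 2)).domRestrict (fun _ => e)) :=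
    ⟨fun _ => he, fun i j hij => absurd (Subsingleton.elim i j) hij⟩
  obtain ⟨b, hb⟩ := hon.exists_orthonormalBasis_extension_of_card_eq (by simp)
  have hb0 : b 0 = e := hb 0 rfl
  rw [← hb0]
  obtain ⟨S, hS⟩ : ∃ S : Set (E 2), S = {x : E 2 | x ∈ convexHull ℝ (closedBall (0 : E 2) r ∪ {ρ • b 0}) ∧ r < ‖x‖} :=
    ⟨_, rfl⟩
  rw [← hS]
  have hmp := cap_mp b
  let Φ : ℝ × ℝ → E 2 := fun p => p.1 • b 0 + p.2 • b 1
  have h1 : volume (Φ ⁻¹' S) ≤ volume S := by
    have := Measure.le_map_apply hmp.measurable.aemeasurable S (μ := volume)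
    rwa [hmp.map_eq] at this
  refine le_trans ?_ h1
  refine le_trans ?_ (lintegral_indicator_one_le (Φ ⁻¹' S))
  rw [← lintegral_comp_polarCoord_symm]
  let D : Set (ℝ × ℝ) := {p | p.2 ∈ Ioc (-φ) φ ∧ p.1 ∈ Ioo r (r / Real.cos (φ - |p.2|))}
  have hDm : MeasurableSet D := by
    have m1 : MeasurableSet {p : ℝ × ℝ | p.2 ∈ Ioc (-φ) φ} := measurable_snd measurableSet_Ioc
    have m2 : Measurable fun p : ℝ × ℝ => r / Real.cos (φ - |p.2|) := by fun_prop
    have m3 : MeasurableSet {p : ℝ × ℝ | r < p.1} := measurableSet_lt measurable_const measurable_fst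
    have m4 : MeasurableSet {p : ℝ × ℝ | p.1 < r / Real.cos (φ - |p.2|)} := measurableSet_lt measurable_fst m2
    exact m1.inter (m3.inter m4)
  have hDsub : D ⊆ polarCoord.target := by
    rintro p ⟨hp2, hp1⟩
    have hpi := Real.pi_pos
    refine ⟨hr.trans hp1.1, ?_, ?_⟩
    · have := hp2.1
      show -Real.pi < p.2
      linarith
    · have := hp2.2
      show p.2 < Real.pi
      linarith
  have hDin : ∀ p ∈ D, polarCoord.symm p ∈ Φ ⁻¹' S := by
    rintro ⟨s, ψ⟩ ⟨hψ, hs⟩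
    change ψ ∈ Ioc (-φ) φ at hψ
    change s ∈ Ioo r (r / Real.cos (φ - |ψ|)) at hs
    have hs0 : 0 < s := hr.trans hs.1
    have habs : |ψ| ≤ φ := abs_le.mpr ⟨hψ.1.le, hψ.2⟩
    have hcp : 0 < Real.cos (φ - |ψ|) :=
      Real.cos_pos_of_mem_Ioo ⟨by linarith [abs_nonneg ψ], by linarith [abs_nonneg ψ]⟩
    rw [hS]
    show (s * Real.cos ψ) • b 0 + (s * Real.sin ψ) • b 1 ∈
      {x : E 2 | x ∈ convexHull ℝ (closedBall (0 : E 2) r ∪ {ρ • b 0}) ∧ r < ‖x‖}
    refine ⟨cap_mem b r ρ φ s ψ hr hφ0 hφ1 hρ0 hc habs hs0.le ?_, ?_⟩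
    · have := hs.2
      rw [lt_div_iff₀ hcp] at this
      exact this.le
    · have h2 := cap_nrm b (s * Real.cos ψ) (s * Real.sin ψ)
      have h3 : (s * Real.cos ψ) ^ 2 + (s * Real.sin ψ) ^ 2 = s ^ 2 := by
        have := Real.sin_sq_add_cos_sq ψ
        calc (s * Real.cos ψ) ^ 2 + (s * Real.sin ψ) ^ 2 = s ^ 2 * (Real.sin ψ ^ 2 + Real.cos ψ ^ 2) := by ring
          _ = s ^ 2 := by rw [this, mul_one]
      rw [h3] at h2
      have h4 := (pow_left_inj₀ (norm_nonneg _) hs0.le two_ne_zero).1 h2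
      rw [h4]
      exact hs.1
  calc ENNReal.ofReal (r ^ 2 * (Real.tan φ - φ))
      ≤ ∫⁻ ψ in Ioc (-φ) φ, ENNReal.ofReal (((r / Real.cos (φ - |ψ|)) ^ 2 - r ^ 2) / 2) :=
        cap_outer r φ hφ0 hφ1
    _ ≤ ∫⁻ ψ, ∫⁻ s, D.indicator (fun p => ENNReal.ofReal p.1) (s, ψ) := by
        rw [← lintegral_indicator measurableSet_Ioc]
        refine lintegral_mono fun ψ => ?_
        by_cases hψ : ψ ∈ Ioc (-φ) φ
        · rw [indicator_of_mem hψ]
          have habs : |ψ| ≤ φ := abs_le.mpr ⟨hψ.1.le, hψ.2⟩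
          have hcp : 0 < Real.cos (φ - |ψ|) :=
            Real.cos_pos_of_mem_Ioo ⟨by linarith [abs_nonneg ψ], by linarith [abs_nonneg ψ]⟩
          have hrR : r ≤ r / Real.cos (φ - |ψ|) := by
            rw [le_div_iff₀ hcp]
            nlinarith [Real.cos_le_one (φ - |ψ|)]
          refine (cap_inner r _ hr.le hrR).trans ?_
          rw [← lintegral_indicator measurableSet_Ioo]
          refine lintegral_mono fun s => ?_
          by_cases hs : s ∈ Ioo r (r / Real.cos (φ - |ψ|))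
          · rw [indicator_of_mem hs]
            have : (s, ψ) ∈ D := ⟨hψ, hs⟩
            rw [indicator_of_mem this]
          · rw [indicator_of_notMem hs]
            exact bot_le
        · rw [indicator_of_notMem hψ]
          exact bot_le
    _ = ∫⁻ p, D.indicator (fun p => ENNReal.ofReal p.1) p := by
        rw [Measure.volume_eq_prod, lintegral_prod_symm']
        exact (ENNReal.measurable_ofReal.comp measurable_fst).indicator hDm
    _ = ∫⁻ p in D, ENNReal.ofReal p.1 := lintegral_indicator hDm _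
    _ ≤ ∫⁻ p in D, ENNReal.ofReal p.1 • (Φ ⁻¹' S).indicator 1 (polarCoord.symm p) := by
        refine setLIntegral_mono_ae' hDm (Eventually.of_forall fun p hp => ?_)
        rw [indicator_of_mem (hDin p hp)]
        simp
    _ ≤ _ := lintegral_mono_set hDsub

end Pool.Agent.Helper865.Wid
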