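import Pool.Agent.Helper865.Wid.Defs

set_option autoImplicit false

open MeasureTheory Set Filter Topology Metric

namespace Pool.Agent.Helper865.Wid


theorem capSector_repr (u v : E 2) (hu : ‖u‖ = 1) (hv : ‖v‖ = 1) (huv : u ≠ v) (huv' : u ≠ -v) (x : E 2) :
    ∃ a b : ℝ, x = a • u + b • v := by
  have hu2 : u 0 ^ 2 + u 1 ^ 2 = 1 := by
    have h := EuclideanSpace.real_norm_sq_eq u
    rw [hu, Fin.sum_univ_two] at h
    linarith
  have hv2 : v 0 ^ 2 + v 1 ^ 2 = 1 := by
    have h := EuclideanSpace.real_norm_sq_eq v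
    rw [hv, Fin.sum_univ_two] at h
    linarith
  have hD : u 0 * v 1 - u 1 * v 0 ≠ 0 := by
    intro hD
    have ht : (u 0 * v 0 + u 1 * v 1) ^ 2 = 1 := by
      have : (u 0 * v 0 + u 1 * v 1) ^ 2 + (u 0 * v 1 - u 1 * v 0) ^ 2 = 
        (u 0 ^ 2 + u 1 ^ 2) * (v 0 ^ 2 + v 1 ^ 2) := by ring
      rw [hD, hu2, hv2] at this
      linarith
    have ht2 : (u 0 * v 0 + u 1 * v 1) * (u 0 * v 0 + u 1 * v 1) = 1 := by rw [← sq]; exact ht
    rcases mul_self_eq_one_iff.mp ht2 with h | h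
    · apply huv
      have h3 : (u 0 - v 0) ^ 2 + (u 1 - v 1) ^ 2 = 0 := by nlinarith
      have h4 : u 0 - v 0 = 0 := by nlinarith [sq_nonneg (u 0 - v 0), sq_nonneg (u 1 - v 1)]
      have h5 : u 1 - v 1 = 0 := by nlinarith [sq_nonneg (u 0 - v 0), sq_nonneg (u 1 - v 1)]
      ext i
      fin_cases i
      · simpa using sub_eq_zero.mp h4
      · simpa using sub_eq_zero.mp h5
    · apply huv'
      have h3 : (u 0 + v 0) ^ 2 + (u 1 + v 1) ^ 2 = 0 := by nlinarith
      have h4 : u 0 + v 0 = 0 := by nlinarith [sq_nonneg (u 0 + v 0), sq_nonneg (u 1 + v 1)]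
      have h5 : u 1 + v 1 = 0 := by nlinarith [sq_nonneg (u 0 + v 0), sq_nonneg (u 1 + v 1)]
      ext i
      fin_cases i
      · simpa using eq_neg_of_add_eq_zero_left h4
      · simpa using eq_neg_of_add_eq_zero_left h5
  have key0 : (x 0 * v 1 - x 1 * v 0) / (u 0 * v 1 - u 1 * v 0) * u 0 + (u 0 * x 1 - u 1 * x 0) / (u 0 * v 1 - u 1 * v 0) * v 0 = x 0 := by
    rw [div_mul_eq_mul_div, div_mul_eq_mul_div, ← add_div, div_eq_iff hD]
    ring
  have key1 : (x 0 * v 1 - x 1 * v 0) / (u 0 * v 1 - u 1 * v 0) * u 1 + (u 0 * x 1 - u 1 * x 0) / (u 0 * v 1 - u 1 * v 0) * v 1 = x 1 := by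
    rw [div_mul_eq_mul_div, div_mul_eq_mul_div, ← add_div, div_eq_iff hD]
    ring
  refine ⟨(x 0 * v 1 - x 1 * v 0) / (u 0 * v 1 - u 1 * v 0),
    (u 0 * x 1 - u 1 * x 0) / (u 0 * v 1 - u 1 * v 0), ?_⟩
  ext i
  fin_cases i
  · exact key0.symm
  · exact key1.symm

theorem capSector_side (u v : E 2) (r ρ : ℝ) (hr : 0 < r) (hρ : r < ρ) (e : E 2) (he : ‖e‖ = 1)
    (hv : ‖v‖ = 1) (hev : ρ * inner ℝ e v ≤ r)
    (a b : ℝ) (ha : 0 ≤ a) (hb : 0 ≤ b) (hab : e = a • u + b • v) : 0 < a := by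
  rcases ha.lt_or_eq with h | h
  · exact h
  · exfalso
    rw [← h, zero_smul, zero_add] at hab
    have h1 : b = 1 := by
      have h2 : ‖e‖ = b := by
        rw [hab, norm_smul, hv, Real.norm_eq_abs, abs_of_nonneg hb, mul_one]
      rw [← h2, he]
    rw [h1, one_smul] at hab
    rw [hab, real_inner_self_eq_norm_sq, hv] at hev
    linarith

theorem capSector (u v e : E 2) (r ρ : ℝ) (hr : 0 < r) (hρ : r < ρ) (he : ‖e‖ = 1)
    (hu : ‖u‖ = 1) (hv : ‖v‖ = 1) (huv : u ≠ v) (huv' : u ≠ -v)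
    (heu : ρ * inner ℝ e u ≤ r) (hev : ρ * inner ℝ e v ≤ r)
    (hcone : ∃ a b : ℝ, 0 ≤ a ∧ 0 ≤ b ∧ e = a • u + b • v)
    (x : E 2) (hx : x ∈ convexHull ℝ (closedBall (0 : E 2) r ∪ {ρ • e})) (hxr : r < ‖x‖) :
    ∃ a b : ℝ, 0 < a ∧ 0 < b ∧ x = a • u + b • v := by
  obtain ⟨a, b, ha, hb, hab⟩ := hcone
  have ha' : 0 < a := capSector_side u v r ρ hr hρ e he hv hev a b ha hb hab
  have hb' : 0 < b := capSector_side v u r ρ hr hρ e he hu heu b a hb ha (by rw [hab, add_comm])
  obtain ⟨α, β, hx2⟩ := capSector_repr u v hu hv huv huv' x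
  by_contra hcon
  have hmin : min α β ≤ 0 := by
    by_contra h
    push Not at h
    exact hcon ⟨α, β, (lt_min_iff.mp h).1, (lt_min_iff.mp h).2, hx2⟩
  -- decomposition of x
  rw [Set.union_singleton, convexHull_insert ⟨0, by simp [hr.le]⟩] at hx
  rw [mem_convexJoin] at hx
  obtain ⟨p, hp, w, hw, hseg⟩ := hx
  rw [Set.mem_singleton_iff] at hp
  subst hp
  rw [(convex_closedBall (0 : E 2) r).convexHull_eq, mem_closedBall, dist_zero_right] at hw
  obtain ⟨s, s', hs, hs', hss, hxs⟩ := hseg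
  have hρ0 : 0 < ρ := hr.trans hρ
  -- IVT
  have hcont : ContinuousOn (fun c : ℝ => min ((1 - c) * α + c * (ρ * a)) ((1 - c) * β + c * (ρ * b))) (Set.Icc 0 1) := by
    fun_prop
  have hivt := intermediate_value_Icc (zero_le_one : (0 : ℝ) ≤ 1) hcont
  have h0mem : (0 : ℝ) ∈ Set.Icc ((fun c : ℝ => min ((1 - c) * α + c * (ρ * a)) ((1 - c) * β + c * (ρ * b))) 0)
      ((fun c : ℝ => min ((1 - c) * α + c * (ρ * a)) ((1 - c) * β + c * (ρ * b))) 1) := by
    constructor
    · simpa using hmin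
    · simp only [sub_self, zero_mul, zero_add, one_mul]
      exact le_min (by positivity) (by positivity)
  obtain ⟨c, hc, hc0⟩ := hivt h0mem
  simp only at hc0
  -- inner products
  have hinner : ∀ z : E 2, ‖z‖ = 1 → ρ * inner ℝ e z ≤ r → inner ℝ x z ≤ r := by
    intro z hz hez
    rw [← hxs, inner_add_left, real_inner_smul_left, real_inner_smul_left, real_inner_smul_left]
    have h1 : inner ℝ w z ≤ r := by
      have := real_inner_le_norm w z
      rw [hz, mul_one] at this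
      linarith
    nlinarith
  have hiy : ∀ z : E 2, ‖z‖ = 1 → ρ * inner ℝ e z ≤ r → inner ℝ ((1 - c) • x + c • (ρ • e)) z ≤ r := by
    intro z hz hez
    have h1 := hinner z hz hez
    rw [inner_add_left, real_inner_smul_left, real_inner_smul_left, real_inner_smul_left]
    have h2 : 0 ≤ 1 - c := by linarith [hc.2]
    have h3 := hc.1
    nlinarith
  have hy : (1 - c) • x + c • (ρ • e) = ((1 - c) * α + c * (ρ * a)) • u + ((1 - c) * β + c * (ρ * b)) • v := by
    rw [hx2, hab]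
    module
  have hyn : ‖(1 - c) • x + c • (ρ • e)‖ ≤ r := by
    have h1 : 0 ≤ (1 - c) * α + c * (ρ * a) := by
      have := min_le_left ((1 - c) * α + c * (ρ * a)) ((1 - c) * β + c * (ρ * b))
      rw [hc0] at this
      exact this
    have h2 : 0 ≤ (1 - c) * β + c * (ρ * b) := by
      have := min_le_right ((1 - c) * α + c * (ρ * a)) ((1 - c) * β + c * (ρ * b))
      rw [hc0] at this
      exact this
    rcases min_choice ((1 - c) * α + c * (ρ * a)) ((1 - c) * β + c * (ρ * b)) with h | h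
    · rw [hc0] at h
      have h4 := hiy v hv hev
      rw [hy, ← h, zero_smul, zero_add] at h4 ⊢
      rw [real_inner_smul_left, real_inner_self_eq_norm_sq, hv] at h4
      rw [norm_smul, hv, Real.norm_eq_abs, abs_of_nonneg h2]
      linarith
    · rw [hc0] at h
      have h4 := hiy u hu heu
      rw [hy, ← h, zero_smul, add_zero] at h4 ⊢
      rw [real_inner_smul_left, real_inner_self_eq_norm_sq, hu] at h4
      rw [norm_smul, hu, Real.norm_eq_abs, abs_of_nonneg h1]
      linarith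
  -- conclusion
  rcases hs.lt_or_eq with hs0 | hs0
  · have key : (s + c * s') • x = s • ((1 - c) • x + c • (ρ • e)) + (c * s') • w := by
      have e1 : s • (ρ • e) = x - s' • w := by
        rw [← hxs]
        abel
      have e2 : s • ((1 - c) • x + c • (ρ • e)) = (s * (1 - c)) • x + c • (s • (ρ • e)) := by
        module
      rw [e2, e1]
      have e3 : s' = 1 - s := by linarith
      rw [e3]
      module
    have hcs : 0 ≤ c * s' := mul_nonneg hc.1 hs'
    have h5 : (s + c * s') * ‖x‖ ≤ s * r + (c * s') * r := by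
      have h6 : ‖(s + c * s') • x‖ = (s + c * s') * ‖x‖ := by
        rw [norm_smul, Real.norm_eq_abs, abs_of_nonneg (by positivity)]
      rw [← h6, key]
      refine (norm_add_le _ _).trans ?_
      rw [norm_smul, norm_smul, Real.norm_eq_abs, Real.norm_eq_abs, abs_of_nonneg hs, abs_of_nonneg hcs]
      exact add_le_add (mul_le_mul_of_nonneg_left hyn hs) (mul_le_mul_of_nonneg_left hw hcs)
    nlinarith
  · have h7 : s' = 1 := by linarith
    rw [← hs0, h7, zero_smul, one_smul, zero_add] at hxs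
    rw [hxs] at hw
    linarith

end Pool.Agent.Helper865.Wid
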