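import Pool.Agent.Helper865.Wid.Defs

set_option autoImplicit false

open MeasureTheory Set Filter Topology Metric

namespace Pool.Agent.Helper865.Wid



theorem h541_det (a b : E 2) (ha : ‖a‖ = 1) (hb : ‖b‖ = 1) (h1 : a ≠ b) (h2 : a ≠ -b) :
    a 0 * b 1 - a 1 * b 0 ≠ 0 := by
  intro hd
  have ea : a 0 ^ 2 + a 1 ^ 2 = 1 := by
    have := EuclideanSpace.norm_sq_eq a
    rw [ha, Fin.sum_univ_two] at this
    simp only [Real.norm_eq_abs, sq_abs] at this
    linarith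
  have eb : b 0 ^ 2 + b 1 ^ 2 = 1 := by
    have := EuclideanSpace.norm_sq_eq b
    rw [hb, Fin.sum_univ_two] at this
    simp only [Real.norm_eq_abs, sq_abs] at this
    linarith
  have hc : (a 0 * b 0 + a 1 * b 1) ^ 2 = 1 := by
    have : (a 0 * b 0 + a 1 * b 1) ^ 2 + (a 0 * b 1 - a 1 * b 0) ^ 2
        = (a 0 ^ 2 + a 1 ^ 2) * (b 0 ^ 2 + b 1 ^ 2) := by ring
    rw [hd, ea, eb] at this
    linarith
  have hc' : (a 0 * b 0 + a 1 * b 1 - 1) * (a 0 * b 0 + a 1 * b 1 + 1) = 0 := by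
    linarith
  rcases mul_eq_zero.1 hc' with h | h
  · apply h1
    have e0 : (a 0 - b 0) ^ 2 + (a 1 - b 1) ^ 2 = 0 := by nlinarith
    have z0 : a 0 - b 0 = 0 := by nlinarith [sq_nonneg (a 0 - b 0), sq_nonneg (a 1 - b 1)]
    have z1 : a 1 - b 1 = 0 := by nlinarith [sq_nonneg (a 0 - b 0), sq_nonneg (a 1 - b 1)]
    ext t; fin_cases t
    · simpa using sub_eq_zero.1 z0
    · simpa using sub_eq_zero.1 z1
  · apply h2
    have e0 : (a 0 + b 0) ^ 2 + (a 1 + b 1) ^ 2 = 0 := by nlinarith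
    have z0 : a 0 + b 0 = 0 := by nlinarith [sq_nonneg (a 0 + b 0), sq_nonneg (a 1 + b 1)]
    have z1 : a 1 + b 1 = 0 := by nlinarith [sq_nonneg (a 0 + b 0), sq_nonneg (a 1 + b 1)]
    ext t; fin_cases t
    · simpa using eq_neg_of_add_eq_zero_left z0
    · simpa using eq_neg_of_add_eq_zero_left z1

theorem h541_coord (x y : E 2) (h : x = y) : x 0 = y 0 ∧ x 1 = y 1 := by
  subst h; exact ⟨rfl, rfl⟩

theorem h541_core (ui uj uk : E 2) (li lj lk : ℝ) (hli : 0 < li) (hlj : 0 < lj)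
    (hs : li • ui + lj • uj + lk • uk = 0) (hd : uj 0 * uk 1 - uj 1 * uk 0 ≠ 0)
    (α β γ δ : ℝ) (hα : 0 < α) (hγ : 0 < γ) (h : α • uj + β • uk = γ • ui + δ • uk) : False := by
  obtain ⟨s0, s1⟩ := h541_coord _ _ hs
  obtain ⟨e0, e1⟩ := h541_coord _ _ h
  simp only [PiLp.add_apply, PiLp.smul_apply, smul_eq_mul, PiLp.zero_apply] at s0 s1 e0 e1
  have hk : (li * α + γ * lj) * (uj 0 * uk 1 - uj 1 * uk 0) = 0 := by
    have a1 : li * α * (uj 0 * uk 1 - uj 1 * uk 0) = li * γ * (ui 0 * uk 1 - ui 1 * uk 0) := by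
      linear_combination (li * uk 1) * e0 - (li * uk 0) * e1
    have a2 : li * (ui 0 * uk 1 - ui 1 * uk 0) = - lj * (uj 0 * uk 1 - uj 1 * uk 0) := by
      linear_combination uk 1 * s0 - uk 0 * s1
    have a3 : li * γ * (ui 0 * uk 1 - ui 1 * uk 0) = - (γ * lj) * (uj 0 * uk 1 - uj 1 * uk 0) := by
      linear_combination γ * a2
    rw [a3] at a1
    linarith
  rcases mul_eq_zero.1 hk with h' | h'
  · have : 0 < li * α + γ * lj := by positivity
    linarith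
  · exact hd h'

theorem h541_ineq (ui uj p : E 2) (hi : ‖ui‖ = 1) (hj : ‖uj‖ = 1) (α β r : ℝ) (hα : 0 < α)
    (hβ : 0 ≤ β) (hr : 0 < r) (hr2 : r < 1 / 2) (hp : p = α • ui + β • uj)
    (h1 : inner ℝ p ui ≤ -(1 - r)) (h2 : inner ℝ p uj ≤ r) : False := by
  have hc := abs_real_inner_le_norm ui uj
  rw [hi, hj, mul_one] at hc
  obtain ⟨hc1, hc2⟩ := abs_le.1 hc
  rw [hp, inner_add_left, inner_smul_left, inner_smul_left, real_inner_self_eq_norm_sq, hi] at h1
  rw [hp, inner_add_left, inner_smul_left, inner_smul_left, real_inner_self_eq_norm_sq, hj] at h2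
  rw [real_inner_comm ui uj] at h1
  simp only [conj_trivial, one_pow, mul_one] at h1 h2
  set c := inner ℝ ui uj with hcdef
  have hc0 : c < 0 := by
    by_contra hcc
    push Not at hcc
    have : 0 ≤ β * c := mul_nonneg hβ hcc
    linarith
  nlinarith [mul_nonneg (neg_nonneg.2 hc0.le) (sub_nonneg.2 h2),
    mul_nonneg hα.le (by nlinarith : 0 ≤ 1 - c ^ 2), mul_nonneg hr.le (by linarith : 0 ≤ 1 + c)]

theorem h541_sum (u : Fin 3 → E 2) (l : Fin 3 → ℝ) (hsum : ∑ i, l i • u i = 0) :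
    l 0 • u 0 + l 1 • u 1 + l 2 • u 2 = 0 := by
  rw [Fin.sum_univ_three] at hsum; exact hsum

theorem h541_cone (ui uj uk p : E 2) (li lj lk r : ℝ) (hi : ‖ui‖ = 1) (hj : ‖uj‖ = 1)
    (hk : ‖uk‖ = 1) (hli : 0 < li) (hlj : 0 < lj) (hlk : 0 < lk)
    (hs : li • ui + lj • uj + lk • uk = 0) (hjk : uj ≠ uk ∧ uj ≠ -uk)
    (hr : 0 < r) (hr2 : r < 1 / 2) (hp : inner ℝ p ui ≤ -(1 - r)) (hpj : inner ℝ p uj ≤ r)
    (hpk : inner ℝ p uk ≤ r) : ∃ a b : ℝ, 0 ≤ a ∧ 0 ≤ b ∧ p = a • uj + b • uk := by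
  have hd := h541_det uj uk hj hk hjk.1 hjk.2
  set D := uj 0 * uk 1 - uj 1 * uk 0 with hD
  obtain ⟨x, y, hxy⟩ : ∃ x y : ℝ, p = x • uj + y • uk := by
    refine ⟨(p 0 * uk 1 - p 1 * uk 0) / D, (uj 0 * p 1 - uj 1 * p 0) / D, ?_⟩
    ext t; fin_cases t
    · simp only [PiLp.add_apply, PiLp.smul_apply, smul_eq_mul, Fin.zero_eta, Fin.isValue]
      field_simp
      rw [hD]; ring
    · simp only [PiLp.add_apply, PiLp.smul_apply, smul_eq_mul, Fin.mk_one, Fin.isValue]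
      field_simp
      rw [hD]; ring
  by_cases hx : 0 ≤ x ∧ 0 ≤ y
  · exact ⟨x, y, hx.1, hx.2, hxy⟩
  exfalso
  have key : ∀ t : ℝ, p = (t * li) • ui + (x + t * lj) • uj + (y + t * lk) • uk := by
    intro t
    have : t • (li • ui + lj • uj + lk • uk) = 0 := by rw [hs, smul_zero]
    rw [hxy]
    calc x • uj + y • uk = x • uj + y • uk + t • (li • ui + lj • uj + lk • uk) := by
          rw [this, add_zero]
      _ = _ := by module
  rcases le_total (-x / lj) (-y / lk) with hle | hle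
  · -- t = -y/lk
    have ht : 0 < -y / lk := by
      by_contra hcon
      push Not at hcon
      apply hx
      have a1 : -x / lj ≤ 0 := hle.trans hcon
      rw [div_le_iff₀ hlj] at a1
      rw [div_le_iff₀ hlk] at hcon
      exact ⟨by linarith, by linarith⟩
    have e := key (-y / lk)
    have z : y + -y / lk * lk = 0 := by field_simp; ring
    rw [z, zero_smul, add_zero] at e
    have hb : 0 ≤ x + -y / lk * lj := by
      rw [div_le_iff₀ hlj] at hle
      linarith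
    exact h541_ineq ui uj p hi hj _ _ r (mul_pos ht hli) hb hr hr2 e hp hpj
  · have ht : 0 < -x / lj := by
      by_contra hcon
      push Not at hcon
      apply hx
      have a1 : -y / lk ≤ 0 := hle.trans hcon
      rw [div_le_iff₀ hlk] at a1
      rw [div_le_iff₀ hlj] at hcon
      exact ⟨by linarith, by linarith⟩
    have e := key (-x / lj)
    have z : x + -x / lj * lj = 0 := by field_simp; ring
    rw [z, zero_smul, add_zero] at e
    have hb : 0 ≤ y + -x / lj * lk := by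
      rw [div_le_iff₀ hlk] at hle
      linarith
    exact h541_ineq ui uk p hi hk _ _ r (mul_pos ht hli) hb hr hr2 e hp hpk

theorem sectorsDisjoint (u : Fin 3 → E 2) (l : Fin 3 → ℝ) (hu : ∀ i, ‖u i‖ = 1)
    (hl : ∀ i, 0 < l i) (hsum : ∑ i, l i • u i = 0)
    (hne : ∀ i j, i ≠ j → u i ≠ u j ∧ u i ≠ - u j) (x : E 2) (i j : Fin 3) (hij : i ≠ j)
    (hi : ∃ a b : ℝ, 0 < a ∧ 0 < b ∧ x = a • u (i + 1) + b • u (i + 2))
    (hj : ∃ a b : ℝ, 0 < a ∧ 0 < b ∧ x = a • u (j + 1) + b • u (j + 2)) : False := by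
  have hs := h541_sum u l hsum
  have hdet : ∀ i j : Fin 3, i ≠ j → u i 0 * u j 1 - u i 1 * u j 0 ≠ 0 := fun i j h =>
    h541_det _ _ (hu i) (hu j) (hne i j h).1 (hne i j h).2
  obtain ⟨a, b, ha, hb, hx⟩ := hi
  obtain ⟨a', b', ha', hb', hx'⟩ := hj
  have h := hx.symm.trans hx'
  have main : ∀ i j k : Fin 3, j ≠ k → l i • u i + l j • u j + l k • u k = 0 →
      ∀ α β γ δ : ℝ, 0 < α → 0 < γ → α • u j + β • u k = γ • u i + δ • u k → False :=
    fun i j k hjk hs' α β γ δ hα hγ h' =>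
      h541_core (u i) (u j) (u k) (l i) (l j) (l k) (hl i) (hl j) hs' (hdet j k hjk) α β γ δ hα hγ h'
  fin_cases i <;> fin_cases j
  · exact hij rfl
  · -- i = 0, j = 1 : x = a u1 + b u2 = a' u2 + b' u0
    have h2 : a • u 1 + b • u 2 = a' • u 2 + b' • u 0 := h
    exact main 0 1 2 (by decide) hs a b b' a' ha hb' (by rw [h2, add_comm])
  · -- i = 0, j = 2 : a u1 + b u2 = a' u0 + b' u1
    have h2 : a • u 1 + b • u 2 = a' • u 0 + b' • u 1 := h
    exact main 0 2 1 (by decide) (by rw [← hs]; abel) b a a' b' hb ha' (by rw [← h2, add_comm])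
  · -- i = 1, j = 0 : a u2 + b u0 = a' u1 + b' u2
    have h2 : a • u 2 + b • u 0 = a' • u 1 + b' • u 2 := h
    exact main 1 0 2 (by decide) (by rw [← hs]; abel) b a a' b' hb ha' (by rw [← h2, add_comm])
  · exact hij rfl
  · -- i = 1, j = 2 : a u2 + b u0 = a' u0 + b' u1
    have h2 : a • u 2 + b • u 0 = a' • u 0 + b' • u 1 := h
    exact main 1 2 0 (by decide) (by rw [← hs]; abel) a b b' a' ha hb' (by rw [h2, add_comm])
  · -- i = 2, j = 0 : a u0 + b u1 = a' u1 + b' u2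
    have h2 : a • u 0 + b • u 1 = a' • u 1 + b' • u 2 := h
    exact main 2 0 1 (by decide) (by rw [← hs]; abel) a b b' a' ha hb' (by rw [h2, add_comm])
  · -- i = 2, j = 1 : a u0 + b u1 = a' u2 + b' u0
    have h2 : a • u 0 + b • u 1 = a' • u 2 + b' • u 0 := h
    exact main 2 1 0 (by decide) (by rw [← hs]; abel) b a a' b' hb ha' (by rw [← h2, add_comm])
  · exact hij rfl

theorem inCone (u : Fin 3 → E 2) (l : Fin 3 → ℝ) (hu : ∀ i, ‖u i‖ = 1)
    (hl : ∀ i, 0 < l i) (hsum : ∑ i, l i • u i = 0)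
    (hne : ∀ i j, i ≠ j → u i ≠ u j ∧ u i ≠ - u j) (r : ℝ) (hr : 0 < r) (hr2 : r < 1 / 2)
    (i : Fin 3) (p : E 2) (hp : inner ℝ p (u i) ≤ -(1 - r)) (hpj : ∀ j, inner ℝ p (u j) ≤ r) :
    ∃ a b : ℝ, 0 ≤ a ∧ 0 ≤ b ∧ p = a • u (i + 1) + b • u (i + 2) := by
  have hs := h541_sum u l hsum
  have main : ∀ i j k : Fin 3, j ≠ k → l i • u i + l j • u j + l k • u k = 0 →
      inner ℝ p (u i) ≤ -(1 - r) → ∃ a b : ℝ, 0 ≤ a ∧ 0 ≤ b ∧ p = a • u j + b • u k :=
    fun i j k hjk hs' hp' =>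
      h541_cone (u i) (u j) (u k) p (l i) (l j) (l k) r (hu i) (hu j) (hu k) (hl i) (hl j) (hl k)
        hs' (hne j k hjk) hr hr2 hp' (hpj j) (hpj k)
  fin_cases i
  · exact main 0 1 2 (by decide) hs hp
  · exact main 1 2 0 (by decide) (by rw [← hs]; abel) hp
  · exact main 2 0 1 (by decide) (by rw [← hs]; abel) hp

end Pool.Agent.Helper865.Wid
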