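import Pool.Agent.Helper865.Wid.Defs

set_option autoImplicit false

open MeasureTheory Set Filter Topology Metric

namespace Pool.Agent.Helper865.Wid


theorem oneVar_poly (x : ℝ) (h0 : 0 ≤ x) (h1 : x ≤ 1) :
    1 / 3 ≤ (1 - x ^ 2 / 3) ^ 2 / 4 * (3 * ((1 / 2 * (1 - x ^ 2 / 3) - x / 3) / (1 + x ^ 2 / 3)))
      + x / 2 * (1 - x ^ 2 / 3) := by
  have hp : 0 < 1 + x ^ 2 / 3 := by positivity
  have hq : 0 ≤ 1 / 8 + 7 * x / 8 - 7 / 12 * x ^ 2 - x ^ 3 / 12 + 7 / 24 * x ^ 4 + x ^ 5 / 24 := by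
    have e1 : 0 ≤ x * (1 - x) := mul_nonneg h0 (by linarith)
    have e2 : 0 ≤ x * (x * (1 - x)) := mul_nonneg h0 e1
    have e3 : 0 ≤ x ^ 4 := by positivity
    have e4 : 0 ≤ x ^ 5 := by positivity
    nlinarith
  have hq2 := mul_nonneg (sub_nonneg.mpr h1) hq
  have key : (1 / 3 - x / 2 * (1 - x ^ 2 / 3)) ≤ ((1 - x ^ 2 / 3) ^ 2 / 4 *
      (3 * (1 / 2 * (1 - x ^ 2 / 3) - x / 3))) / (1 + x ^ 2 / 3) := by
    rw [le_div_iff₀ hp]
    nlinarith [hq2]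
  have e : (1 - x ^ 2 / 3) ^ 2 / 4 * (3 * ((1 / 2 * (1 - x ^ 2 / 3) - x / 3) / (1 + x ^ 2 / 3)))
      = ((1 - x ^ 2 / 3) ^ 2 / 4 * (3 * (1 / 2 * (1 - x ^ 2 / 3) - x / 3))) / (1 + x ^ 2 / 3) := by
    ring
  rw [e]
  linarith

theorem oneVar (r : ℝ) (h1 : 1 / 3 ≤ r) (h2 : r < 1 / 2) :
    1 / √3 ≤ Real.pi * r ^ 2
      + 3 * (r * √((1 - r) ^ 2 - r ^ 2) - r ^ 2 * Real.arccos (r / (1 - r))) := by
  set q : ℝ := √3 with hq
  have hq0 : 0 < q := Real.sqrt_pos.mpr (by norm_num)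
  have hq2 : q ^ 2 = 3 := Real.sq_sqrt (by norm_num)
  have hs : (1 - r) ^ 2 - r ^ 2 = 1 - 2 * r := by ring
  rw [hs]
  set τ : ℝ := √(1 - 2 * r) with hτ
  have hτ0 : 0 ≤ τ := Real.sqrt_nonneg _
  have hτ2 : τ ^ 2 = 1 - 2 * r := Real.sq_sqrt (by linarith)
  have hr : r = (1 - τ ^ 2) / 2 := by rw [hτ2]; ring
  have hx1 : q * τ ≤ 1 := by
    have : (q * τ) ^ 2 ≤ 1 := by rw [mul_pow, hq2, hτ2]; linarith
    nlinarith [mul_nonneg hq0.le hτ0]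
  have hx0 : 0 ≤ q * τ := mul_nonneg hq0.le hτ0
  set θ : ℝ := Real.arctan τ with hθ
  have hθ0 : 0 ≤ θ := Real.arctan_nonneg.mpr hτ0
  have hc2 : Real.cos (2 * θ) = (1 - τ ^ 2) / (1 + τ ^ 2) := by
    rw [Real.cos_two_mul, hθ, Real.cos_sq_arctan]
    have : (1 + τ ^ 2) ≠ 0 := by positivity
    field_simp
    ring
  have hs2 : Real.sin (2 * θ) = 2 * τ / (1 + τ ^ 2) := by
    rw [Real.sin_two_mul, hθ, Real.sin_arctan, Real.cos_arctan]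
    have h3 : √(1 + τ ^ 2) ^ 2 = 1 + τ ^ 2 := Real.sq_sqrt (by positivity)
    have h4 : √(1 + τ ^ 2) ≠ 0 := (Real.sqrt_pos.mpr (by positivity)).ne'
    have h5 : (1 + τ ^ 2) ≠ 0 := by positivity
    field_simp
    rw [h3]
  have hθ6 : θ ≤ Real.pi / 6 := by
    have h6 : Real.arctan (Real.tan (Real.pi / 6)) = Real.pi / 6 :=
      Real.arctan_tan (by linarith [Real.pi_pos]) (by linarith [Real.pi_pos])
    rw [← h6, hθ]
    apply Real.arctan_mono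
    rw [Real.tan_pi_div_six, le_div_iff₀ hq0, mul_comm]
    exact hx1
  have harc : Real.arccos (r / (1 - r)) = 2 * θ := by
    have h7 : r / (1 - r) = Real.cos (2 * θ) := by
      rw [hc2, hr]
      have h8 : (1 + τ ^ 2) ≠ 0 := by positivity
      have h9 : 1 - (1 - τ ^ 2) / 2 = (1 + τ ^ 2) / 2 := by ring
      rw [h9]
      field_simp
    rw [h7, Real.arccos_cos (by linarith) (by linarith [Real.pi_pos])]
  rw [harc]
  have hδ : Real.sin (Real.pi / 3 - 2 * θ) ≤ Real.pi / 3 - 2 * θ := Real.sin_le (by linarith)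
  rw [Real.sin_sub, Real.sin_pi_div_three, Real.cos_pi_div_three, hc2, hs2] at hδ
  have hx := oneVar_poly (q * τ) hx0 hx1
  have hτx : τ ^ 2 = (q * τ) ^ 2 / 3 := by rw [mul_pow, hq2]; ring
  have hgoal : 1 / q = q * (1 / 3) := by
    field_simp
    linarith
  rw [hgoal]
  have hlow : r ^ 2 * (3 * (q / 2 * ((1 - τ ^ 2) / (1 + τ ^ 2)) - 1 / 2 * (2 * τ / (1 + τ ^ 2))))
      ≤ r ^ 2 * (Real.pi - 6 * θ) := by
    apply mul_le_mul_of_nonneg_left _ (sq_nonneg r)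
    linarith
  have hfin : q * (1 / 3) ≤ r ^ 2 * (3 * (q / 2 * ((1 - τ ^ 2) / (1 + τ ^ 2)) -
      1 / 2 * (2 * τ / (1 + τ ^ 2)))) + 3 * (r * τ) := by
    have h10 := mul_le_mul_of_nonneg_left hx hq0.le
    refine h10.trans (le_of_eq ?_)
    rw [hr]
    rw [← hτx]
    have h8 : (1 + τ ^ 2) ≠ 0 := by positivity
    field_simp
    ring_nf
    rw [show q ^ 2 = 3 from hq2]
    ring
  calc q * (1 / 3) ≤ _ := hfin
    _ ≤ r ^ 2 * (Real.pi - 6 * θ) + 3 * (r * τ) := by linarith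
    _ = _ := by ring

end Pool.Agent.Helper865.Wid
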