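import Pool.Agent.Helper865.Wid.Defs

set_option autoImplicit false

open MeasureTheory Set Filter Topology Metric

namespace Pool.Agent.Helper865.Wid


theorem pal_pick (K : Set (E 2)) (hK : IsCompact K) (o u : E 2) (r : ℝ) (hoK : o ∈ K)
    (hw : 1 ≤ widthDir K u) (hN : ∀ x ∈ K, inner ℝ (x - o) u ≤ r) :
    ∃ x ∈ K, inner ℝ (x - o) u ≤ -(1 - r) := by
  have hcont : Continuous (fun x : E 2 => inner ℝ x u) := continuous_id.inner continuous_const
  obtain ⟨x, hx, hmin⟩ := hK.exists_isMinOn ⟨o, hoK⟩ hcont.continuousOn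
  refine ⟨x, hx, ?_⟩
  have h1 : sInf ((fun x => inner ℝ x u) '' K) = inner ℝ x u := by
    apply le_antisymm
    · exact csInf_le (hK.image hcont).bddBelow ⟨x, hx, rfl⟩
    · apply le_csInf (Set.Nonempty.image _ ⟨o, hoK⟩)
      rintro _ ⟨y, hy, rfl⟩
      exact hmin hy
  have h2 : sSup ((fun x => inner ℝ x u) '' K) ≤ inner ℝ o u + r := by
    apply csSup_le (Set.Nonempty.image _ ⟨o, hoK⟩)
    rintro _ ⟨y, hy, rfl⟩
    have h3 := hN y hy
    rw [inner_sub_left] at h3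
    show inner ℝ y u ≤ inner ℝ o u + r
    linarith
  unfold widthDir at hw
  rw [inner_sub_left]
  linarith

theorem pal_meas (K' B : Set (E 2)) (S : Fin 3 → Set (E 2)) (hB : B ⊆ K') (hS : ∀ i, S i ⊆ K')
    (hBm : MeasurableSet B) (hSm : ∀ i, NullMeasurableSet (S i) volume)
    (hBS : ∀ i, Disjoint B (S i)) (hSS : ∀ i j, i ≠ j → Disjoint (S i) (S j)) :
    volume B + ∑ i, volume (S i) ≤ volume K' := by
  have h1 : volume (⋃ i, S i) = ∑ i, volume (S i) := by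
    rw [measure_iUnion₀ (fun i j hij => (hSS i j hij).aedisjoint) hSm, tsum_fintype]
  have h2 : volume (B ∪ ⋃ i, S i) = volume B + volume (⋃ i, S i) := by
    apply measure_union₀' hBm.nullMeasurableSet
    apply Disjoint.aedisjoint
    rw [Set.disjoint_iUnion_right]
    exact hBS
  rw [← h1, ← h2]
  exact measure_mono (Set.union_subset hB (Set.iUnion_subset hS))

theorem pal_ball (c : E 2) (r : ℝ) (hr : 0 ≤ r) :
    volume (closedBall c r) = ENNReal.ofReal (Real.pi * r ^ 2) := by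
  rw [EuclideanSpace.volume_closedBall_fin_two, ← ENNReal.ofReal_pow hr,
    ← ENNReal.ofReal_mul (by positivity), mul_comm]

theorem pal_third (u : Fin 3 → E 2) (l : Fin 3 → ℝ) (p : Fin 3 → E 2) (r : ℝ)
    (hl : ∀ i, 0 < l i) (hl1 : ∑ i, l i = 1) (h0 : ∑ i, l i • u i = 0)
    (hp : ∀ i, inner ℝ (p i) (u i) ≤ -(1 - r)) (hp2 : ∀ i j, inner ℝ (p i) (u j) ≤ r) :
    1 / 3 ≤ r := by
  have key : ∀ i, l i ≤ r := by
    intro i
    have h1 : ∑ j, l j * inner ℝ (p i) (u j) = 0 := by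
      have h2 : inner ℝ (p i) (∑ j, l j • u j) = 0 := by rw [h0, inner_zero_right]
      rw [inner_sum] at h2
      simp only [inner_smul_right] at h2
      exact h2
    have h3 : ∑ j, l j * inner ℝ (p i) (u j) ≤ ∑ j, (if j = i then - l j + l j * r else l j * r) := by
      apply Finset.sum_le_sum
      intro j _
      by_cases h : j = i
      · rw [if_pos h, h]
        have := mul_le_mul_of_nonneg_left (hp i) (hl i).le
        linarith
      · rw [if_neg h]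
        exact mul_le_mul_of_nonneg_left (hp2 i j) (hl j).le
    have h4 : ∑ j, (if j = i then - l j + l j * r else l j * r) = - l i + (∑ j, l j) * r := by
      rw [Finset.sum_mul]
      have : ∀ j, (if j = i then - l j + l j * r else l j * r)
          = (if j = i then - l j else 0) + l j * r := by
        intro j
        split_ifs <;> ring
      simp only [this, Finset.sum_add_distrib, Finset.sum_ite_eq', Finset.mem_univ, if_true]
    rw [h1, h4, hl1] at h3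
    linarith
  rw [Fin.sum_univ_three] at hl1
  have := key 0
  have := key 1
  have := key 2
  linarith

theorem palOne
    (inballMax : ∀ (K : Set (E 2)), IsCompact K → Convex ℝ K → (interior K).Nonempty →
      ∃ (o : E 2) (r : ℝ), 0 < r ∧ closedBall o r ⊆ K ∧
        ∀ v : E 2, ∃ u : E 2, ‖u‖ = 1 ∧ (∀ x ∈ K, inner ℝ (x - o) u ≤ r) ∧ 0 ≤ inner ℝ u v)
    (touching : ∀ (N : Set (E 2)), IsCompact N → (∀ u ∈ N, ‖u‖ = 1) →
      (∀ v : E 2, ∃ u ∈ N, 0 ≤ inner ℝ u v) →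
      (∃ u : E 2, u ∈ N ∧ -u ∈ N) ∨
        (∃ (u : Fin 3 → E 2) (l : Fin 3 → ℝ), (∀ i, u i ∈ N) ∧ (∀ i, 0 < l i) ∧
          ∑ i, l i = 1 ∧ ∑ i, l i • u i = 0 ∧ ∀ i j, i ≠ j → u i ≠ u j ∧ u i ≠ - u j))
    (capArea : ∀ (e : E 2), ‖e‖ = 1 → ∀ (r ρ : ℝ), 0 < r → r < ρ →
      ENNReal.ofReal (r * √(ρ ^ 2 - r ^ 2) - r ^ 2 * Real.arccos (r / ρ))
        ≤ volume {x : E 2 | x ∈ convexHull ℝ (closedBall (0 : E 2) r ∪ {ρ • e}) ∧ r < ‖x‖})
    (capSector : ∀ (u v e : E 2) (r ρ : ℝ), 0 < r → r < ρ → ‖e‖ = 1 →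
      ‖u‖ = 1 → ‖v‖ = 1 → u ≠ v → u ≠ -v → ρ * inner ℝ e u ≤ r → ρ * inner ℝ e v ≤ r →
      (∃ a b : ℝ, 0 ≤ a ∧ 0 ≤ b ∧ e = a • u + b • v) →
      ∀ (x : E 2), x ∈ convexHull ℝ (closedBall (0 : E 2) r ∪ {ρ • e}) → r < ‖x‖ →
      ∃ a b : ℝ, 0 < a ∧ 0 < b ∧ x = a • u + b • v)
    (sectorsDisjoint : ∀ (u : Fin 3 → E 2) (l : Fin 3 → ℝ), (∀ i, ‖u i‖ = 1) →
      (∀ i, 0 < l i) → ∑ i, l i • u i = 0 →
      (∀ i j, i ≠ j → u i ≠ u j ∧ u i ≠ - u j) → ∀ (x : E 2) (i j : Fin 3), i ≠ j →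
      (∃ a b : ℝ, 0 < a ∧ 0 < b ∧ x = a • u (i + 1) + b • u (i + 2)) →
      (∃ a b : ℝ, 0 < a ∧ 0 < b ∧ x = a • u (j + 1) + b • u (j + 2)) → False)
    (inCone : ∀ (u : Fin 3 → E 2) (l : Fin 3 → ℝ), (∀ i, ‖u i‖ = 1) →
      (∀ i, 0 < l i) → ∑ i, l i • u i = 0 →
      (∀ i j, i ≠ j → u i ≠ u j ∧ u i ≠ - u j) → ∀ (r : ℝ), 0 < r → r < 1 / 2 →
      ∀ (i : Fin 3) (p : E 2), inner ℝ p (u i) ≤ -(1 - r) → (∀ j, inner ℝ p (u j) ≤ r) →
      ∃ a b : ℝ, 0 ≤ a ∧ 0 ≤ b ∧ p = a • u (i + 1) + b • u (i + 2))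
    (oneVar : ∀ (r : ℝ), 1 / 3 ≤ r → r < 1 / 2 →
      1 / √3 ≤ Real.pi * r ^ 2
        + 3 * (r * √((1 - r) ^ 2 - r ^ 2) - r ^ 2 * Real.arccos (r / (1 - r))))
    (K : Set (E 2)) (hK : IsCompact K) (hC : Convex ℝ K) (hi : (interior K).Nonempty)
    (hw : ∀ u : E 2, ‖u‖ = 1 → 1 ≤ widthDir K u) :
    ENNReal.ofReal (1 / √3) ≤ volume K := by
  obtain ⟨o, r, hr, hball, hmax⟩ := inballMax K hK hC hi
  have hoK : o ∈ K := hball (mem_closedBall_self hr.le)
  have hbig : 1 / 2 ≤ r → ENNReal.ofReal (1 / √3) ≤ volume K := by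
    intro h
    calc ENNReal.ofReal (1 / √3) ≤ ENNReal.ofReal (Real.pi * r ^ 2) := by
          apply ENNReal.ofReal_le_ofReal
          have h3 : (1.7 : ℝ) ≤ √3 := Real.le_sqrt_of_sq_le (by norm_num)
          have h4 : 1 / √3 ≤ 1 / 1.7 := one_div_le_one_div_of_le (by norm_num) h3
          have h5 : (1 / 4 : ℝ) ≤ r ^ 2 := by nlinarith
          have h6 := Real.pi_gt_three
          have h7 : 3 * (1 / 4 : ℝ) ≤ Real.pi * r ^ 2 :=
            mul_le_mul h6.le h5 (by norm_num) (by positivity)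
          refine h4.trans (le_trans ?_ h7)
          norm_num
      _ = volume (closedBall o r) := (pal_ball o r hr.le).symm
      _ ≤ volume K := measure_mono hball
  by_cases hr2 : 1 / 2 ≤ r
  · exact hbig hr2
  push Not at hr2
  obtain ⟨N, hNdef⟩ : ∃ N : Set (E 2), N = {u | ‖u‖ = 1 ∧ ∀ x ∈ K, inner ℝ (x - o) u ≤ r} :=
    ⟨_, rfl⟩
  have hNmem : ∀ u, u ∈ N ↔ ‖u‖ = 1 ∧ ∀ x ∈ K, inner ℝ (x - o) u ≤ r := by
    intro u
    rw [hNdef]
    rfl
  have hNc : IsCompact N := by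
    apply IsCompact.of_isClosed_subset (isCompact_sphere (0 : E 2) 1)
    · have : N = {u : E 2 | ‖u‖ = 1} ∩ ⋂ x ∈ K, {u : E 2 | inner ℝ (x - o) u ≤ r} := by
        ext u
        rw [hNmem]
        simp only [Set.mem_inter_iff, Set.mem_iInter]
        rfl
      rw [this]
      apply IsClosed.inter
      · exact isClosed_eq continuous_norm continuous_const
      · apply isClosed_biInter
        intro x _
        exact isClosed_le (continuous_const.inner continuous_id) continuous_const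
    · intro u hu
      rw [mem_sphere_zero_iff_norm]
      exact ((hNmem u).1 hu).1
  rcases touching N hNc (fun u hu => ((hNmem u).1 hu).1) (fun v => by
      obtain ⟨u, h1, h2, h3⟩ := hmax v
      exact ⟨u, (hNmem u).2 ⟨h1, h2⟩, h3⟩) with ⟨u, hu, hu'⟩ | ⟨u, l, hu, hl, hl1, h0, hne⟩
  · exfalso
    obtain ⟨x, hx, hxu⟩ := pal_pick K hK o u r hoK (hw u ((hNmem u).1 hu).1) ((hNmem u).1 hu).2
    have h1 := ((hNmem _).1 hu').2 x hx
    rw [inner_neg_right] at h1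
    linarith
  have hu1 : ∀ i, ‖u i‖ = 1 := fun i => ((hNmem _).1 (hu i)).1
  have huK : ∀ i, ∀ x ∈ K, inner ℝ (x - o) (u i) ≤ r := fun i => ((hNmem _).1 (hu i)).2
  have hpick : ∀ i, ∃ x ∈ K, inner ℝ (x - o) (u i) ≤ -(1 - r) := fun i =>
    pal_pick K hK o (u i) r hoK (hw _ (hu1 i)) (huK i)
  choose x hxK hxu using hpick
  have hr3 : 1 / 3 ≤ r := pal_third u l (fun i => x i - o) r hl hl1 h0 hxu
    (fun i j => huK j _ (hxK i))
  obtain ⟨ρ, hρ⟩ : ∃ ρ, ρ = 1 - r := ⟨_, rfl⟩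
  have hρr : r < ρ := by rw [hρ]; linarith
  have hρ0 : 0 < ρ := by linarith
  have hpn : ∀ i, ρ ≤ ‖x i - o‖ := by
    intro i
    have h1 := abs_real_inner_le_norm (x i - o) (u i)
    rw [hu1 i, mul_one] at h1
    have h2 := neg_abs_le (inner ℝ (x i - o) (u i))
    have h3 := hxu i
    rw [← hρ] at h3
    linarith
  have hpn0 : ∀ i, 0 < ‖x i - o‖ := fun i => lt_of_lt_of_le hρ0 (hpn i)
  -- unit vectors
  obtain ⟨e, he⟩ : ∃ e : Fin 3 → E 2, ∀ i, e i = ‖x i - o‖⁻¹ • (x i - o) := ⟨_, fun _ => rfl⟩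
  have he1 : ∀ i, ‖e i‖ = 1 := by
    intro i
    rw [he i, norm_smul, norm_inv, norm_norm, inv_mul_cancel₀ (hpn0 i).ne']
  have heK : ∀ i, o + ρ • e i ∈ K := by
    intro i
    have h1 : o + ρ • e i = o + (ρ * ‖x i - o‖⁻¹) • (x i - o) := by
      rw [he i, smul_smul]
    rw [h1]
    apply hC.add_smul_sub_mem hoK (hxK i)
    constructor
    · positivity
    · rw [← div_eq_mul_inv, div_le_one (hpn0 i)]
      exact hpn i
  have heu : ∀ i j, ρ * inner ℝ (e i) (u j) ≤ r := by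
    intro i j
    have h1 := huK j _ (heK i)
    rw [add_sub_cancel_left, real_inner_smul_left] at h1
    exact h1
  have hcone : ∀ i, ∃ a b : ℝ, 0 ≤ a ∧ 0 ≤ b ∧ e i = a • u (i + 1) + b • u (i + 2) := by
    intro i
    obtain ⟨a, b, ha, hb, hab⟩ := inCone u l hu1 hl h0 hne r hr hr2 i (x i - o) (hxu i)
      (fun j => huK j _ (hxK i))
    refine ⟨‖x i - o‖⁻¹ * a, ‖x i - o‖⁻¹ * b, by positivity, by positivity, ?_⟩
    rw [he i, mul_smul, mul_smul, ← smul_add, ← hab]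
  -- caps
  obtain ⟨S, hS⟩ : ∃ S : Fin 3 → Set (E 2), ∀ i, S i =
      {x : E 2 | x ∈ convexHull ℝ (closedBall (0 : E 2) r ∪ {ρ • e i}) ∧ r < ‖x‖} :=
    ⟨_, fun _ => rfl⟩
  have hi12 : ∀ i : Fin 3, i + 1 ≠ i + 2 := by decide
  have hsec : ∀ i, ∀ y ∈ S i, ∃ a b : ℝ, 0 < a ∧ 0 < b ∧ y = a • u (i + 1) + b • u (i + 2) := by
    intro i y hy
    rw [hS i] at hy
    exact capSector (u (i + 1)) (u (i + 2)) (e i) r ρ hr hρr (he1 i) (hu1 _) (hu1 _)
      (hne _ _ (hi12 i)).1 (hne _ _ (hi12 i)).2 (heu i _) (heu i _) (hcone i) y hy.1 hy.2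
  obtain ⟨K', hK'⟩ : ∃ K' : Set (E 2), K' = (fun h => o + h) ⁻¹' K := ⟨_, rfl⟩
  have hvol : volume K' = volume K := by
    rw [hK', measure_preimage_add]
  have hK'c : Convex ℝ K' := by
    rw [hK']
    exact hC.translate_preimage_right o
  have hBK : closedBall (0 : E 2) r ⊆ K' := by
    intro y hy
    rw [hK']
    apply hball
    rw [mem_closedBall_zero_iff] at hy
    rw [mem_closedBall, dist_eq_norm, add_sub_cancel_left]
    exact hy
  have hSK : ∀ i, S i ⊆ K' := by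
    intro i y hy
    rw [hS i] at hy
    have h1 : convexHull ℝ (closedBall (0 : E 2) r ∪ {ρ • e i}) ⊆ K' := by
      apply convexHull_min _ hK'c
      apply Set.union_subset hBK
      rw [Set.singleton_subset_iff, hK']
      exact heK i
    exact h1 hy.1
  have hSm : ∀ i, NullMeasurableSet (S i) volume := by
    intro i
    have h1 : S i = convexHull ℝ (closedBall (0 : E 2) r ∪ {ρ • e i}) ∩ {y | r < ‖y‖} := by
      rw [hS i]
      rfl
    rw [h1]
    apply NullMeasurableSet.inter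
    · exact (convex_convexHull ℝ _).nullMeasurableSet volume
    · exact (isOpen_lt continuous_const continuous_norm).measurableSet.nullMeasurableSet
  have hBS : ∀ i, Disjoint (closedBall (0 : E 2) r) (S i) := by
    intro i
    rw [Set.disjoint_left]
    intro y hy hy'
    rw [hS i] at hy'
    rw [mem_closedBall_zero_iff] at hy
    exact absurd hy'.2 (not_lt.mpr hy)
  have hSS : ∀ i j, i ≠ j → Disjoint (S i) (S j) := by
    intro i j hij
    rw [Set.disjoint_left]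
    intro y hy hy'
    exact sectorsDisjoint u l hu1 hl h0 hne y i j hij (hsec i y hy) (hsec j y hy')
  have hmeas := pal_meas K' (closedBall 0 r) S hBK hSK measurableSet_closedBall hSm hBS hSS
  rw [← hvol]
  refine le_trans ?_ hmeas
  obtain ⟨cc, hcc⟩ : ∃ cc, cc = r * √(ρ ^ 2 - r ^ 2) - r ^ 2 * Real.arccos (r / ρ) := ⟨_, rfl⟩
  have hcap : ∀ i, ENNReal.ofReal cc ≤ volume (S i) := by
    intro i
    rw [hS i, hcc]
    exact capArea (e i) (he1 i) r ρ hr hρr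
  have hov : 1 / √3 ≤ Real.pi * r ^ 2 + 3 * cc := by
    rw [hcc, hρ]
    exact oneVar r hr3 hr2
  calc ENNReal.ofReal (1 / √3) ≤ ENNReal.ofReal (Real.pi * r ^ 2 + 3 * cc) :=
        ENNReal.ofReal_le_ofReal hov
    _ ≤ ENNReal.ofReal (Real.pi * r ^ 2) + ENNReal.ofReal (3 * cc) := ENNReal.ofReal_add_le
    _ = volume (closedBall (0 : E 2) r) + ∑ _i : Fin 3, ENNReal.ofReal cc := by
        rw [pal_ball 0 r hr.le, ENNReal.ofReal_mul (by norm_num : (0:ℝ) ≤ 3)]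
        congr 1
        rw [Finset.sum_const, Finset.card_univ, Fintype.card_fin, nsmul_eq_mul]
        congr 1
        simp
    _ ≤ volume (closedBall (0 : E 2) r) + ∑ i, volume (S i) := by
        gcongr with i
        exact hcap i

end Pool.Agent.Helper865.Wid
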