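import Pool.Agent.Helper865.Wid.Defs

set_option autoImplicit false

open MeasureTheory Set Filter Topology Metric

namespace Pool.Agent.Helper865.Wid


theorem auxP_bdd {d : ℕ} {K : Set (E d)} {R : ℝ} (hK : K ⊆ closedBall 0 R) (u : E d) (hu : ‖u‖ = 1) :
    BddAbove ((fun x => inner ℝ x u) '' K) ∧ BddBelow ((fun x => inner ℝ x u) '' K) := by
  have h : ∀ x ∈ K, |inner ℝ x u| ≤ R := by
    intro x hx
    have h1 := abs_real_inner_le_norm x u
    rw [hu, mul_one] at h1
    have h2 := hK hx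
    rw [mem_closedBall_zero_iff] at h2
    exact h1.trans h2
  constructor
  · refine ⟨R, ?_⟩
    rintro _ ⟨x, hx, rfl⟩
    exact (abs_le.1 (h x hx)).2
  · refine ⟨-R, ?_⟩
    rintro _ ⟨x, hx, rfl⟩
    exact (abs_le.1 (h x hx)).1

theorem auxP_width {d : ℕ} {C K : Set (E d)} {R t : ℝ} (ht : 0 < t) (hne : C.Nonempty)
    (hK : K ⊆ closedBall 0 R) (hCK : ∀ x ∈ C, (1 / t) • x ∈ K) (u : E d) (hu : ‖u‖ = 1) :
    widthDir C u ≤ t * widthDir K u := by
  obtain ⟨hA, hB⟩ := auxP_bdd hK u hu
  have key : ∀ x : E d, inner ℝ x u = t * inner ℝ ((1 / t) • x) u := by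
    intro x
    rw [real_inner_smul_left]
    field_simp
  have h1 : sSup ((fun x => inner ℝ x u) '' C) ≤ t * sSup ((fun x => inner ℝ x u) '' K) := by
    refine csSup_le (hne.image _) ?_
    rintro _ ⟨x, hx, rfl⟩
    show inner ℝ x u ≤ _
    rw [key x]
    exact mul_le_mul_of_nonneg_left (le_csSup hA ⟨_, hCK x hx, rfl⟩) ht.le
  have h2 : t * sInf ((fun x => inner ℝ x u) '' K) ≤ sInf ((fun x => inner ℝ x u) '' C) := by
    refine le_csInf (hne.image _) ?_
    rintro _ ⟨x, hx, rfl⟩
    show _ ≤ inner ℝ x u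
    rw [key x]
    exact mul_le_mul_of_nonneg_left (csInf_le hB ⟨_, hCK x hx, rfl⟩) ht.le
  unfold widthDir
  rw [mul_sub]
  linarith

theorem auxP_nonempty {C : Set (E 2)} {t : ℝ} (ht : 0 < t)
    (hw : ∀ u : E 2, ‖u‖ = 1 → t ≤ widthDir C u) : C.Nonempty := by
  by_contra hne
  rw [Set.not_nonempty_iff_eq_empty] at hne
  obtain ⟨u, hu⟩ := exists_norm_eq (E 2) (zero_le_one : (0:ℝ) ≤ 1)
  have h := hw u hu
  rw [hne] at h
  simp [widthDir] at h
  linarith

theorem auxP_interior {C : Set (E 2)} (hC : Convex ℝ C) {t : ℝ} (ht : 0 < t)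
    (hw : ∀ u : E 2, ‖u‖ = 1 → t ≤ widthDir C u) : (interior C).Nonempty := by
  rw [hC.interior_nonempty_iff_affineSpan_eq_top]
  obtain ⟨p, hp⟩ := auxP_nonempty ht hw
  by_contra hcon
  have hps : p ∈ affineSpan ℝ C := subset_affineSpan ℝ C hp
  have hdir : (affineSpan ℝ C).direction ≠ ⊤ := by
    intro h
    exact hcon ((AffineSubspace.direction_eq_top_iff_of_nonempty ⟨p, hps⟩).1 h)
  have hdir2 : (affineSpan ℝ C).directionᗮ ≠ ⊥ := by
    intro h
    exact hdir (Submodule.orthogonal_eq_bot_iff.1 h)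
  obtain ⟨v, hv, hv0⟩ := Submodule.exists_mem_ne_zero_of_ne_bot hdir2
  set u : E 2 := (‖v‖⁻¹ : ℝ) • v with hu
  have hun : ‖u‖ = 1 := by
    rw [hu, norm_smul, norm_inv, norm_norm]
    exact inv_mul_cancel₀ (norm_ne_zero_iff.2 hv0)
  have hconst : ∀ x ∈ C, inner ℝ x u = inner ℝ p u := by
    intro x hx
    have h1 : x -ᵥ p ∈ (affineSpan ℝ C).direction :=
      AffineSubspace.vsub_mem_direction (subset_affineSpan ℝ C hx) hps
    have h2 : inner ℝ (x -ᵥ p) v = 0 := Submodule.inner_right_of_mem_orthogonal h1 hv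
    have h3 : inner ℝ (x - p) u = 0 := by
      rw [hu, real_inner_smul_right]
      have : inner ℝ (x - p) v = 0 := h2
      rw [this, mul_zero]
    rw [inner_sub_left] at h3
    linarith
  have himg : (fun x => inner ℝ x u) '' C = {inner ℝ p u} := by
    ext y
    constructor
    · rintro ⟨x, hx, rfl⟩
      exact hconst x hx
    · intro hy
      rw [Set.mem_singleton_iff] at hy
      exact ⟨p, hp, hy.symm⟩
  have h := hw u hun
  unfold widthDir at h
  rw [himg, csSup_singleton, csInf_singleton, sub_self] at h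
  linarith

open scoped Pointwise in
theorem palT
    (palOne : ∀ (K : Set (E 2)), IsCompact K → Convex ℝ K → (interior K).Nonempty →
      (∀ u : E 2, ‖u‖ = 1 → 1 ≤ widthDir K u) → ENNReal.ofReal (1 / √3) ≤ volume K)
    (t : ℝ) (ht : 0 < t) (C : Set (E 2)) (hC : Convex ℝ C)
    (hb : C ⊆ closedBall 0 1) (hw : ∀ u : E 2, ‖u‖ = 1 → t ≤ widthDir C u) :
    ENNReal.ofReal (t ^ 2 / √3) ≤ volume (interior C) := by
  have ht' : (0:ℝ) < 1 / t := by positivity
  have hne := auxP_nonempty ht hw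
  have hint := auxP_interior hC ht hw
  have hcc : IsCompact (closure C) :=
    (isCompact_closedBall (0 : E 2) 1).of_isClosed_subset isClosed_closure
      (closure_minimal hb isClosed_closedBall)
  have hK1 : IsCompact ((1 / t) • closure C) := hcc.smul (1 / t)
  have hK2 : Convex ℝ ((1 / t) • closure C) := hC.closure.smul (1 / t)
  have hK3 : (interior ((1 / t) • closure C)).Nonempty := by
    rw [interior_smul₀ ht'.ne']
    exact (hint.mono (interior_mono subset_closure)).smul_set
  obtain ⟨R, hR⟩ := hK1.isBounded.subset_closedBall (0 : E 2)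
  have hK4 : ∀ u : E 2, ‖u‖ = 1 → 1 ≤ widthDir ((1 / t) • closure C) u := by
    intro u hu
    have h1 := auxP_width ht hne hR
      (fun x hx => Set.smul_mem_smul_set (subset_closure hx)) u hu
    have h2 := hw u hu
    have h3 : t * 1 ≤ t * widthDir ((1 / t) • closure C) u := by rw [mul_one]; exact h2.trans h1
    exact le_of_mul_le_mul_left h3 ht
  have h := palOne _ hK1 hK2 hK3 hK4
  rw [Measure.addHaar_smul] at h
  have hfr : volume (closure C) ≤ volume (interior C) := by
    have h1 : closure C ⊆ interior C ∪ frontier C := by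
      intro x hx
      by_cases hxi : x ∈ interior C
      · exact Or.inl hxi
      · exact Or.inr ⟨hx, hxi⟩
    calc volume (closure C) ≤ volume (interior C ∪ frontier C) := measure_mono h1
      _ ≤ volume (interior C) + volume (frontier C) := measure_union_le _ _
      _ = volume (interior C) := by rw [hC.addHaar_frontier volume, add_zero]
  have hfin : Module.finrank ℝ (E 2) = 2 := by simp
  rw [hfin, abs_of_pos (by positivity)] at h
  have h5 : ENNReal.ofReal (t ^ 2 / √3) = ENNReal.ofReal (t ^ 2) * ENNReal.ofReal (1 / √3) := by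
    rw [← ENNReal.ofReal_mul (by positivity)]
    congr 1
    ring
  rw [h5]
  calc ENNReal.ofReal (t ^ 2) * ENNReal.ofReal (1 / √3) ≤
        ENNReal.ofReal (t ^ 2) * (ENNReal.ofReal ((1 / t) ^ 2) * volume (closure C)) := by gcongr
    _ = (ENNReal.ofReal (t ^ 2) * ENNReal.ofReal ((1 / t) ^ 2)) * volume (closure C) := by
        rw [mul_assoc]
    _ = volume (closure C) := by
        rw [← ENNReal.ofReal_mul (by positivity)]
        have : t ^ 2 * (1 / t) ^ 2 = 1 := by field_simp
        rw [this, ENNReal.ofReal_one, one_mul]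
    _ ≤ volume (interior C) := hfr

theorem packPlane
    (palT : ∀ (t : ℝ), 0 < t → ∀ (C : Set (E 2)), Convex ℝ C →
      C ⊆ closedBall 0 1 → (∀ u : E 2, ‖u‖ = 1 → t ≤ widthDir C u) →
      ENNReal.ofReal (t ^ 2 / √3) ≤ volume (interior C))
    (t : ℝ) (ht : 0 < t) (m : ℕ) (C : Fin m → Set (E 2)) (hC : IsPacking 2 t C) :
    (m : ℝ) ≤ Real.pi * √3 / t ^ 2 := by
  have h1 : volume (⋃ i, interior (C i)) = ∑ i, volume (interior (C i)) := by
    rw [measure_iUnion]
    · exact tsum_fintype _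
    · intro i j hij
      exact hC.2 i j hij
    · intro i
      exact isOpen_interior.measurableSet
  have h2 : (⋃ i, interior (C i)) ⊆ closedBall (0 : E 2) 1 :=
    Set.iUnion_subset fun i => interior_subset.trans (hC.1 i).2.1
  have h3 : volume (closedBall (0 : E 2) 1) = ENNReal.ofReal Real.pi := by
    rw [EuclideanSpace.volume_closedBall_fin_two]
    simp
  have h4 : ∑ _i : Fin m, ENNReal.ofReal (t ^ 2 / √3) ≤ ENNReal.ofReal Real.pi := by
    calc ∑ _i : Fin m, ENNReal.ofReal (t ^ 2 / √3) ≤ ∑ i, volume (interior (C i)) :=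
          Finset.sum_le_sum fun i _ => palT t ht (C i) (hC.1 i).1 (hC.1 i).2.1 (hC.1 i).2.2
      _ = volume (⋃ i, interior (C i)) := h1.symm
      _ ≤ volume (closedBall (0 : E 2) 1) := measure_mono h2
      _ = ENNReal.ofReal Real.pi := h3
  rw [Finset.sum_const, Finset.card_univ, Fintype.card_fin, nsmul_eq_mul] at h4
  have h5 : ENNReal.ofReal ((m : ℝ) * (t ^ 2 / √3)) ≤ ENNReal.ofReal Real.pi := by
    rw [ENNReal.ofReal_mul (by positivity), ENNReal.ofReal_natCast]
    exact h4
  have h6 := (ENNReal.ofReal_le_ofReal_iff Real.pi_pos.le).1 h5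
  have h7 : (0:ℝ) < √3 := Real.sqrt_pos.2 (by norm_num)
  rw [le_div_iff₀ (by positivity)]
  have h8 : (m : ℝ) * (t ^ 2 / √3) * √3 = (m : ℝ) * t ^ 2 := by field_simp
  nlinarith [mul_le_mul_of_nonneg_right h6 h7.le]

end Pool.Agent.Helper865.Wid
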