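import Pool.Agent.Helper865.Wid.Defs

set_option autoImplicit false

open MeasureTheory Set Filter Topology Metric

namespace Pool.Agent.Helper865.Wid


theorem threeMax {A B S W : ℝ} (h0 : A ^ 2 + A * B + B ^ 2 = S) (hA : A ^ 2 ≤ W) (hB : B ^ 2 ≤ W)
    (hC : (A + B) ^ 2 ≤ W) : S ≤ W := by
  rcases le_total 0 (A * B) with h | h
  · have : (A + B) ^ 2 = S + A * B := by rw [← h0]; ring
    linarith
  · have hab : |A| * |B| = -(A * B) := by rw [← abs_mul, abs_of_nonpos h]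
    rcases le_total (A ^ 2) (B ^ 2) with h' | h'
    · have h5 : |A| ≤ |B| := sq_le_sq.1 h'
      have h6 : A ^ 2 = |A| * |A| := by rw [← sq_abs]; ring
      have h7 : |A| * |A| ≤ |A| * |B| := mul_le_mul_of_nonneg_left h5 (abs_nonneg _)
      linarith
    · have h5 : |B| ≤ |A| := sq_le_sq.1 h'
      have h6 : B ^ 2 = |B| * |B| := by rw [← sq_abs]; ring
      have h7 : |B| * |B| ≤ |A| * |B| := mul_le_mul_of_nonneg_right h5 (abs_nonneg _)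
      linarith

theorem triWidth (s : ℝ) (p q r : E 2) (hpq : dist p q = s) (hqr : dist q r = s)
    (hrp : dist r p = s) (u : E 2) (hu : ‖u‖ = 1) :
    √3 / 2 * s ≤ widthDir (convexHull ℝ ({p, q, r} : Set (E 2))) u := by
  obtain ⟨w, hw⟩ : ∃ w : ℝ, w = widthDir (convexHull ℝ ({p, q, r} : Set (E 2))) u := ⟨_, rfl⟩
  rw [← hw]
  have hs : 0 ≤ s := by rw [← hpq]; exact dist_nonneg
  have hcomp : IsCompact (convexHull ℝ ({p, q, r} : Set (E 2))) :=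
    Set.Finite.isCompact_convexHull (𝕜 := ℝ) (by simp)
  have hcont : Continuous (fun x : E 2 => inner ℝ x u) := by fun_prop
  have hba : BddAbove ((fun x : E 2 => inner ℝ x u) '' (convexHull ℝ ({p, q, r} : Set (E 2)))) :=
    (hcomp.image hcont).bddAbove
  have hbb : BddBelow ((fun x : E 2 => inner ℝ x u) '' (convexHull ℝ ({p, q, r} : Set (E 2)))) :=
    (hcomp.image hcont).bddBelow
  have hdiff : ∀ x ∈ convexHull ℝ ({p, q, r} : Set (E 2)),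
      ∀ y ∈ convexHull ℝ ({p, q, r} : Set (E 2)), |inner ℝ (x - y) u| ≤ w := by
    intro x hx y hy
    have h1 : inner ℝ x u ≤ sSup ((fun x : E 2 => inner ℝ x u) '' (convexHull ℝ ({p, q, r} : Set (E 2)))) :=
      le_csSup hba ⟨x, hx, rfl⟩
    have h2 : inner ℝ y u ≤ sSup ((fun x : E 2 => inner ℝ x u) '' (convexHull ℝ ({p, q, r} : Set (E 2)))) :=
      le_csSup hba ⟨y, hy, rfl⟩
    have h3 : sInf ((fun x : E 2 => inner ℝ x u) '' (convexHull ℝ ({p, q, r} : Set (E 2)))) ≤ inner ℝ x u :=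
      csInf_le hbb ⟨x, hx, rfl⟩
    have h4 : sInf ((fun x : E 2 => inner ℝ x u) '' (convexHull ℝ ({p, q, r} : Set (E 2)))) ≤ inner ℝ y u :=
      csInf_le hbb ⟨y, hy, rfl⟩
    rw [hw, inner_sub_left, abs_le]
    unfold widthDir
    constructor <;> linarith
  have hp : p ∈ convexHull ℝ ({p, q, r} : Set (E 2)) := subset_convexHull ℝ _ (by simp)
  have hq : q ∈ convexHull ℝ ({p, q, r} : Set (E 2)) := subset_convexHull ℝ _ (by simp)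
  have hr : r ∈ convexHull ℝ ({p, q, r} : Set (E 2)) := subset_convexHull ℝ _ (by simp)
  have hA := hdiff p hp q hq
  have hB := hdiff q hq r hr
  have hC := hdiff p hp r hr
  have eA : inner ℝ (p - q) u = (p 0 - q 0) * u 0 + (p 1 - q 1) * u 1 := by
    simp [PiLp.inner_apply, Fin.sum_univ_two]; ring
  have eB : inner ℝ (q - r) u = (q 0 - r 0) * u 0 + (q 1 - r 1) * u 1 := by
    simp [PiLp.inner_apply, Fin.sum_univ_two]; ring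
  have eC : inner ℝ (p - r) u = (p 0 - r 0) * u 0 + (p 1 - r 1) * u 1 := by
    simp [PiLp.inner_apply, Fin.sum_univ_two]; ring
  have n1 : (p 0 - q 0) ^ 2 + (p 1 - q 1) ^ 2 = s ^ 2 := by
    rw [← hpq, EuclideanSpace.dist_eq, Real.sq_sqrt (by positivity), Fin.sum_univ_two,
      Real.dist_eq, Real.dist_eq, sq_abs, sq_abs]
  have n2 : (q 0 - r 0) ^ 2 + (q 1 - r 1) ^ 2 = s ^ 2 := by
    rw [← hqr, EuclideanSpace.dist_eq, Real.sq_sqrt (by positivity), Fin.sum_univ_two,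
      Real.dist_eq, Real.dist_eq, sq_abs, sq_abs]
  have n3 : (r 0 - p 0) ^ 2 + (r 1 - p 1) ^ 2 = s ^ 2 := by
    rw [← hrp, EuclideanSpace.dist_eq, Real.sq_sqrt (by positivity), Fin.sum_univ_two,
      Real.dist_eq, Real.dist_eq, sq_abs, sq_abs]
  have nu : (u 0) ^ 2 + (u 1) ^ 2 = 1 := by
    have h := EuclideanSpace.norm_sq_eq u
    rw [hu, Fin.sum_univ_two, Real.norm_eq_abs, Real.norm_eq_abs, sq_abs, sq_abs] at h
    linarith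
  rw [eA] at hA
  rw [eB] at hB
  rw [eC] at hC
  clear eA eB eC hdiff hba hbb hcont hcomp hp hq hr hpq hqr hrp hu hw
  generalize u 0 = u0 at *
  generalize u 1 = u1 at *
  obtain ⟨x0, hx0⟩ : ∃ x0, x0 = p 0 - q 0 := ⟨_, rfl⟩
  obtain ⟨x1, hx1⟩ : ∃ x1, x1 = p 1 - q 1 := ⟨_, rfl⟩
  obtain ⟨y0, hy0⟩ : ∃ y0, y0 = q 0 - r 0 := ⟨_, rfl⟩
  obtain ⟨y1, hy1⟩ : ∃ y1, y1 = q 1 - r 1 := ⟨_, rfl⟩
  have hC' : p 0 - r 0 = x0 + y0 := by rw [hx0, hy0]; ring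
  have hC'' : p 1 - r 1 = x1 + y1 := by rw [hx1, hy1]; ring
  have hn3 : r 0 - p 0 = -(x0 + y0) := by rw [hx0, hy0]; ring
  have hn3' : r 1 - p 1 = -(x1 + y1) := by rw [hx1, hy1]; ring
  rw [hC', hC''] at hC
  rw [hn3, hn3'] at n3
  rw [← hx0, ← hx1] at hA n1
  rw [← hy0, ← hy1] at hB n2
  clear hC' hC'' hn3 hn3' hx0 hx1 hy0 hy1
  have hd : x0 * y0 + x1 * y1 = -(s ^ 2) / 2 := by nlinarith
  have hRI : (x0 ^ 2 - x1 ^ 2 + x0 * y0 - x1 * y1 + y0 ^ 2 - y1 ^ 2) ^ 2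
      + (2 * x0 * x1 + x0 * y1 + x1 * y0 + 2 * y0 * y1) ^ 2 = 0 := by
    have e : (x0 ^ 2 - x1 ^ 2 + x0 * y0 - x1 * y1 + y0 ^ 2 - y1 ^ 2) ^ 2
      + (2 * x0 * x1 + x0 * y1 + x1 * y0 + 2 * y0 * y1) ^ 2
      = (x0 ^ 2 + x1 ^ 2) ^ 2 + (y0 ^ 2 + y1 ^ 2) ^ 2 + (x0 ^ 2 + x1 ^ 2) * (y0 ^ 2 + y1 ^ 2)
        + 2 * (x0 ^ 2 + x1 ^ 2) * (x0 * y0 + x1 * y1)
        + 2 * (2 * (x0 * y0 + x1 * y1) ^ 2 - (x0 ^ 2 + x1 ^ 2) * (y0 ^ 2 + y1 ^ 2))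
        + 2 * (y0 ^ 2 + y1 ^ 2) * (x0 * y0 + x1 * y1) := by ring
    rw [e, n1, n2, hd]
    ring
  have hR : x0 ^ 2 - x1 ^ 2 + x0 * y0 - x1 * y1 + y0 ^ 2 - y1 ^ 2 = 0 := by
    have : (x0 ^ 2 - x1 ^ 2 + x0 * y0 - x1 * y1 + y0 ^ 2 - y1 ^ 2) ^ 2 = 0 := by
      nlinarith [sq_nonneg (x0 ^ 2 - x1 ^ 2 + x0 * y0 - x1 * y1 + y0 ^ 2 - y1 ^ 2),
        sq_nonneg (2 * x0 * x1 + x0 * y1 + x1 * y0 + 2 * y0 * y1)]
    exact pow_eq_zero_iff (by norm_num) |>.1 this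
  have hI : 2 * x0 * x1 + x0 * y1 + x1 * y0 + 2 * y0 * y1 = 0 := by
    have : (2 * x0 * x1 + x0 * y1 + x1 * y0 + 2 * y0 * y1) ^ 2 = 0 := by
      nlinarith [sq_nonneg (x0 ^ 2 - x1 ^ 2 + x0 * y0 - x1 * y1 + y0 ^ 2 - y1 ^ 2),
        sq_nonneg (2 * x0 * x1 + x0 * y1 + x1 * y0 + 2 * y0 * y1)]
    exact pow_eq_zero_iff (by norm_num) |>.1 this
  obtain ⟨A, hA'⟩ : ∃ A, A = x0 * u0 + x1 * u1 := ⟨_, rfl⟩
  obtain ⟨B, hB'⟩ : ∃ B, B = y0 * u0 + y1 * u1 := ⟨_, rfl⟩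
  have hAB : (x0 + y0) * u0 + (x1 + y1) * u1 = A + B := by rw [hA', hB']; ring
  have hquad : A ^ 2 + A * B + B ^ 2 = 3 / 4 * s ^ 2 := by
    have e0 : x0 ^ 2 + x0 * y0 + y0 ^ 2 = 3 / 4 * s ^ 2 := by linarith
    have e1 : x1 ^ 2 + x1 * y1 + y1 ^ 2 = 3 / 4 * s ^ 2 := by linarith
    have e : A ^ 2 + A * B + B ^ 2 = u0 ^ 2 * (x0 ^ 2 + x0 * y0 + y0 ^ 2)
        + u0 * u1 * (2 * x0 * x1 + x0 * y1 + x1 * y0 + 2 * y0 * y1)
        + u1 ^ 2 * (x1 ^ 2 + x1 * y1 + y1 ^ 2) := by rw [hA', hB']; ring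
    rw [e, e0, e1, hI]
    linear_combination (3 / 4 * s ^ 2) * nu
  rw [← hA'] at hA
  rw [← hB'] at hB
  rw [hAB] at hC
  have hw0 : 0 ≤ w := (abs_nonneg _).trans hA
  have hA2 : A ^ 2 ≤ w ^ 2 := by
    rw [← sq_abs A]; exact pow_le_pow_left₀ (abs_nonneg _) hA 2
  have hB2 : B ^ 2 ≤ w ^ 2 := by
    rw [← sq_abs B]; exact pow_le_pow_left₀ (abs_nonneg _) hB 2
  have hC2 : (A + B) ^ 2 ≤ w ^ 2 := by
    rw [← sq_abs (A + B)]; exact pow_le_pow_left₀ (abs_nonneg _) hC 2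
  have hmain : 3 / 4 * s ^ 2 ≤ w ^ 2 := by
    exact threeMax hquad hA2 hB2 hC2
  have h3 : (√3 / 2 * s) ^ 2 = 3 / 4 * s ^ 2 := by
    rw [mul_pow, div_pow, Real.sq_sqrt (by norm_num)]; norm_num
  rw [← h3] at hmain
  exact le_of_sq_le_sq hmain hw0

end Pool.Agent.Helper865.Wid
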