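import Pool.Agent.Helper865.Wid.Defs

set_option autoImplicit false

open MeasureTheory Set Filter Topology Metric

namespace Pool.Agent.Helper865.Wid


/-- lattice points -/
noncomputable def triTiling_pt (s u v : ℝ) : E 2 := !₂[s * (u + v / 2), s * (√3 / 2 * v)]

/-- first lattice coordinate -/
noncomputable def triTiling_A (s : ℝ) (x : E 2) : ℝ := (x 0 - x 1 / √3) / s

/-- second lattice coordinate -/
noncomputable def triTiling_B (s : ℝ) (x : E 2) : ℝ := 2 * x 1 / (√3 * s)

theorem triTiling_s3 : (0 : ℝ) < √3 := Real.sqrt_pos.2 (by norm_num)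

theorem triTiling_s3s : √3 * √3 = (3 : ℝ) := Real.mul_self_sqrt (by norm_num)

theorem triTiling_A_pt (s : ℝ) (hs : 0 < s) (u v : ℝ) : triTiling_A s (triTiling_pt s u v) = u := by
  have h3 := triTiling_s3
  unfold triTiling_A triTiling_pt
  simp
  field_simp
  ring

theorem triTiling_B_pt (s : ℝ) (hs : 0 < s) (u v : ℝ) : triTiling_B s (triTiling_pt s u v) = v := by
  have h3 := triTiling_s3
  unfold triTiling_B triTiling_pt
  simp
  field_simp

theorem triTiling_pt_AB (s : ℝ) (hs : 0 < s) (x : E 2) :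
    triTiling_pt s (triTiling_A s x) (triTiling_B s x) = x := by
  have h3 := triTiling_s3
  have h33 := triTiling_s3s
  unfold triTiling_A triTiling_B triTiling_pt
  ext i
  fin_cases i
  · simp
    field_simp
    nlinarith
  · simp
    field_simp

theorem triTiling_A_lin (s a b : ℝ) (x y : E 2) :
    triTiling_A s (a • x + b • y) = a * triTiling_A s x + b * triTiling_A s y := by
  unfold triTiling_A
  simp
  ring

theorem triTiling_B_lin (s a b : ℝ) (x y : E 2) :
    triTiling_B s (a • x + b • y) = a * triTiling_B s x + b * triTiling_B s y := by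
  unfold triTiling_B
  simp
  ring

theorem triTiling_dist (s : ℝ) (hs : 0 < s) (u v u' v' : ℝ)
    (h : (u - u')^2 + (u - u') * (v - v') + (v - v')^2 = 1) :
    dist (triTiling_pt s u v) (triTiling_pt s u' v') = s := by
  have h33 := triTiling_s3s
  rw [EuclideanSpace.dist_eq, Fin.sum_univ_two, Real.sqrt_eq_iff_mul_self_eq_of_pos hs]
  unfold triTiling_pt
  simp only [Real.dist_eq, sq_abs]
  simp
  have e1 : (s * (u + v / 2) - s * (u' + v' / 2)) ^ 2 +
      (s * (√3 / 2 * v) - s * (√3 / 2 * v')) ^ 2 =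
      s^2 * ((u - u' + (v - v')/2)^2 + (√3 * √3) / 4 * (v - v')^2) := by ring
  rw [e1, h33]
  have e2 : (u - u' + (v - v')/2)^2 + 3 / 4 * (v - v')^2 =
    (u - u')^2 + (u - u') * (v - v') + (v - v')^2 := by ring
  rw [e2, h]
  ring

/-- closed triangle -/
def triTiling_R (s u v e : ℝ) : Set (E 2) :=
  {x | 0 ≤ e * (triTiling_A s x - u) ∧ 0 ≤ e * (triTiling_B s x - v) ∧
    e * (triTiling_A s x - u) + e * (triTiling_B s x - v) ≤ 1}

/-- open triangle -/
def triTiling_O (s u v e : ℝ) : Set (E 2) :=
  {x | 0 < e * (triTiling_A s x - u) ∧ 0 < e * (triTiling_B s x - v) ∧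
    e * (triTiling_A s x - u) + e * (triTiling_B s x - v) < 1}

/-- the triangle -/
noncomputable def triTiling_C (s u v e : ℝ) : Set (E 2) :=
  convexHull ℝ ({triTiling_pt s u v, triTiling_pt s (u + e) v, triTiling_pt s u (v + e)} : Set (E 2))

theorem triTiling_C_le (s : ℝ) (hs : 0 < s) (u v e : ℝ) (he : e * e = 1) :
    triTiling_C s u v e ⊆ triTiling_R s u v e := by
  refine convexHull_min ?_ ?_
  · rintro x (rfl | rfl | rfl)
    · refine ⟨?_, ?_, ?_⟩ <;> simp only [triTiling_A_pt s hs, triTiling_B_pt s hs] <;> nlinarith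
    · refine ⟨?_, ?_, ?_⟩ <;> simp only [triTiling_A_pt s hs, triTiling_B_pt s hs] <;> nlinarith
    · refine ⟨?_, ?_, ?_⟩ <;> simp only [triTiling_A_pt s hs, triTiling_B_pt s hs] <;> nlinarith
  · intro x hx y hy a b ha hb hab
    obtain ⟨x1, x2, x3⟩ := hx
    obtain ⟨y1, y2, y3⟩ := hy
    have e1 : e * (triTiling_A s (a • x + b • y) - u) =
        a * (e * (triTiling_A s x - u)) + b * (e * (triTiling_A s y - u)) := by
      rw [triTiling_A_lin]
      have : u = (a + b) * u := by rw [hab, one_mul]
      linear_combination (-e) * this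
    have e2 : e * (triTiling_B s (a • x + b • y) - v) =
        a * (e * (triTiling_B s x - v)) + b * (e * (triTiling_B s y - v)) := by
      rw [triTiling_B_lin]
      have : v = (a + b) * v := by rw [hab, one_mul]
      linear_combination (-e) * this
    refine ⟨?_, ?_, ?_⟩
    · rw [e1]
      positivity
    · rw [e2]
      positivity
    · rw [e1, e2]
      nlinarith

theorem triTiling_le_C (s : ℝ) (hs : 0 < s) (u v e : ℝ) (he : e * e = 1) :
    triTiling_R s u v e ⊆ triTiling_C s u v e := by
  rintro x ⟨x1, x2, x3⟩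
  set a := e * (triTiling_A s x - u) with ha
  set b := e * (triTiling_B s x - v) with hb
  have hA : triTiling_A s x = u + e * a := by
    rw [ha]
    linear_combination (-(triTiling_A s x - u)) * he
  have hB : triTiling_B s x = v + e * b := by
    rw [hb]
    linear_combination (-(triTiling_B s x - v)) * he
  have hx : x = (1 - a - b) • triTiling_pt s u v + a • triTiling_pt s (u + e) v +
      b • triTiling_pt s u (v + e) := by
    have h1 := triTiling_pt_AB s hs x
    rw [hA, hB] at h1
    rw [← h1]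
    unfold triTiling_pt
    ext i
    fin_cases i
    · simp
      ring
    · simp
      ring
  have hc : Convex ℝ (triTiling_C s u v e) := convex_convexHull ℝ _
  have m1 : triTiling_pt s u v ∈ triTiling_C s u v e := subset_convexHull ℝ _ (by simp)
  have m2 : triTiling_pt s (u + e) v ∈ triTiling_C s u v e := subset_convexHull ℝ _ (by simp)
  have m3 : triTiling_pt s u (v + e) ∈ triTiling_C s u v e := subset_convexHull ℝ _ (by simp)
  have h := hc.sum_mem (t := (Finset.univ : Finset (Fin 3))) (w := ![1 - a - b, a, b])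
    (z := ![triTiling_pt s u v, triTiling_pt s (u + e) v, triTiling_pt s u (v + e)])
    (by
      intro i _
      fin_cases i
      · show 0 ≤ 1 - a - b
        linarith
      · exact x1
      · exact x2)
    (by
      rw [Fin.sum_univ_three]
      show (1 - a - b) + a + b = 1
      ring)
    (by
      intro i _
      fin_cases i
      · exact m1
      · exact m2
      · exact m3)
  rw [Fin.sum_univ_three] at h
  rw [hx]
  exact h

theorem triTiling_shift (S : Set (E 2)) (x w : E 2) (hx : x ∈ interior S) :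
    ∃ t : ℝ, 0 < t ∧ (1 : ℝ) • x + t • w ∈ S := by
  have hc : Continuous (fun t : ℝ => (1 : ℝ) • x + t • w) := by fun_prop
  have h0 : (fun t : ℝ => (1 : ℝ) • x + t • w) 0 = x := by simp
  have h1 : ∀ᶠ t : ℝ in 𝓝 0, (1 : ℝ) • x + t • w ∈ S := by
    have h2 : S ∈ 𝓝 ((fun t : ℝ => (1 : ℝ) • x + t • w) 0) := by
      rw [h0]
      exact mem_interior_iff_mem_nhds.1 hx
    exact hc.continuousAt h2
  obtain ⟨ε, hε, hb⟩ := Metric.eventually_nhds_iff.1 h1
  refine ⟨ε / 2, by positivity, hb ?_⟩
  rw [Real.dist_eq, sub_zero, abs_of_pos (by positivity)]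
  linarith

theorem triTiling_int (s : ℝ) (hs : 0 < s) (u v e : ℝ) (he : e * e = 1) :
    interior (triTiling_C s u v e) ⊆ triTiling_O s u v e := by
  intro x hx
  have hx' : x ∈ interior (triTiling_R s u v e) := interior_mono (triTiling_C_le s hs u v e he) hx
  refine ⟨?_, ?_, ?_⟩
  · obtain ⟨t, ht, h1, -, -⟩ := triTiling_shift _ x (triTiling_pt s (-e) 0) hx'
    rw [triTiling_A_lin, triTiling_A_pt s hs] at h1
    nlinarith
  · obtain ⟨t, ht, -, h1, -⟩ := triTiling_shift _ x (triTiling_pt s 0 (-e)) hx'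
    rw [triTiling_B_lin, triTiling_B_pt s hs] at h1
    nlinarith
  · obtain ⟨t, ht, -, -, h1⟩ := triTiling_shift _ x (triTiling_pt s e 0) hx'
    rw [triTiling_A_lin, triTiling_B_lin, triTiling_A_pt s hs, triTiling_B_pt s hs] at h1
    nlinarith

theorem triTiling_contA (s : ℝ) : Continuous (triTiling_A s) := by
  unfold triTiling_A
  fun_prop

theorem triTiling_contB (s : ℝ) : Continuous (triTiling_B s) := by
  unfold triTiling_B
  fun_prop

theorem triTiling_Q (s : ℝ) (hs : 0 < s) (a0 b0 : ℝ) :
    volume {x : E 2 | a0 ≤ triTiling_A s x ∧ triTiling_A s x ≤ a0 + 1 ∧ b0 ≤ triTiling_B s x ∧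
      triTiling_B s x ≤ b0 + 1} = ENNReal.ofReal (√3 / 2 * s ^ 2) := by
  have h3 := triTiling_s3
  set M : Matrix (Fin 2) (Fin 2) ℝ := !![1 / s, -(1 / (√3 * s)); 0, 2 / (√3 * s)] with hM
  have hdet : M.det = 2 / (√3 * s ^ 2) := by
    rw [hM, Matrix.det_fin_two_of]
    field_simp
    ring
  have hl : LinearMap.det (Matrix.toLin' M) = M.det := LinearMap.det_toLin' M
  have hpre := Measure.addHaar_preimage_linearMap (volume : Measure (Fin 2 → ℝ))
    (f := Matrix.toLin' M) (by rw [hl, hdet]; positivity) (Icc ![a0, b0] ![a0 + 1, b0 + 1])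
  have hvol : volume (Icc ![a0, b0] ![a0 + 1, b0 + 1] : Set (Fin 2 → ℝ)) = 1 := by
    rw [Real.volume_Icc_pi, Fin.prod_univ_two]
    simp
  rw [hvol, mul_one, hl, hdet] at hpre
  have hcont : Continuous (Matrix.toLin' M) := LinearMap.continuous_of_finiteDimensional _
  have hmeas : MeasurableSet ((Matrix.toLin' M) ⁻¹' (Icc ![a0, b0] ![a0 + 1, b0 + 1])) :=
    (isClosed_Icc.preimage hcont).measurableSet
  have hQ : {x : E 2 | a0 ≤ triTiling_A s x ∧ triTiling_A s x ≤ a0 + 1 ∧ b0 ≤ triTiling_B s x ∧
      triTiling_B s x ≤ b0 + 1} =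
      (@WithLp.ofLp 2 (Fin 2 → ℝ)) ⁻¹'
        ((Matrix.toLin' M) ⁻¹' (Icc ![a0, b0] ![a0 + 1, b0 + 1])) := by
    ext x
    have e0 : (Matrix.toLin' M (WithLp.ofLp x)) 0 = triTiling_A s x := by
      rw [hM, Matrix.toLin'_apply]
      unfold triTiling_A
      simp [Matrix.mulVec, dotProduct, Fin.sum_univ_two]
      field_simp
      ring
    have e1 : (Matrix.toLin' M (WithLp.ofLp x)) 1 = triTiling_B s x := by
      rw [hM, Matrix.toLin'_apply]
      unfold triTiling_B
      simp [Matrix.mulVec, dotProduct, Fin.sum_univ_two]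
      field_simp
    simp only [Set.mem_setOf_eq, Set.mem_preimage, Set.mem_Icc, Pi.le_def, Fin.forall_fin_two, e0,
      e1]
    simp
    tauto
  rw [hQ, (PiLp.volume_preserving_ofLp (Fin 2)).measure_preimage hmeas.nullMeasurableSet, hpre]
  congr 1
  rw [abs_of_pos (by positivity)]
  have h33 := triTiling_s3s
  field_simp

theorem triTiling_open (s u v e : ℝ) : IsOpen (triTiling_O s u v e) := by
  have hA := triTiling_contA s
  have hB := triTiling_contB s
  have cA : Continuous (fun x : E 2 => e * (triTiling_A s x - u)) :=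
    continuous_const.mul (hA.sub continuous_const)
  have cB : Continuous (fun x : E 2 => e * (triTiling_B s x - v)) :=
    continuous_const.mul (hB.sub continuous_const)
  have o1 : IsOpen {x : E 2 | 0 < e * (triTiling_A s x - u)} := isOpen_lt continuous_const cA
  have o2 : IsOpen {x : E 2 | 0 < e * (triTiling_B s x - v)} := isOpen_lt continuous_const cB
  have o3 : IsOpen {x : E 2 | e * (triTiling_A s x - u) + e * (triTiling_B s x - v) < 1} :=
    isOpen_lt (cA.add cB) continuous_const
  exact o1.inter (o2.inter o3)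

theorem triTiling_vol (s : ℝ) (hs : 0 < s) (u v e : ℝ) (he : e = 1 ∨ e = -1) :
    volume (triTiling_C s u v e) ≤ ENNReal.ofReal (√3 / 4 * s ^ 2) := by
  have h3 := triTiling_s3
  have hee : e * e = 1 := by
    rcases he with rfl | rfl <;> norm_num
  have h1 : volume (triTiling_C s u v e) ≤ volume (triTiling_O s u v e) := by
    have hsub : triTiling_C s u v e ⊆
        interior (triTiling_C s u v e) ∪ frontier (triTiling_C s u v e) := by
      rw [← closure_eq_interior_union_frontier]
      exact subset_closure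
    have hfr : volume (frontier (triTiling_C s u v e)) = 0 :=
      Convex.addHaar_frontier volume (convex_convexHull ℝ _)
    calc volume (triTiling_C s u v e)
        ≤ volume (interior (triTiling_C s u v e) ∪ frontier (triTiling_C s u v e)) :=
          measure_mono hsub
      _ ≤ volume (interior (triTiling_C s u v e)) + volume (frontier (triTiling_C s u v e)) :=
          measure_union_le _ _
      _ = volume (interior (triTiling_C s u v e)) := by rw [hfr, add_zero]
      _ ≤ _ := measure_mono (triTiling_int s hs u v e hee)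
  have h2 : volume (triTiling_O s u v e) = volume (triTiling_O s (u + e) (v + e) (-e)) := by
    have hmp := Measure.measurePreserving_sub_left (volume : Measure (E 2))
      (triTiling_pt s (2 * u + e) (2 * v + e))
    rw [← hmp.measure_preimage (triTiling_open s (u + e) (v + e) (-e)).measurableSet.nullMeasurableSet]
    congr 1
    ext x
    have hx : triTiling_pt s (2 * u + e) (2 * v + e) - x =
        (1 : ℝ) • triTiling_pt s (2 * u + e) (2 * v + e) + (-1 : ℝ) • x := by
      rw [one_smul, neg_one_smul, sub_eq_add_neg]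
    have eA : triTiling_A s (triTiling_pt s (2 * u + e) (2 * v + e) - x) =
        2 * u + e - triTiling_A s x := by
      rw [hx, triTiling_A_lin, triTiling_A_pt s hs]
      ring
    have eB : triTiling_B s (triTiling_pt s (2 * u + e) (2 * v + e) - x) =
        2 * v + e - triTiling_B s x := by
      rw [hx, triTiling_B_lin, triTiling_B_pt s hs]
      ring
    have f1 : -e * (2 * u + e - triTiling_A s x - (u + e)) = e * (triTiling_A s x - u) := by ring
    have f2 : -e * (2 * v + e - triTiling_B s x - (v + e)) = e * (triTiling_B s x - v) := by ring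
    show x ∈ triTiling_O s u v e ↔
      triTiling_pt s (2 * u + e) (2 * v + e) - x ∈ triTiling_O s (u + e) (v + e) (-e)
    unfold triTiling_O
    simp only [Set.mem_setOf_eq]
    rw [eA, eB, f1, f2]
  have hdisj : Disjoint (triTiling_O s u v e) (triTiling_O s (u + e) (v + e) (-e)) := by
    rw [Set.disjoint_left]
    rintro x ⟨_, _, x3⟩ ⟨_, _, y3⟩
    nlinarith
  obtain ⟨a0, b0, hab⟩ : ∃ a0 b0 : ℝ, triTiling_O s u v e ∪ triTiling_O s (u + e) (v + e) (-e) ⊆
      {x : E 2 | a0 ≤ triTiling_A s x ∧ triTiling_A s x ≤ a0 + 1 ∧ b0 ≤ triTiling_B s x ∧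
      triTiling_B s x ≤ b0 + 1} := by
    rcases he with rfl | rfl
    · refine ⟨u, v, ?_⟩
      rintro x (⟨x1, x2, x3⟩ | ⟨x1, x2, x3⟩)
      · refine ⟨?_, ?_, ?_, ?_⟩ <;> linarith
      · refine ⟨?_, ?_, ?_, ?_⟩ <;> linarith
    · refine ⟨u - 1, v - 1, ?_⟩
      rintro x (⟨x1, x2, x3⟩ | ⟨x1, x2, x3⟩)
      · refine ⟨?_, ?_, ?_, ?_⟩ <;> linarith
      · refine ⟨?_, ?_, ?_, ?_⟩ <;> linarith
  have h4 : volume (triTiling_O s u v e) + volume (triTiling_O s u v e) ≤
      ENNReal.ofReal (√3 / 2 * s ^ 2) := by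
    calc volume (triTiling_O s u v e) + volume (triTiling_O s u v e)
        = volume (triTiling_O s u v e) + volume (triTiling_O s (u + e) (v + e) (-e)) := by
          rw [← h2]
      _ = volume (triTiling_O s u v e ∪ triTiling_O s (u + e) (v + e) (-e)) :=
          (measure_union hdisj (triTiling_open s (u + e) (v + e) (-e)).measurableSet).symm
      _ ≤ _ := measure_mono hab
      _ = ENNReal.ofReal (√3 / 2 * s ^ 2) := triTiling_Q s hs a0 b0
  have hfin : volume (triTiling_O s u v e) ≠ ⊤ := by
    intro htop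
    rw [htop, top_add] at h4
    exact absurd h4 (by simp)
  refine h1.trans ?_
  rw [← ENNReal.ofReal_toReal hfin] at h4 ⊢
  rw [← ENNReal.ofReal_add ENNReal.toReal_nonneg ENNReal.toReal_nonneg,
    ENNReal.ofReal_le_ofReal_iff (by positivity)] at h4
  exact ENNReal.ofReal_le_ofReal (by linarith)

theorem triTiling_diam (s : ℝ) (hs : 0 < s) (u v e : ℝ) (he : e * e = 1) (x y : E 2)
    (hx : x ∈ triTiling_C s u v e) (hy : y ∈ triTiling_C s u v e) : dist x y ≤ s := by
  have d1 : dist (triTiling_pt s u v) (triTiling_pt s (u + e) v) = s :=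
    triTiling_dist s hs _ _ _ _ (by nlinarith)
  have d2 : dist (triTiling_pt s u v) (triTiling_pt s u (v + e)) = s :=
    triTiling_dist s hs _ _ _ _ (by nlinarith)
  have d3 : dist (triTiling_pt s (u + e) v) (triTiling_pt s u (v + e)) = s :=
    triTiling_dist s hs _ _ _ _ (by nlinarith)
  have k1 : triTiling_C s u v e ⊆ closedBall (triTiling_pt s u v) s := by
    refine convexHull_min ?_ (convex_closedBall _ _)
    rintro z (rfl | rfl | rfl)
    · exact mem_closedBall_self hs.le
    · rw [mem_closedBall, dist_comm, d1]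
    · rw [mem_closedBall, dist_comm, d2]
  have k2 : triTiling_C s u v e ⊆ closedBall (triTiling_pt s (u + e) v) s := by
    refine convexHull_min ?_ (convex_closedBall _ _)
    rintro z (rfl | rfl | rfl)
    · rw [mem_closedBall, d1]
    · exact mem_closedBall_self hs.le
    · rw [mem_closedBall, dist_comm, d3]
  have k3 : triTiling_C s u v e ⊆ closedBall (triTiling_pt s u (v + e)) s := by
    refine convexHull_min ?_ (convex_closedBall _ _)
    rintro z (rfl | rfl | rfl)
    · rw [mem_closedBall, d2]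
    · rw [mem_closedBall, d3]
    · exact mem_closedBall_self hs.le
  have k4 : triTiling_C s u v e ⊆ closedBall y s := by
    refine convexHull_min ?_ (convex_closedBall _ _)
    rintro z (rfl | rfl | rfl)
    · rw [mem_closedBall, dist_comm]
      exact k1 hy
    · rw [mem_closedBall, dist_comm]
      exact k2 hy
    · rw [mem_closedBall, dist_comm]
      exact k3 hy
  exact k4 hx

/-- base point of a cell -/
noncomputable def triTiling_U (t : ℤ × ℤ × Bool) : ℝ := if t.2.2 then (t.1 : ℝ) else (t.1 : ℝ) + 1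

/-- base point of a cell -/
noncomputable def triTiling_V (t : ℤ × ℤ × Bool) : ℝ :=
  if t.2.2 then (t.2.1 : ℝ) else (t.2.1 : ℝ) + 1

/-- orientation of a cell -/
noncomputable def triTiling_e (t : ℤ × ℤ × Bool) : ℝ := if t.2.2 then 1 else -1

open Classical in
/-- the cell of a point -/
noncomputable def triTiling_T (s : ℝ) (x : E 2) : ℤ × ℤ × Bool :=
  (⌊triTiling_A s x⌋, ⌊triTiling_B s x⌋,
    decide (triTiling_A s x + triTiling_B s x < ⌊triTiling_A s x⌋ + ⌊triTiling_B s x⌋ + 1))

theorem triTiling_e_or (t : ℤ × ℤ × Bool) : triTiling_e t = 1 ∨ triTiling_e t = -1 := by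
  unfold triTiling_e
  split_ifs
  · exact Or.inl rfl
  · exact Or.inr rfl

theorem triTiling_e_sq (t : ℤ × ℤ × Bool) : triTiling_e t * triTiling_e t = 1 := by
  rcases triTiling_e_or t with h | h <;> rw [h] <;> norm_num

theorem triTiling_T_of_mem (s : ℝ) (x : E 2) (t : ℤ × ℤ × Bool)
    (hx : x ∈ triTiling_O s (triTiling_U t) (triTiling_V t) (triTiling_e t)) :
    triTiling_T s x = t := by
  obtain ⟨k, l, b⟩ := t
  obtain ⟨x1, x2, x3⟩ := hx
  cases b
  · simp only [triTiling_U, triTiling_V, triTiling_e, Bool.false_eq_true, if_false] at x1 x2 x3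
    have f1 : ⌊triTiling_A s x⌋ = k := by
      rw [Int.floor_eq_iff]
      constructor <;> linarith
    have f2 : ⌊triTiling_B s x⌋ = l := by
      rw [Int.floor_eq_iff]
      constructor <;> linarith
    unfold triTiling_T
    rw [f1, f2]
    have f3 : ¬ (triTiling_A s x + triTiling_B s x < (k:ℝ) + l + 1) := by
      rw [not_lt]
      linarith
    rw [decide_eq_false f3]
  · simp only [triTiling_U, triTiling_V, triTiling_e, if_true] at x1 x2 x3
    have f1 : ⌊triTiling_A s x⌋ = k := by
      rw [Int.floor_eq_iff]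
      constructor <;> linarith
    have f2 : ⌊triTiling_B s x⌋ = l := by
      rw [Int.floor_eq_iff]
      constructor <;> linarith
    unfold triTiling_T
    rw [f1, f2]
    have f3 : (triTiling_A s x + triTiling_B s x < (k:ℝ) + l + 1) := by
      linarith
    rw [decide_eq_true f3]

theorem triTiling_mem (s : ℝ) (x : E 2) : x ∈ triTiling_R s (triTiling_U (triTiling_T s x))
    (triTiling_V (triTiling_T s x)) (triTiling_e (triTiling_T s x)) := by
  have a1 := Int.floor_le (triTiling_A s x)
  have a2 := Int.lt_floor_add_one (triTiling_A s x)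
  have b1 := Int.floor_le (triTiling_B s x)
  have b2 := Int.lt_floor_add_one (triTiling_B s x)
  by_cases h : triTiling_A s x + triTiling_B s x < ⌊triTiling_A s x⌋ + ⌊triTiling_B s x⌋ + 1
  · have hT : triTiling_T s x = (⌊triTiling_A s x⌋, ⌊triTiling_B s x⌋, true) := by
      unfold triTiling_T
      rw [decide_eq_true h]
    rw [hT]
    simp only [triTiling_U, triTiling_V, triTiling_e, if_true]
    refine ⟨?_, ?_, ?_⟩ <;> linarith
  · have hT : triTiling_T s x = (⌊triTiling_A s x⌋, ⌊triTiling_B s x⌋, false) := by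
      unfold triTiling_T
      rw [decide_eq_false h]
    rw [hT]
    rw [not_lt] at h
    simp only [triTiling_U, triTiling_V, triTiling_e, Bool.false_eq_true, if_false]
    refine ⟨?_, ?_, ?_⟩ <;> linarith

theorem triTiling_bound (s : ℝ) (hs : 0 < s) (x : E 2) (hx : ‖x‖ ≤ 1) :
    |triTiling_A s x| ≤ 2 / s ∧ |triTiling_B s x| ≤ 2 / s := by
  have h3 := triTiling_s3
  have h31 : (1 : ℝ) ≤ √3 := by
    rw [Real.one_le_sqrt]
    norm_num
  have x0 : |x 0| ≤ 1 := by
    have := PiLp.norm_apply_le x 0
    rw [Real.norm_eq_abs] at this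
    exact this.trans hx
  have x1 : |x 1| ≤ 1 := by
    have := PiLp.norm_apply_le x 1
    rw [Real.norm_eq_abs] at this
    exact this.trans hx
  have y1 : |x 1 / √3| ≤ 1 := by
    rw [abs_div, abs_of_pos h3, div_le_one h3]
    exact x1.trans h31
  constructor
  · unfold triTiling_A
    rw [abs_div, abs_of_pos hs]
    refine div_le_div_of_nonneg_right ?_ hs.le
    refine (abs_sub _ _).trans ?_
    linarith
  · unfold triTiling_B
    rw [abs_div, abs_of_pos (mul_pos h3 hs), abs_mul, abs_of_pos (by norm_num : (0:ℝ) < 2),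
      div_le_div_iff₀ (mul_pos h3 hs) hs]
    have k1 : |x 1| * s ≤ 1 * (√3 * s) := by
      have : |x 1| * s ≤ √3 * s := mul_le_mul_of_nonneg_right (x1.trans h31) hs.le
      linarith
    nlinarith

theorem triTiling (s : ℝ) (hs : 0 < s) (hs1 : s ≤ 1) :
    ∃ (m : ℕ) (p q r : Fin m → E 2),
      (∀ i, dist (p i) (q i) = s ∧ dist (q i) (r i) = s ∧ dist (r i) (p i) = s ∧
        convexHull ℝ ({p i, q i, r i} : Set (E 2)) ⊆ closedBall 0 1) ∧
      (∀ i j, i ≠ j → Disjoint (interior (convexHull ℝ ({p i, q i, r i} : Set (E 2))))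
        (interior (convexHull ℝ ({p j, q j, r j} : Set (E 2))))) ∧
      Real.pi * (1 - s) ^ 2 ≤ m * (√3 / 4 * s ^ 2) := by
  classical
  set M : ℤ := ⌈2 / s⌉ with hM
  set J : Finset (ℤ × ℤ × Bool) :=
    ((Finset.Icc (-M) M) ×ˢ ((Finset.Icc (-M) M) ×ˢ (Finset.univ : Finset Bool))).filter
      (fun t => (triTiling_C s (triTiling_U t) (triTiling_V t) (triTiling_e t) ∩
        closedBall 0 (1 - s)).Nonempty) with hJ
  have hcov : ∀ x ∈ closedBall (0 : E 2) (1 - s), triTiling_T s x ∈ J ∧
      x ∈ triTiling_C s (triTiling_U (triTiling_T s x)) (triTiling_V (triTiling_T s x))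
        (triTiling_e (triTiling_T s x)) := by
    intro x hx
    have hxC := triTiling_le_C s hs _ _ _ (triTiling_e_sq (triTiling_T s x)) (triTiling_mem s x)
    refine ⟨?_, hxC⟩
    have hxn : ‖x‖ ≤ 1 := by
      rw [mem_closedBall, dist_zero_right] at hx
      linarith
    obtain ⟨bA, bB⟩ := triTiling_bound s hs x hxn
    rw [abs_le] at bA bB
    have hM1 : 2 / s ≤ (M : ℝ) := Int.le_ceil _
    rw [hJ, Finset.mem_filter, Finset.mem_product, Finset.mem_product, Finset.mem_Icc,
      Finset.mem_Icc]
    refine ⟨⟨⟨?_, ?_⟩, ⟨?_, ?_⟩, Finset.mem_univ _⟩, ⟨x, hxC, hx⟩⟩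
    · show -M ≤ ⌊triTiling_A s x⌋
      rw [Int.le_floor]
      push_cast
      linarith
    · show ⌊triTiling_A s x⌋ ≤ M
      have h1 : (⌊triTiling_A s x⌋ : ℝ) ≤ (M : ℝ) := (Int.floor_le _).trans (bA.2.trans hM1)
      exact_mod_cast h1
    · show -M ≤ ⌊triTiling_B s x⌋
      rw [Int.le_floor]
      push_cast
      linarith
    · show ⌊triTiling_B s x⌋ ≤ M
      have h1 : (⌊triTiling_B s x⌋ : ℝ) ≤ (M : ℝ) := (Int.floor_le _).trans (bB.2.trans hM1)
      exact_mod_cast h1
  let f : Fin J.card ≃ J := J.equivFin.symm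
  let U : Fin J.card → ℝ := fun i => triTiling_U (f i).1
  let V : Fin J.card → ℝ := fun i => triTiling_V (f i).1
  let e : Fin J.card → ℝ := fun i => triTiling_e (f i).1
  have hee : ∀ i, e i * e i = 1 := fun i => triTiling_e_sq _
  refine ⟨J.card, fun i => triTiling_pt s (U i) (V i), fun i => triTiling_pt s (U i + e i) (V i),
    fun i => triTiling_pt s (U i) (V i + e i), ?_, ?_, ?_⟩
  · intro i
    have h1 := hee i
    refine ⟨triTiling_dist s hs _ _ _ _ (by nlinarith), triTiling_dist s hs _ _ _ _ (by nlinarith),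
      triTiling_dist s hs _ _ _ _ (by nlinarith), ?_⟩
    have hfJ := (f i).2
    obtain ⟨-, y, hy1, hy2⟩ := Finset.mem_filter.1 hfJ
    intro x hx
    have h2 := triTiling_diam s hs (U i) (V i) (e i) h1 x y hx hy1
    rw [mem_closedBall] at hy2 ⊢
    calc dist x 0 ≤ dist x y + dist y 0 := dist_triangle _ _ _
      _ ≤ s + (1 - s) := add_le_add h2 hy2
      _ = 1 := by ring
  · intro i j hij
    rw [Set.disjoint_left]
    intro x hx hx'
    have h1 := triTiling_T_of_mem s x (f i).1 (triTiling_int s hs _ _ _ (hee i) hx)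
    have h2 := triTiling_T_of_mem s x (f j).1 (triTiling_int s hs _ _ _ (hee j) hx')
    exact hij (f.injective (Subtype.ext (h1.symm.trans h2)))
  · have h3 := triTiling_s3
    have hsub : closedBall (0 : E 2) (1 - s) ⊆
        ⋃ i : Fin J.card, triTiling_C s (U i) (V i) (e i) := by
      intro x hx
      obtain ⟨h1, h2⟩ := hcov x hx
      rw [Set.mem_iUnion]
      refine ⟨f.symm ⟨triTiling_T s x, h1⟩, ?_⟩
      show x ∈ triTiling_C s (triTiling_U (f (f.symm ⟨triTiling_T s x, h1⟩)).1)
        (triTiling_V (f (f.symm ⟨triTiling_T s x, h1⟩)).1)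
        (triTiling_e (f (f.symm ⟨triTiling_T s x, h1⟩)).1)
      rw [Equiv.apply_symm_apply]
      exact h2
    have hle : volume (closedBall (0 : E 2) (1 - s)) ≤
        ENNReal.ofReal (J.card * (√3 / 4 * s ^ 2)) := by
      calc volume (closedBall (0 : E 2) (1 - s))
          ≤ volume (⋃ i : Fin J.card, triTiling_C s (U i) (V i) (e i)) := measure_mono hsub
        _ ≤ ∑ i : Fin J.card, volume (triTiling_C s (U i) (V i) (e i)) :=
            measure_iUnion_fintype_le _ _
        _ ≤ ∑ _i : Fin J.card, ENNReal.ofReal (√3 / 4 * s ^ 2) :=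
            Finset.sum_le_sum fun i _ => triTiling_vol s hs _ _ _ (triTiling_e_or _)
        _ = ENNReal.ofReal (J.card * (√3 / 4 * s ^ 2)) := by
            rw [Finset.sum_const, Finset.card_univ, Fintype.card_fin, nsmul_eq_mul,
              ENNReal.ofReal_mul (Nat.cast_nonneg _), ENNReal.ofReal_natCast]
    rw [EuclideanSpace.volume_closedBall_fin_two, ← ENNReal.ofReal_pow (by linarith),
      ← ENNReal.ofReal_mul (by positivity), ENNReal.ofReal_le_ofReal_iff (by positivity)] at hle
    linarith


end Pool.Agent.Helper865.Wid
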