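import Pool.Agent.Helper865.Wid.Defs
import Pool.Agent.Helper865.Wid.A1b
import Pool.Agent.Helper865.Wid.A2b
import Pool.Agent.Helper865.Wid.A3
import Pool.Agent.Helper865.Wid.A4
import Pool.Agent.Helper865.Wid.B1
import Pool.Agent.Helper865.Wid.B2
import Pool.Agent.Helper865.Wid.B3
import Pool.Agent.Helper865.Wid.B4
import Pool.Agent.Helper865.Wid.B5
import Pool.Agent.Helper865.Wid.T1
import Pool.Agent.Helper865.Wid.T2
import Pool.Agent.Helper865.Wid.K1a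
import Pool.Agent.Helper865.Wid.K1b
import Pool.Agent.Helper865.Wid.K2
import Pool.Agent.Helper865.Wid.K3
import Pool.Agent.Helper865.Wid.K4
import Pool.Agent.Helper865.Wid.K5
import Pool.Agent.Helper865.Wid.K6
import Pool.Agent.Helper865.Wid.K7

set_option autoImplicit false

open MeasureTheory Set Filter Topology Metric

namespace Pool.Agent.Helper865.Wid

theorem bddP (d : ℕ) (hd : 1 ≤ d) (t : ℝ) (ht : 0 < t) :
    BddAbove {m : ℕ | ∃ C : Fin m → Set (E d), IsPacking d t C} := by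
  refine ⟨⌊((2 * d).choose d : ℝ) / t ^ d⌋₊, ?_⟩
  rintro m ⟨C, hC⟩
  exact Nat.le_floor (packUpperSharp volLowerSharp d hd t ht m C hC)

theorem P_upper (d : ℕ) (hd : 1 ≤ d) (t : ℝ) (ht : 0 < t) :
    (P d t : ℝ) ≤ ((2 * d).choose d : ℝ) / t ^ d := by
  have h : P d t ≤ ⌊((2 * d).choose d : ℝ) / t ^ d⌋₊ := by
    unfold P
    apply csSup_le'
    rintro m ⟨C, hC⟩
    exact Nat.le_floor (packUpperSharp volLowerSharp d hd t ht m C hC)
  exact (Nat.cast_le.mpr h).trans (Nat.floor_le (by positivity))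

theorem P_two_pow (d : ℕ) (hd : 1 ≤ d) (t : ℝ) (ht : 0 < t) (ht1 : t ≤ 1) : 2 ^ d ≤ P d t := by
  obtain ⟨C, hC⟩ := orthants d t ht1
  exact le_csSup (bddP d hd t ht) ⟨C, hC⟩

theorem P_balls (d : ℕ) (hd : 1 ≤ d) (t : ℝ) (ht : 0 < t) (ht1 : t ≤ 1) :
    (1 / t - 1 / 2) ^ d ≤ (P d t : ℝ) := by
  obtain ⟨m, C, hC, hm⟩ := ballPacking d hd t ht ht1
  exact hm.trans (Nat.cast_le.mpr (le_csSup (bddP d hd t ht) ⟨C, hC⟩))

theorem P_lower (d : ℕ) (hd : 1 ≤ d) (t : ℝ) (ht : 0 < t) (ht1 : t ≤ 1) :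
    (3 / (4 * t)) ^ d ≤ (P d t : ℝ) := by
  by_cases h : t ≤ 1 / 2
  · refine le_trans ?_ (P_balls d hd t ht ht1)
    apply pow_le_pow_left₀ (by positivity)
    rw [div_le_iff₀ (by positivity)]
    have : (1 / t) * t = 1 := by field_simp
    nlinarith
  · have h2 : ((2 : ℝ)) ^ d ≤ (P d t : ℝ) := by exact_mod_cast P_two_pow d hd t ht ht1
    refine le_trans ?_ h2
    apply pow_le_pow_left₀ (by positivity)
    rw [div_le_iff₀ (by positivity)]
    push Not at h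
    linarith

theorem P_plane (t : ℝ) (ht : 249 / 250 ≤ t) (ht1 : t ≤ 1) : P 2 t = 4 := by
  apply le_antisymm
  · unfold P
    apply csSup_le'
    rintro m ⟨C, hC⟩
    exact noFive separators wedge frame quarterArea member t ht m C hC
  · have := P_two_pow 2 (by norm_num) t (by linarith) ht1
    simpa using this

/-- Pál's theorem, in the form needed here. -/
theorem pal (t : ℝ) (ht : 0 < t) (C : Set (E 2)) (hC : Convex ℝ C)
    (hb : C ⊆ closedBall 0 1) (hw : ∀ u : E 2, ‖u‖ = 1 → t ≤ widthDir C u) :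
    ENNReal.ofReal (t ^ 2 / √3) ≤ volume (interior C) :=
  palT (palOne inballMax touching capArea capSector sectorsDisjoint inCone oneVar) t ht C hC hb hw

theorem P_planeUpper (t : ℝ) (ht : 0 < t) : (P 2 t : ℝ) ≤ Real.pi * √3 / t ^ 2 := by
  have hpi := Real.pi_pos
  have h : P 2 t ≤ ⌊Real.pi * √3 / t ^ 2⌋₊ := by
    unfold P
    apply csSup_le'
    rintro m ⟨C, hC⟩
    exact Nat.le_floor (packPlane pal t ht m C hC)
  exact (Nat.cast_le.mpr h).trans (Nat.floor_le (by positivity))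

theorem P_planeLower (t : ℝ) (ht : 0 < t) (ht1 : t ≤ √3 / 2) :
    Real.pi * √3 * (1 - 2 * t / √3) ^ 2 / t ^ 2 ≤ (P 2 t : ℝ) := by
  have h3 : (0 : ℝ) < √3 := by positivity
  have h33 : √3 * √3 = 3 := Real.mul_self_sqrt (by norm_num)
  have hs : 0 < 2 * t / √3 := by positivity
  have hs1 : 2 * t / √3 ≤ 1 := by
    rw [div_le_one h3]; linarith
  obtain ⟨m, p, q, r, h1, h2, h4⟩ := triTiling (2 * t / √3) hs hs1
  have hpack : IsPacking 2 t (fun i => convexHull ℝ ({p i, q i, r i} : Set (E 2))) := by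
    refine ⟨fun i => ⟨convex_convexHull ℝ _, (h1 i).2.2.2, ?_⟩, h2⟩
    intro u hu
    have := triWidth (2 * t / √3) (p i) (q i) (r i) (h1 i).1 (h1 i).2.1 (h1 i).2.2.1 u hu
    refine le_trans (le_of_eq ?_) this
    field_simp
  have hm : (m : ℝ) ≤ (P 2 t : ℝ) :=
    Nat.cast_le.mpr (le_csSup (bddP 2 (by norm_num) t ht) ⟨_, hpack⟩)
  refine le_trans ?_ hm
  rw [div_le_iff₀ (by positivity)]
  have e1 : √3 / 4 * (2 * t / √3) ^ 2 = t ^ 2 / √3 := by
    field_simp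
    ring
  rw [e1] at h4
  have h5 := mul_le_mul_of_nonneg_right h4 h3.le
  have e2 : ↑m * (t ^ 2 / √3) * √3 = ↑m * t ^ 2 := by
    field_simp
  rw [e2] at h5
  linarith

theorem P_planeLimit : Tendsto (fun t : ℝ => t ^ 2 * (P 2 t : ℝ)) (𝓝[>] 0) (𝓝 (Real.pi * √3)) := by
  have h3 : (0 : ℝ) < √3 := by positivity
  have hl : Tendsto (fun t : ℝ => Real.pi * √3 * (1 - 2 * t / √3) ^ 2) (𝓝[>] 0)
      (𝓝 (Real.pi * √3)) := by
    have hc : Continuous (fun t : ℝ => Real.pi * √3 * (1 - 2 * t / √3) ^ 2) := by fun_prop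
    have := (hc.tendsto 0).mono_left (nhdsWithin_le_nhds (s := Ioi (0 : ℝ)))
    simpa using this
  refine tendsto_of_tendsto_of_tendsto_of_le_of_le' hl tendsto_const_nhds ?_ ?_
  · have hmem : Ioc (0 : ℝ) (√3 / 2) ∈ 𝓝[>] (0 : ℝ) := Ioc_mem_nhdsGT (by positivity)
    filter_upwards [hmem] with t ht
    have := P_planeLower t ht.1 ht.2
    rw [div_le_iff₀ (pow_pos ht.1 2)] at this
    linarith
  · filter_upwards [self_mem_nhdsWithin] with t ht
    have ht' : 0 < t := ht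
    have := P_planeUpper t ht'
    rw [le_div_iff₀ (pow_pos ht' 2)] at this
    linarith

/-- The main theorem. -/
theorem final :
    (∀ (d : ℕ) (t : ℝ), 1 ≤ d → 0 < t → t ≤ 1 →
      (3 / (4 * t)) ^ d ≤ (P d t : ℝ) ∧ (P d t : ℝ) ≤ ((2 * d).choose d : ℝ) / t ^ d ∧
      2 ^ d ≤ P d t ∧ (1 / t - 1 / 2) ^ d ≤ (P d t : ℝ)) ∧
    (∀ t : ℝ, 0 < t → (P 2 t : ℝ) ≤ Real.pi * √3 / t ^ 2) ∧
    (∀ t : ℝ, 0 < t → t ≤ √3 / 2 →
      Real.pi * √3 * (1 - 2 * t / √3) ^ 2 / t ^ 2 ≤ (P 2 t : ℝ)) ∧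
    Tendsto (fun t : ℝ => t ^ 2 * (P 2 t : ℝ)) (𝓝[>] 0) (𝓝 (Real.pi * √3)) ∧
    (∀ t : ℝ, 249 / 250 ≤ t → t ≤ 1 → P 2 t = 4) :=
  ⟨fun d t hd ht ht1 => ⟨P_lower d hd t ht ht1, P_upper d hd t ht, P_two_pow d hd t ht ht1,
    P_balls d hd t ht ht1⟩, P_planeUpper, P_planeLower, P_planeLimit, P_plane⟩

end Pool.Agent.Helper865.Wid
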