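import Pool.Agent.Helper865.Wid.Defs

set_option autoImplicit false

open MeasureTheory Set Filter Topology Metric

namespace Pool.Agent.Helper865.Wid


theorem inballMax (K : Set (E 2)) (hK : IsCompact K) (hC : Convex ℝ K)
    (hi : (interior K).Nonempty) :
    ∃ (o : E 2) (r : ℝ), 0 < r ∧ closedBall o r ⊆ K ∧
      ∀ v : E 2, ∃ u : E 2, ‖u‖ = 1 ∧ (∀ x ∈ K, inner ℝ (x - o) u ≤ r) ∧ 0 ≤ inner ℝ u v := by
  classical
  have hne : (Kᶜ).Nonempty := by
    by_contra h
    rw [Set.not_nonempty_iff_eq_empty, compl_empty_iff] at h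
    rw [h] at hK
    exact noncompact_univ (E 2) hK
  have hKne : K.Nonempty := hi.mono interior_subset
  obtain ⟨o, hoK, hmax⟩ := hK.exists_isMaxOn hKne (continuous_infDist_pt (Kᶜ)).continuousOn
  set r : ℝ := infDist o Kᶜ with hrdef
  have hr : 0 < r := by
    obtain ⟨c, hc⟩ := hi
    have h1 : 0 < infDist c Kᶜ := by
      rw [← infDist_closure, closure_compl]
      refine (IsClosed.notMem_iff_infDist_pos isOpen_interior.isClosed_compl ?_).1 ?_
      · rw [← closure_compl]; exact hne.closure
      · simpa using hc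
    exact lt_of_lt_of_le h1 (hmax (interior_subset hc))
  have hball : closedBall o r ⊆ K := by
    have h1 : ball o r ⊆ K := by
      intro x hx
      by_contra hxK
      have h2 : infDist o Kᶜ ≤ dist o x := infDist_le_dist_of_mem hxK
      rw [mem_ball, dist_comm] at hx
      exact absurd hx (not_lt.2 h2)
    rw [← closure_ball o hr.ne']
    exact closure_minimal h1 hK.isClosed
  have hle : ∀ z : E 2, infDist z Kᶜ ≤ r := by
    intro z
    by_cases hz : z ∈ K
    · exact hmax hz
    · rw [infDist_zero_of_mem hz]; exact hr.le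
  refine ⟨o, r, hr, hball, ?_⟩
  intro v
  have key : ∀ n : ℕ, ∃ u : E 2, ‖u‖ = 1 ∧
      (∀ x ∈ K, inner ℝ (x - o) u ≤ r + (1 / ((n : ℝ) + 1)) * inner ℝ v u) := by
    intro n
    set ε : ℝ := 1 / ((n : ℝ) + 1) with hε
    set z : E 2 := o + ε • v with hz
    obtain ⟨y, hy, hyd⟩ := isClosed_closure.exists_infDist_eq_dist hne.closure z
    rw [infDist_closure] at hyd
    have hy' : y ∉ interior K := by
      rw [closure_compl] at hy
      exact hy
    have hyr : dist z y ≤ r := hyd ▸ hle z
    obtain ⟨f, hf⟩ := geometric_hahn_banach_open_point hC.interior isOpen_interior hy'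
    have hfK : ∀ x ∈ K, f x ≤ f y := by
      have h1 : K ⊆ closure (interior K) := by
        rw [hC.closure_interior_eq_closure_of_nonempty_interior hi]
        exact subset_closure
      have h2 : closure (interior K) ⊆ {x | f x ≤ f y} :=
        closure_minimal (fun x hx => (hf x hx).le) (isClosed_le f.continuous continuous_const)
      exact fun x hx => h2 (h1 hx)
    set w : E 2 := (InnerProductSpace.toDual ℝ (E 2)).symm f with hw
    have hwf : ∀ x, inner ℝ w x = f x := fun x => InnerProductSpace.toDual_symm_apply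
    have hw0 : w ≠ 0 := by
      intro h0
      obtain ⟨c, hc⟩ := hi
      have h1 := hf c hc
      rw [← hwf, ← hwf, h0, inner_zero_left, inner_zero_left] at h1
      exact lt_irrefl _ h1
    have hwn : 0 < ‖w‖ := norm_pos_iff.2 hw0
    refine ⟨‖w‖⁻¹ • w, ?_, ?_⟩
    · rw [norm_smul, norm_inv, norm_norm, inv_mul_cancel₀ hwn.ne']
    · intro x hx
      have hu1 : ‖‖w‖⁻¹ • w‖ = 1 := by
        rw [norm_smul, norm_inv, norm_norm, inv_mul_cancel₀ hwn.ne']
      set u : E 2 := ‖w‖⁻¹ • w with hu
      have e1 : inner ℝ (x - y) u ≤ 0 := by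
        rw [hu, real_inner_smul_right, real_inner_comm, inner_sub_right, hwf, hwf]
        exact mul_nonpos_of_nonneg_of_nonpos (inv_nonneg.2 hwn.le) (sub_nonpos.2 (hfK x hx))
      have e2 : inner ℝ (y - z) u ≤ r := by
        calc inner ℝ (y - z) u ≤ ‖y - z‖ * ‖u‖ := real_inner_le_norm _ _
          _ = dist z y := by rw [hu1, mul_one, dist_comm, dist_eq_norm]
          _ ≤ r := hyr
      have e3 : x - o = (x - y) + (y - z) + ε • v := by
        rw [hz]; abel
      rw [e3, inner_add_left, inner_add_left, real_inner_smul_left]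
      linarith
  choose u hu1 hu2 using key
  have hu3 : ∀ n, 0 ≤ inner ℝ v (u n) := by
    intro n
    have hx : o + r • u n ∈ K := by
      apply hball
      rw [mem_closedBall, dist_eq_norm, add_sub_cancel_left, norm_smul, hu1 n, mul_one,
        Real.norm_eq_abs, abs_of_pos hr]
    have h := hu2 n _ hx
    rw [add_sub_cancel_left, real_inner_smul_left, real_inner_self_eq_norm_sq, hu1 n] at h
    have hpos : (0 : ℝ) < 1 / ((n : ℝ) + 1) := by positivity
    have h2 : 0 ≤ (1 / ((n : ℝ) + 1)) * inner ℝ v (u n) := by linarith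
    exact nonneg_of_mul_nonneg_right h2 hpos
  obtain ⟨w, hw, φ, hφ, hlim⟩ := (isCompact_sphere (0 : E 2) 1).tendsto_subseq
    (fun n => mem_sphere_zero_iff_norm.2 (hu1 n))
  refine ⟨w, mem_sphere_zero_iff_norm.1 hw, ?_, ?_⟩
  · intro x hx
    have t1 : Tendsto (fun n => inner ℝ (x - o) (u (φ n))) atTop (𝓝 (inner ℝ (x - o) w)) :=
      tendsto_const_nhds.inner hlim
    have t2 : Tendsto (fun n => r + (1 / ((φ n : ℝ) + 1)) * inner ℝ v (u (φ n))) atTop
        (𝓝 (r + 0 * inner ℝ v w)) :=
      tendsto_const_nhds.add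
        ((tendsto_one_div_add_atTop_nhds_zero_nat.comp hφ.tendsto_atTop).mul
          (tendsto_const_nhds.inner hlim))
    have h := le_of_tendsto_of_tendsto' t1 t2 (fun n => hu2 (φ n) x hx)
    simpa using h
  · have t : Tendsto (fun n => inner ℝ v (u (φ n))) atTop (𝓝 (inner ℝ v w)) :=
      tendsto_const_nhds.inner hlim
    rw [real_inner_comm]
    exact ge_of_tendsto' t (fun n => hu3 (φ n))

end Pool.Agent.Helper865.Wid
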