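import Pool.Agent.Helper865.Wid.Defs

set_option autoImplicit false

open MeasureTheory Set Filter Topology Metric

namespace Pool.Agent.Helper865.Wid


theorem spread (u p : Fin 3 → E 2) (l : Fin 3 → ℝ) (hu : ∀ i, ‖u i‖ = 1) (hl : ∀ i, 0 < l i)
    (hl1 : ∑ i, l i = 1) (h0 : ∑ i, l i • u i = 0) (r D : ℝ) (hr : r < 1)
    (hp : ∀ i, inner ℝ (p i) (u i) ≤ -(1 - r)) (hD0 : 0 ≤ D)
    (hD : ∀ i j, ‖p i - p j‖ ≤ D) : √3 * (1 - r) ≤ D := by
  set c : E 2 := ∑ i, l i • p i with hc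
  have hcu : ∑ i, l i * inner ℝ c (u i) = 0 := by
    have := congrArg (fun v => inner ℝ c v) h0
    simpa [inner_sum, inner_smul_right] using this
  have hi : ∀ i, l i * (1 - r) ≤ l i * ‖p i - c‖ - l i * inner ℝ c (u i) := by
    intro i
    have h1 : -(inner ℝ (p i - c) (u i)) ≤ ‖p i - c‖ := by
      have := abs_real_inner_le_norm (p i - c) (u i)
      rw [hu i, mul_one] at this
      exact (neg_le_abs _).trans this
    rw [inner_sub_left] at h1
    have h2 := hp i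
    have h3 : 1 - r ≤ ‖p i - c‖ - inner ℝ c (u i) := by linarith
    have := mul_le_mul_of_nonneg_left h3 (hl i).le
    linarith
  have hA : 1 - r ≤ ∑ i, l i * ‖p i - c‖ := by
    have h := Finset.sum_le_sum fun i (_ : i ∈ Finset.univ) => hi i
    rw [Finset.sum_sub_distrib, hcu, ← Finset.sum_mul, hl1] at h
    linarith
  set m := ∑ i, l i * ‖p i - c‖ with hm
  have hvar : m ^ 2 ≤ ∑ i, l i * ‖p i - c‖ ^ 2 := by
    have h : 0 ≤ ∑ i, l i * (‖p i - c‖ - m) ^ 2 :=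
      Finset.sum_nonneg fun i _ => mul_nonneg (hl i).le (sq_nonneg _)
    have e : ∀ m' : ℝ, ∑ i, l i * (‖p i - c‖ - m') ^ 2
        = ∑ i, l i * ‖p i - c‖ ^ 2 - 2 * m' * (∑ i, l i * ‖p i - c‖) + m' ^ 2 * ∑ i, l i := by
      intro m'
      simp only [Fin.sum_univ_three]
      ring
    rw [e, ← hm, hl1] at h
    nlinarith
  have hl3 : l 0 + l 1 + l 2 = 1 := by
    rw [← hl1, Fin.sum_univ_three]
  have hid : ∑ i, l i * ‖p i - c‖ ^ 2 = l 0 * l 1 * ‖p 0 - p 1‖ ^ 2 + l 0 * l 2 * ‖p 0 - p 2‖ ^ 2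
      + l 1 * l 2 * ‖p 1 - p 2‖ ^ 2 := by
    have e1 : ∀ a b : E 2, ‖a - b‖ ^ 2 = inner ℝ a a - 2 * inner ℝ a b + inner ℝ b b := by
      intro a b
      rw [norm_sub_sq_real, real_inner_self_eq_norm_sq, real_inner_self_eq_norm_sq]
    have e2 : c = l 0 • p 0 + l 1 • p 1 + l 2 • p 2 := by
      rw [hc, Fin.sum_univ_three]
    rw [Fin.sum_univ_three]
    simp only [e1, e2, inner_add_left, inner_add_right, inner_smul_left, inner_smul_right,
      RCLike.conj_to_real]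
    rw [real_inner_comm (p 0) (p 1), real_inner_comm (p 0) (p 2), real_inner_comm (p 1) (p 2)]
    have hl2 : l 2 = 1 - l 0 - l 1 := by linarith
    rw [hl2]
    ring
  have hb : ∑ i, l i * ‖p i - c‖ ^ 2 ≤ D ^ 2 / 3 := by
    rw [hid]
    have q : ∀ i j, ‖p i - p j‖ ^ 2 ≤ D ^ 2 := fun i j => pow_le_pow_left₀ (norm_nonneg _) (hD i j) 2
    have a0 := hl 0
    have a1 := hl 1
    have a2 := hl 2
    have q1 := mul_le_mul_of_nonneg_left (q 0 1) (mul_pos a0 a1).le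
    have q2 := mul_le_mul_of_nonneg_left (q 0 2) (mul_pos a0 a2).le
    have q3 := mul_le_mul_of_nonneg_left (q 1 2) (mul_pos a1 a2).le
    have h3 : l 0 * l 1 + l 0 * l 2 + l 1 * l 2 ≤ 1 / 3 := by
      have hl2 : l 2 = 1 - l 0 - l 1 := by linarith
      rw [hl2]
      nlinarith [sq_nonneg (l 0 - l 1), sq_nonneg (l 0 - 1/3), sq_nonneg (l 1 - 1/3), sq_nonneg (l 0 + l 1 - 2/3)]
    have h4 := mul_le_mul_of_nonneg_left h3 (sq_nonneg D)
    nlinarith
  have hfin : 3 * (1 - r) ^ 2 ≤ D ^ 2 := by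
    have h5 : (1 - r) ^ 2 ≤ m ^ 2 := pow_le_pow_left₀ (by linarith) hA 2
    linarith
  have h6 : (√3 * (1 - r)) ^ 2 ≤ D ^ 2 := by
    rw [mul_pow, Real.sq_sqrt (by norm_num)]
    exact hfin
  exact abs_le_of_sq_le_sq' h6 hD0 |>.2

end Pool.Agent.Helper865.Wid
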