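import Pool.Agent.Helper865.Wid.Defs

set_option autoImplicit false

open MeasureTheory Set Filter Topology Metric

namespace Pool.Agent.Helper865.Wid



theorem numeric_b1 (s u : ℝ) (hs : 0 ≤ s) (hu : 0 ≤ u) :
    0 ≤ (16421875 / 32768) * s ^ 0 * u ^ 9 + (147796875 / 32768) * s ^ 1 * u ^ 8 + (139943125 / 8192) * s ^ 2 * u ^ 7 + (293883125 / 8192) * s ^ 3 * u ^ 6 + (753977225 / 16384) * s ^ 4 * u ^ 5 + (609306625 / 16384) * s ^ 5 * u ^ 4 + (152677125 / 8192) * s ^ 6 * u ^ 3 + (43831445 / 8192) * s ^ 7 * u ^ 2 + (22572435 / 32768) * s ^ 8 * u ^ 1 + (757623 / 163840) * s ^ 9 * u ^ 0 := by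
  positivity

theorem numeric_b2 (s u : ℝ) (hs : 0 ≤ s) (hu : 0 ≤ u) :
    0 ≤ (32812222011 / 160000) * s ^ 0 * u ^ 11 + (404407103469 / 160000) * s ^ 1 * u ^ 10 + (232803975443 / 16000) * s ^ 2 * u ^ 9 + (406206050473 / 8000) * s ^ 3 * u ^ 8 + (3769426894611 / 32000) * s ^ 4 * u ^ 7 + (30237987244293 / 160000) * s ^ 5 * u ^ 6 + (2125421075047 / 10000) * s ^ 6 * u ^ 5 + (2666069618117 / 16000) * s ^ 7 * u ^ 4 + (354892975001 / 4000) * s ^ 8 * u ^ 3 + (121268906643 / 4000) * s ^ 9 * u ^ 2 + (14768474539 / 2500) * s ^ 10 * u ^ 1 + (1213393361 / 2500) * s ^ 11 * u ^ 0 := by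
  positivity

/-- the polynomial lower bound -/
noncomputable def numeric_poly (t : ℝ) : ℝ :=
  0.785375 - 1.57075 * t ^ 2 + 2 * t ^ 3 + 0.785375 * t ^ 4 - 2.8 * t ^ 5 + 1.1 * t ^ 7 - 0.3 * t ^ 9

theorem numeric_p1 (t : ℝ) (h0 : 0 ≤ t) (h1 : t ≤ 2 / 5) : 654 / 1000 ≤ numeric_poly t := by
  have h := numeric_b1 t (2 / 5 - t) h0 (by linarith)
  have e : (16421875 / 32768) * t ^ 0 * (2 / 5 - t) ^ 9 + (147796875 / 32768) * t ^ 1 * (2 / 5 - t) ^ 8 + (139943125 / 8192) * t ^ 2 * (2 / 5 - t) ^ 7 + (293883125 / 8192) * t ^ 3 * (2 / 5 - t) ^ 6 + (753977225 / 16384) * t ^ 4 * (2 / 5 - t) ^ 5 + (609306625 / 16384) * t ^ 5 * (2 / 5 - t) ^ 4 + (152677125 / 8192) * t ^ 6 * (2 / 5 - t) ^ 3 + (43831445 / 8192) * t ^ 7 * (2 / 5 - t) ^ 2 + (22572435 / 32768) * t ^ 8 * (2 / 5 - t) ^ 1 + (757623 / 163840) * t ^ 9 * (2 / 5 - t) ^ 0 = numeric_poly t - 654 / 1000 := by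
    unfold numeric_poly
    ring
  rw [e] at h
  linarith only [h]

theorem numeric_p2 (t : ℝ) (h0 : 2 / 5 ≤ t) (h1 : t ≤ 3 / 5) :
    654 / 1000 ≤ 0.866 * (1 + t ^ 2) * numeric_poly t := by
  have h := numeric_b2 (t - 2 / 5) (3 / 5 - t) (by linarith) (by linarith)
  have e : (32812222011 / 160000) * (t - 2 / 5) ^ 0 * (3 / 5 - t) ^ 11 + (404407103469 / 160000) * (t - 2 / 5) ^ 1 * (3 / 5 - t) ^ 10 + (232803975443 / 16000) * (t - 2 / 5) ^ 2 * (3 / 5 - t) ^ 9 + (406206050473 / 8000) * (t - 2 / 5) ^ 3 * (3 / 5 - t) ^ 8 + (3769426894611 / 32000) * (t - 2 / 5) ^ 4 * (3 / 5 - t) ^ 7 + (30237987244293 / 160000) * (t - 2 / 5) ^ 5 * (3 / 5 - t) ^ 6 + (2125421075047 / 10000) * (t - 2 / 5) ^ 6 * (3 / 5 - t) ^ 5 + (2666069618117 / 16000) * (t - 2 / 5) ^ 7 * (3 / 5 - t) ^ 4 + (354892975001 / 4000) * (t - 2 / 5) ^ 8 * (3 / 5 - t) ^ 3 + (121268906643 / 4000) * (t - 2 / 5) ^ 9 * (3 / 5 - t)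 ^ 2 + (14768474539 / 2500) * (t - 2 / 5) ^ 10 * (3 / 5 - t) ^ 1 + (1213393361 / 2500) * (t - 2 / 5) ^ 11 * (3 / 5 - t) ^ 0 = 0.866 * (1 + t ^ 2) * numeric_poly t - 654 / 1000 := by
    unfold numeric_poly
    ring
  rw [e] at h
  linarith only [h]

theorem numeric_arctan (x : ℝ) (hx : 0 ≤ x) :
    Real.arctan x ≤ x - x ^ 3 / 3 + x ^ 5 / 5 := by
  have hmono : MonotoneOn (fun y : ℝ => y - y ^ 3 / 3 + y ^ 5 / 5 - Real.arctan y) (Set.Ici 0) := by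
    apply monotoneOn_of_deriv_nonneg (convex_Ici 0)
    · apply Continuous.continuousOn
      exact (by fun_prop : Continuous fun y : ℝ => y - y ^ 3 / 3 + y ^ 5 / 5).sub
        Real.continuous_arctan
    · intro y _
      apply DifferentiableAt.differentiableWithinAt
      exact (by fun_prop : DifferentiableAt ℝ (fun y : ℝ => y - y ^ 3 / 3 + y ^ 5 / 5) y).sub
        (Real.differentiableAt_arctan y)
    · intro y _
      have hd : HasDerivAt (fun y : ℝ => y - y ^ 3 / 3 + y ^ 5 / 5 - Real.arctan y)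
          (1 - (3 : ℕ) * y ^ 2 / 3 + (5 : ℕ) * y ^ 4 / 5 - 1 / (1 + y ^ 2)) y := by
        have h3 : HasDerivAt (fun y : ℝ => y ^ 3 / 3) ((3 : ℕ) * y ^ 2 / 3) y := by
          simpa using (hasDerivAt_pow 3 y).div_const 3
        have h5 : HasDerivAt (fun y : ℝ => y ^ 5 / 5) ((5 : ℕ) * y ^ 4 / 5) y := by
          simpa using (hasDerivAt_pow 5 y).div_const 5
        exact (((hasDerivAt_id y).sub h3).add h5).sub (Real.hasDerivAt_arctan y)
      rw [hd.deriv]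
      have hp : 0 < 1 + y ^ 2 := by positivity
      have e : (1 - ((3 : ℕ) : ℝ) * y ^ 2 / 3 + ((5 : ℕ) : ℝ) * y ^ 4 / 5 - 1 / (1 + y ^ 2)) =
          y ^ 6 / (1 + y ^ 2) := by
        push_cast
        field_simp
        ring
      rw [e]
      positivity
  have h := hmono (Set.mem_Ici.mpr le_rfl) (Set.mem_Ici.mpr hx) hx
  simp only [Real.arctan_zero] at h
  linarith

theorem numeric_subst (r : ℝ) (h1 : 1 / 3 ≤ r) (h2 : r < 1 / 2) :
    ∃ τ : ℝ, 0 ≤ τ ∧ τ ^ 2 ≤ 1 / 3 ∧ r = (1 - τ ^ 2) / 2 ∧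
      Real.pi * r ^ 2
      + 3 * (r * √((1 - r) ^ 2 - r ^ 2) - r ^ 2 * Real.arccos (r / (1 - r))) =
      (1 - τ ^ 2) ^ 2 / 4 * (Real.pi - 6 * Real.arctan τ) + 3 / 2 * τ * (1 - τ ^ 2) := by
  set q : ℝ := √3 with hq
  have hq0 : 0 < q := Real.sqrt_pos.mpr (by norm_num)
  have hq2 : q ^ 2 = 3 := Real.sq_sqrt (by norm_num)
  have hs : (1 - r) ^ 2 - r ^ 2 = 1 - 2 * r := by ring
  rw [hs]
  refine ⟨√(1 - 2 * r), Real.sqrt_nonneg _, ?_, ?_, ?_⟩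
  · rw [Real.sq_sqrt (by linarith)]; linarith
  · rw [Real.sq_sqrt (by linarith)]; ring
  set τ : ℝ := √(1 - 2 * r) with hτ
  have hτ0 : 0 ≤ τ := Real.sqrt_nonneg _
  have hτ2 : τ ^ 2 = 1 - 2 * r := Real.sq_sqrt (by linarith)
  have hr : r = (1 - τ ^ 2) / 2 := by rw [hτ2]; ring
  have hx1 : q * τ ≤ 1 := by
    have : (q * τ) ^ 2 ≤ 1 := by rw [mul_pow, hq2, hτ2]; linarith
    nlinarith [mul_nonneg hq0.le hτ0]
  set θ : ℝ := Real.arctan τ with hθ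
  have hθ0 : 0 ≤ θ := Real.arctan_nonneg.mpr hτ0
  have hc2 : Real.cos (2 * θ) = (1 - τ ^ 2) / (1 + τ ^ 2) := by
    rw [Real.cos_two_mul, hθ, Real.cos_sq_arctan]
    have : (1 + τ ^ 2) ≠ 0 := by positivity
    field_simp
    ring
  have hθ6 : θ ≤ Real.pi / 6 := by
    have h6 : Real.arctan (Real.tan (Real.pi / 6)) = Real.pi / 6 :=
      Real.arctan_tan (by linarith [Real.pi_pos]) (by linarith [Real.pi_pos])
    rw [← h6, hθ]
    apply Real.arctan_mono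
    rw [Real.tan_pi_div_six, le_div_iff₀ hq0, mul_comm]
    exact hx1
  have harc : Real.arccos (r / (1 - r)) = 2 * θ := by
    have h7 : r / (1 - r) = Real.cos (2 * θ) := by
      rw [hc2, hr]
      have h8 : (1 + τ ^ 2) ≠ 0 := by positivity
      have h9 : 1 - (1 - τ ^ 2) / 2 = (1 + τ ^ 2) / 2 := by ring
      rw [h9]
      field_simp
    rw [h7, Real.arccos_cos (by linarith) (by linarith [Real.pi_pos])]
  rw [harc]
  have h10 : (1 - τ ^ 2) = 2 * r := by rw [hτ2]; ring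
  rw [h10]
  ring

theorem numeric_low (τ : ℝ) (h0 : 0 ≤ τ) :
    numeric_poly τ ≤
      (1 - τ ^ 2) ^ 2 / 4 * (Real.pi - 6 * Real.arctan τ) + 3 / 2 * τ * (1 - τ ^ 2) := by
  have ha := numeric_arctan τ h0
  have hpi := Real.pi_gt_d4
  have h1 : 3.1415 - 6 * (τ - τ ^ 3 / 3 + τ ^ 5 / 5) ≤ Real.pi - 6 * Real.arctan τ := by
    linarith
  have h2 := mul_le_mul_of_nonneg_left h1 (by positivity : 0 ≤ (1 - τ ^ 2) ^ 2 / 4)
  have e : numeric_poly τ = (1 - τ ^ 2) ^ 2 / 4 * (3.1415 - 6 * (τ - τ ^ 3 / 3 + τ ^ 5 / 5)) +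
      3 / 2 * τ * (1 - τ ^ 2) := by
    unfold numeric_poly
    ring
  rw [e]
  linarith

theorem numeric (r D : ℝ) (h1 : 1 / 3 ≤ r) (h2 : r < 1 / 2) (hD : 1 ≤ D)
    (hrD : √3 * (1 - r) ≤ D) :
    654 / 1000 ≤ D * (Real.pi * r ^ 2
      + 3 * (r * √((1 - r) ^ 2 - r ^ 2) - r ^ 2 * Real.arccos (r / (1 - r)))) := by
  obtain ⟨τ, hτ0, hτ3, hr, hF⟩ := numeric_subst r h1 h2
  rw [hF]
  have hlow := numeric_low τ hτ0
  set F : ℝ := (1 - τ ^ 2) ^ 2 / 4 * (Real.pi - 6 * Real.arctan τ) + 3 / 2 * τ * (1 - τ ^ 2)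
  have hτ35 : τ ≤ 3 / 5 := by
    by_contra hcon
    push Not at hcon
    have h3 : (3 / 5 : ℝ) * (3 / 5) < τ * τ := mul_lt_mul'' hcon hcon (by norm_num) (by norm_num)
    have h4 : τ ^ 2 = τ * τ := sq τ
    rw [h4] at hτ3
    linarith only [h3, hτ3]
  rcases le_total τ (2 / 5) with h | h
  · have h3 := numeric_p1 τ hτ0 h
    have h4 : 654 / 1000 ≤ F := h3.trans hlow
    have h5 : 1 * F ≤ D * F := mul_le_mul_of_nonneg_right hD (by linarith)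
    linarith
  · have h3 := numeric_p2 τ h hτ35
    have h6 : 0 < numeric_poly τ := by
      by_contra hcon
      push Not at hcon
      have h7 : (0.866 * (1 + τ ^ 2)) * numeric_poly τ ≤ 0 :=
        mul_nonpos_of_nonneg_of_nonpos (by positivity) hcon
      linarith
    have hq : 1.732 ≤ √3 := by
      apply Real.le_sqrt_of_sq_le
      norm_num
    have h7 : 0.866 * (1 + τ ^ 2) ≤ D := by
      refine le_trans ?_ hrD
      have h8 : 1 - r = (1 + τ ^ 2) / 2 := by rw [hr]; ring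
      rw [h8]
      have h9 : 1.732 * ((1 + τ ^ 2) / 2) ≤ √3 * ((1 + τ ^ 2) / 2) :=
        mul_le_mul_of_nonneg_right hq (by positivity)
      linarith
    have hD0 : 0 ≤ D := by linarith
    calc (654 / 1000 : ℝ) ≤ 0.866 * (1 + τ ^ 2) * numeric_poly τ := h3
      _ ≤ D * F := mul_le_mul h7 hlow h6.le hD0


end Pool.Agent.Helper865.Wid
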