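import Pool.Agent.Helper865.Wid.Defs

set_option autoImplicit false

open MeasureTheory Set Filter Topology Metric

namespace Pool.Agent.Helper865.Wid


theorem shadow
    (shadowVol : ∀ (K : Set (E 3)), IsCompact K → Convex ℝ K → ∀ (a : E 3) (D : ℝ),
      0 ≤ D → a ∈ K → a + EuclideanSpace.single (2 : Fin 3) D ∈ K →
      ENNReal.ofReal (D / 3) *
          volume ((fun x : E 3 => (!₂[x 0, x 1] : E 2)) '' K) ≤ volume K)
    (K : Set (E 3)) (hK : IsCompact K) (hC : Convex ℝ K) (hi : (interior K).Nonempty)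
    (hw : ∀ u : E 3, ‖u‖ = 1 → 1 ≤ widthDir K u) (a b : E 3) (ha : a ∈ K) (hb : b ∈ K)
    (hab : a ≠ b) :
    ∃ K' : Set (E 2), IsCompact K' ∧ Convex ℝ K' ∧ (interior K').Nonempty ∧
      (∀ u : E 2, ‖u‖ = 1 → 1 ≤ widthDir K' u) ∧
      (∀ x ∈ K', ∀ y ∈ K', ∃ x' ∈ K, ∃ y' ∈ K, dist x y ≤ dist x' y') ∧
      ENNReal.ofReal (dist a b / 3) * volume K' ≤ volume K := by
  obtain ⟨φ, hφ⟩ : ∃ φ : E 3 ≃ₗᵢ[ℝ] E 3, φ (b - a) = EuclideanSpace.single (2 : Fin 3) (dist a b) := by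
    have hn : ‖b - a‖ = ‖(EuclideanSpace.single (2 : Fin 3) (dist a b) : E 3)‖ := by
      rw [PiLp.norm_single, Real.norm_eq_abs, abs_of_nonneg dist_nonneg, dist_comm, dist_eq_norm]
    exact ⟨_, Submodule.reflection_sub hn⟩
  obtain ⟨prl, hprl⟩ : ∃ prl : E 3 →ₗ[ℝ] E 2, ∀ x, prl x = (!₂[x 0, x 1] : E 2) := by
    refine ⟨{ toFun := fun x => !₂[x 0, x 1], map_add' := ?_, map_smul' := ?_ }, fun x => rfl⟩
    · intro x y; ext i; fin_cases i <;> simp
    · intro c x; ext i; fin_cases i <;> simp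
  have hprf : (fun x : E 3 => (!₂[x 0, x 1] : E 2)) = prl := by
    funext x; exact (hprl x).symm
  have hprc : Continuous prl := prl.continuous_of_finiteDimensional
  obtain ⟨prc, hprc'⟩ : ∃ prc : E 3 →L[ℝ] E 2, ∀ x, prc x = prl x := ⟨⟨prl, hprc⟩, fun x => rfl⟩
  have hsurj : Function.Surjective prc := by
    intro y
    refine ⟨!₂[y 0, y 1, 0], ?_⟩
    rw [hprc', hprl]
    ext i; fin_cases i <;> simp
  have hopen : IsOpenMap prc := prc.isOpenMap hsurj
  have hinner : ∀ (x : E 3) (u : E 2), inner ℝ (prl x) u = inner ℝ x (!₂[u 0, u 1, 0] : E 3) := by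
    intro x u
    rw [hprl]
    simp [PiLp.inner_apply, Fin.sum_univ_two, Fin.sum_univ_three]
  have hnorm : ∀ x : E 3, ‖prl x‖ ≤ ‖x‖ := by
    intro x
    rw [hprl, EuclideanSpace.norm_eq, EuclideanSpace.norm_eq]
    apply Real.sqrt_le_sqrt
    simp [Fin.sum_univ_two, Fin.sum_univ_three]
    positivity
  have hK1c : IsCompact (φ '' K) := hK.image φ.continuous
  have hK1v : Convex ℝ (φ '' K) := hC.is_linear_image φ.toLinearEquiv.toLinearMap.isLinear
  have hvol : volume (φ '' K) = volume K := by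
    have h1 : φ '' K = φ.symm ⁻¹' K := by
      ext y
      constructor
      · rintro ⟨x, hx, rfl⟩
        simpa using hx
      · intro hy
        exact ⟨φ.symm y, hy, by simp⟩
    rw [h1]
    exact (φ.symm.measurePreserving).measure_preimage hK.measurableSet.nullMeasurableSet
  refine ⟨prl '' (φ '' K), hK1c.image hprc, hK1v.is_linear_image prl.isLinear, ?_, ?_, ?_, ?_⟩
  · obtain ⟨z, hz⟩ := hi
    refine ⟨prl (φ z), ?_⟩
    rw [mem_interior]
    refine ⟨prc '' (φ '' interior K), ?_, ?_, ?_⟩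
    · rintro _ ⟨_, ⟨x, hx, rfl⟩, rfl⟩
      rw [hprc']
      exact ⟨φ x, ⟨x, interior_subset hx, rfl⟩, rfl⟩
    · refine hopen _ ?_
      exact φ.toHomeomorph.isOpenMap _ isOpen_interior
    · exact ⟨φ z, ⟨z, hz, rfl⟩, hprc' _⟩
  · intro u hu
    have h1 : (fun x => inner ℝ x u) '' (prl '' (φ '' K)) =
        (fun x => inner ℝ x (φ.symm (!₂[u 0, u 1, 0] : E 3))) '' K := by
      rw [image_image, image_image]
      refine image_congr fun x _ => ?_
      rw [hinner]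
      rw [← φ.inner_map_map x, LinearIsometryEquiv.apply_symm_apply]
    unfold widthDir
    rw [h1]
    refine hw _ ?_
    rw [LinearIsometryEquiv.norm_map, ← hu, EuclideanSpace.norm_eq, EuclideanSpace.norm_eq]
    simp [Fin.sum_univ_two, Fin.sum_univ_three]
  · rintro _ ⟨_, ⟨x, hx, rfl⟩, rfl⟩ _ ⟨_, ⟨y, hy, rfl⟩, rfl⟩
    refine ⟨x, hx, y, hy, ?_⟩
    rw [dist_eq_norm, dist_eq_norm, ← map_sub, ← map_sub]
    refine (hnorm _).trans ?_
    rw [LinearIsometryEquiv.norm_map]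
  · have h1 := shadowVol (φ '' K) hK1c hK1v (φ a) (dist a b) dist_nonneg ⟨a, ha, rfl⟩ (by
      rw [← hφ, ← map_add, add_sub_cancel]
      exact ⟨b, hb, rfl⟩)
    rw [hvol, hprf] at h1
    exact h1

end Pool.Agent.Helper865.Wid
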