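import Pool.Agent.Helper865.Wid.Defs

set_option autoImplicit false

open MeasureTheory Set Filter Topology Metric

namespace Pool.Agent.Helper865.Wid


/-- coordinates -/
noncomputable def svPsi (q : ℝ × (Fin 2 → ℝ)) : E 3 := !₂[q.2 0, q.2 1, q.1]

lemma svPsi_mp : MeasurePreserving svPsi (volume : Measure (ℝ × (Fin 2 → ℝ))) volume := by
  have h1 := (volume_preserving_piFinSuccAbove (fun _ : Fin 3 => ℝ) 2).symm
  have h2 := (PiLp.volume_preserving_toLp (Fin 3)).comp h1
  have he : svPsi = (@WithLp.toLp 2 (Fin 3 → ℝ)) ∘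
      (MeasurableEquiv.piFinSuccAbove (fun _ : Fin 3 => ℝ) 2).symm := by
    funext q
    ext i
    fin_cases i
    · rfl
    · rfl
    · rfl
  rw [he]
  exact h2

lemma sv_int (D : ℝ) (hD : 0 < D) :
    ∫⁻ t in Ioc 0 D, ENNReal.ofReal ((1 - t / D) ^ 2) = ENNReal.ofReal (D / 3) := by
  rw [← ofReal_integral_eq_lintegral_ofReal]
  · congr 1
    rw [← intervalIntegral.integral_of_le hD.le]
    have h1 : ∀ t ∈ Set.uIcc 0 D, HasDerivAt (fun t : ℝ => -(D / 3) * (1 - t / D) ^ 3)
        ((1 - t / D) ^ 2) t := by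
      intro t _
      have h2 : HasDerivAt (fun t : ℝ => 1 - t / D) (-(1 / D)) t := by
        have := ((hasDerivAt_id t).div_const D).const_sub 1
        simpa using this
      have h3 : HasDerivAt (fun t : ℝ => -(D / 3) * (1 - t / D) ^ 3)
          (-(D / 3) * (((3 : ℕ) : ℝ) * (1 - t / D) ^ (3 - 1) * (-(1 / D)))) t :=
        (h2.fun_pow 3).const_mul (-(D / 3))
      have h4 : (1 - t / D) ^ 2 = -(D / 3) * (((3 : ℕ) : ℝ) * (1 - t / D) ^ (3 - 1) * (-(1 / D))) := by
        push_cast
        field_simp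
      rw [h4]
      exact h3
    rw [intervalIntegral.integral_eq_sub_of_hasDerivAt h1]
    · field_simp
      ring
    · apply Continuous.intervalIntegrable
      fun_prop
  · apply Continuous.integrableOn_Ioc
    fun_prop
  · apply Filter.Eventually.of_forall
    intro t
    positivity

theorem shadowVol (K : Set (E 3)) (hK : IsCompact K) (hC : Convex ℝ K) (a : E 3) (D : ℝ)
    (hD : 0 ≤ D) (ha : a ∈ K) (hb : a + EuclideanSpace.single (2 : Fin 3) D ∈ K) :
    ENNReal.ofReal (D / 3) *
        volume ((fun x : E 3 => (!₂[x 0, x 1] : E 2)) '' K) ≤ volume K := by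
  rcases hD.eq_or_lt with hD0 | hD0
  · rw [← hD0]; simp
  set y0 : Fin 2 → ℝ := ![a 0, a 1] with hy0
  set S : Set (Fin 2 → ℝ) := {y | ∃ h, svPsi (h, y) ∈ K} with hS
  have hKm : MeasurableSet K := hK.isClosed.measurableSet
  have hvol : volume K = volume (svPsi ⁻¹' K) := (svPsi_mp.measure_preimage hKm.nullMeasurableSet).symm
  have hK3m : MeasurableSet (svPsi ⁻¹' K) := svPsi_mp.measurable hKm
  have hshadow : volume ((fun x : E 3 => (!₂[x 0, x 1] : E 2)) '' K) ≤ volume S := by
    have hc : IsCompact ((fun x : E 3 => (!₂[x 0, x 1] : E 2)) '' K) := by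
      apply hK.image
      fun_prop
    rw [← (PiLp.volume_preserving_toLp (Fin 2)).measure_preimage hc.isClosed.measurableSet.nullMeasurableSet]
    apply measure_mono
    rintro y ⟨x, hx, hxy⟩
    refine ⟨x 2, ?_⟩
    have e0 : x 0 = y 0 := by
      have := congrArg (fun z : E 2 => z 0) hxy
      simpa using this
    have e1 : x 1 = y 1 := by
      have := congrArg (fun z : E 2 => z 1) hxy
      simpa using this
    have : svPsi (x 2, y) = x := by
      ext i
      fin_cases i
      · simp [svPsi, e0]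
      · simp [svPsi, e1]
      · simp [svPsi]
    rw [this]
    exact hx
  set f : (Fin 2 → ℝ) → ENNReal := fun y => volume ((fun h : ℝ => (h, y)) ⁻¹' (svPsi ⁻¹' K)) with hf
  have hfm : Measurable f := measurable_measure_prodMk_right hK3m
  have hvol2 : volume K = ∫⁻ y, f y := by
    rw [hvol, Measure.volume_eq_prod, Measure.prod_apply_symm hK3m]
  obtain ⟨R, hR⟩ := hK.isBounded.exists_norm_le
  have hfin : ∀ y, f y ≠ ⊤ := by
    intro y
    apply ne_top_of_le_ne_top (measure_Icc_lt_top (a := -R) (b := R) (μ := (volume : Measure ℝ))).ne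
    apply measure_mono
    intro h hh
    have h1 := hR _ hh
    have h2 : ‖(svPsi (h, y)) 2‖ ≤ ‖svPsi (h, y)‖ := PiLp.norm_apply_le _ _
    have h3 : (svPsi (h, y)) 2 = h := by simp [svPsi]
    rw [h3, Real.norm_eq_abs] at h2
    exact abs_le.1 (h2.trans h1)
  have hlc : ∫⁻ y, f y = ∫⁻ t in Ioi 0, volume {y : Fin 2 → ℝ | t ≤ (f y).toReal} := by
    rw [← lintegral_eq_lintegral_meas_le _ (Filter.Eventually.of_forall fun y => ENNReal.toReal_nonneg)
      hfm.ennreal_toReal.aemeasurable]
    apply lintegral_congr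
    intro y
    rw [ENNReal.ofReal_toReal (hfin y)]
  have hlevel : ∀ t ∈ Ioc 0 D, ENNReal.ofReal ((1 - t / D) ^ 2) * volume S ≤
      volume {y : Fin 2 → ℝ | t ≤ (f y).toReal} := by
    intro t ht
    set s : ℝ := 1 - t / D with hs
    have hs0 : 0 ≤ s := by
      rw [hs, sub_nonneg, div_le_one hD0]; exact ht.2
    have hs1 : 0 ≤ 1 - s := by
      rw [hs]; have := ht.1; simp only [sub_sub_cancel]; positivity
    have hsD : (1 - s) * D = t := by
      rw [hs]; field_simp; ring
    have h1 := Measure.addHaar_image_homothety (volume : Measure (Fin 2 → ℝ)) y0 s S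
    rw [Module.finrank_fin_fun, abs_of_nonneg (by positivity)] at h1
    rw [← h1]
    apply measure_mono
    rintro _ ⟨y, ⟨h0, hy⟩, rfl⟩
    show t ≤ (f _).toReal
    rw [← ENNReal.ofReal_le_iff_le_toReal (hfin _)]
    set c : ℝ := (1 - s) * a 2 + s * h0 with hc
    have h2 : volume (Icc c (c + t)) = ENNReal.ofReal t := by
      rw [Real.volume_Icc]; congr 1; ring
    rw [← h2]
    apply measure_mono
    intro h hh
    show svPsi (h, _) ∈ K
    set τ : ℝ := (h - c) / t with hτ
    have hτ0 : 0 ≤ τ := div_nonneg (by linarith [hh.1]) ht.1.le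
    have hτ1 : τ ≤ 1 := by
      rw [hτ, div_le_one ht.1]; linarith [hh.2]
    have hp := hC.add_smul_mem ha hb ⟨hτ0, hτ1⟩
    have hq := hC hp hy hs1 hs0 (by ring)
    have ht0 : t ≠ 0 := ht.1.ne'
    have hht : h = c + τ * t := by rw [hτ]; field_simp; ring
    convert hq using 1
    ext i
    fin_cases i
    · simp [svPsi, AffineMap.homothety_apply, hy0, Matrix.vecHead, Matrix.vecTail]
      ring
    · simp [svPsi, AffineMap.homothety_apply, hy0, Matrix.vecHead, Matrix.vecTail]
      ring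
    · simp [svPsi]
      rw [hht, hc, ← hsD]
      ring
  calc ENNReal.ofReal (D / 3) * volume ((fun x : E 3 => (!₂[x 0, x 1] : E 2)) '' K)
      ≤ ENNReal.ofReal (D / 3) * volume S := mul_le_mul_right hshadow _
    _ = (∫⁻ t in Ioc 0 D, ENNReal.ofReal ((1 - t / D) ^ 2)) * volume S := by rw [sv_int D hD0]
    _ = ∫⁻ t in Ioc 0 D, ENNReal.ofReal ((1 - t / D) ^ 2) * volume S := by
        rw [lintegral_mul_const]
        fun_prop
    _ ≤ ∫⁻ t in Ioc 0 D, volume {y : Fin 2 → ℝ | t ≤ (f y).toReal} :=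
        setLIntegral_mono' measurableSet_Ioc hlevel
    _ ≤ ∫⁻ t in Ioi 0, volume {y : Fin 2 → ℝ | t ≤ (f y).toReal} :=
        lintegral_mono_set Ioc_subset_Ioi_self
    _ = volume K := by rw [hvol2, hlc]


end Pool.Agent.Helper865.Wid
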