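import Pool.Agent.Helper865.Wid.Defs

set_option autoImplicit false

open MeasureTheory Set Filter Topology Metric

namespace Pool.Agent.Helper865.Wid

/-- The (minimal) width of `K`: the minimum of the widths in all directions. -/
noncomputable def minWidth (K : Set (E 3)) : ℝ := ⨅ u : sphere (0 : E 3) 1, widthDir K u

/-- Convex bodies in `ℝ³`: compact convex sets with nonempty interior. -/
def IsBody (K : Set (E 3)) : Prop := IsCompact K ∧ Convex ℝ K ∧ (interior K).Nonempty

/-- The least volume of a convex body of width `1` in `ℝ³`. -/
noncomputable def V3 : ENNReal :=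
  ⨅ (K : Set (E 3)) (_ : IsBody K ∧ minWidth K = 1), volume K

end Pool.Agent.Helper865.Wid
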