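import Pool.Agent.Helper865.Wid.VDefs
import Pool.Agent.Helper865.Wid.K1a
import Pool.Agent.Helper865.Wid.K1b
import Pool.Agent.Helper865.Wid.K2
import Pool.Agent.Helper865.Wid.K3
import Pool.Agent.Helper865.Wid.K4
import Pool.Agent.Helper865.Wid.V0
import Pool.Agent.Helper865.Wid.V2
import Pool.Agent.Helper865.Wid.V3b
import Pool.Agent.Helper865.Wid.V3a
import Pool.Agent.Helper865.Wid.Core

set_option autoImplicit false

open MeasureTheory Set Filter Topology Metric

namespace Pool.Agent.Helper865.Wid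

theorem exists_diam (K : Set (E 3)) (hK : IsCompact K) (hne : K.Nonempty) :
    ∃ a ∈ K, ∃ b ∈ K, ∀ x ∈ K, ∀ y ∈ K, dist x y ≤ dist a b := by
  obtain ⟨p, hp, hmax⟩ := (hK.prod hK).exists_isMaxOn (hne.prod hne)
    (f := fun p : E 3 × E 3 => dist p.1 p.2) (Continuous.continuousOn (by fun_prop))
  refine ⟨p.1, hp.1, p.2, hp.2, ?_⟩
  intro x hx y hy
  have h := isMaxOn_iff.mp hmax (x, y) (Set.mk_mem_prod hx hy)
  exact h

theorem exists_far (K : Set (E 3)) (hK : IsCompact K) (hne : K.Nonempty)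
    (hw : ∀ u : E 3, ‖u‖ = 1 → 1 ≤ widthDir K u) : ∃ x ∈ K, ∃ y ∈ K, 1 ≤ dist x y := by
  obtain ⟨e, he⟩ : ∃ e : E 3, ‖e‖ = 1 := ⟨EuclideanSpace.single (0 : Fin 3) (1 : ℝ), by simp⟩
  have hcont : Continuous (fun x : E 3 => inner ℝ x e) := continuous_id.inner continuous_const
  obtain ⟨x, hx, hxm⟩ := hK.exists_isMaxOn hne hcont.continuousOn
  obtain ⟨y, hy, hym⟩ := hK.exists_isMinOn hne hcont.continuousOn
  refine ⟨x, hx, y, hy, ?_⟩
  have h1 := hw e he
  have hs : sSup ((fun x => inner ℝ x e) '' K) ≤ inner ℝ x e := by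
    apply csSup_le (hne.image _)
    rintro _ ⟨z, hz, rfl⟩
    exact isMaxOn_iff.mp hxm z hz
  have hi' : inner ℝ y e ≤ sInf ((fun x => inner ℝ x e) '' K) := by
    apply le_csInf (hne.image _)
    rintro _ ⟨z, hz, rfl⟩
    exact isMinOn_iff.mp hym z hz
  unfold widthDir at h1
  have h2 : 1 ≤ inner ℝ (x - y) e := by
    rw [inner_sub_left]
    linarith
  have h3 := real_inner_le_norm (x - y) e
  rw [he, mul_one, ← dist_eq_norm] at h3
  linarith

theorem vol_ge (K : Set (E 3)) (hK : IsCompact K) (hC : Convex ℝ K) (hi : (interior K).Nonempty)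
    (hw : ∀ u : E 3, ‖u‖ = 1 → 1 ≤ widthDir K u) : ENNReal.ofReal (218 / 1000) ≤ volume K := by
  have hne : K.Nonempty := hi.mono interior_subset
  obtain ⟨a, ha, b, hb, hmax'⟩ := exists_diam K hK hne
  have hD : 1 ≤ dist a b := by
    obtain ⟨x, hx, y, hy, hxy⟩ := exists_far K hK hne hw
    exact hxy.trans (hmax' x hx y hy)
  have hne' : a ≠ b := by
    intro h
    rw [h, dist_self] at hD
    linarith
  obtain ⟨K', hK'c, hK'C, hK'i, hK'w, hK'd, hvol⟩ :=
    shadow shadowVol K hK hC hi hw a b ha hb hne'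
  have hD' : ∀ x ∈ K', ∀ y ∈ K', dist x y ≤ dist a b := by
    intro x hx y hy
    obtain ⟨x', hx', y', hy', h⟩ := hK'd x hx y hy
    exact h.trans (hmax' x' hx' y' hy')
  have hpi := Real.pi_gt_three
  rcases palCore inballMax touching capArea capSector sectorsDisjoint inCone spread K' hK'c hK'C
    hK'i hK'w (dist a b) dist_nonneg hD' with h | ⟨r, hr1, hr2, hrD, h⟩
  · refine le_trans ?_ hvol
    calc ENNReal.ofReal (218 / 1000)
        ≤ ENNReal.ofReal (dist a b / 3) * ENNReal.ofReal (Real.pi / 4) := by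
          rw [← ENNReal.ofReal_mul (by positivity)]
          apply ENNReal.ofReal_le_ofReal
          nlinarith
      _ ≤ ENNReal.ofReal (dist a b / 3) * volume K' := by gcongr
  · refine le_trans ?_ hvol
    have hn := numeric r (dist a b) hr1 hr2 hD hrD
    calc ENNReal.ofReal (218 / 1000)
        ≤ ENNReal.ofReal (dist a b / 3) * ENNReal.ofReal (Real.pi * r ^ 2
          + 3 * (r * √((1 - r) ^ 2 - r ^ 2) - r ^ 2 * Real.arccos (r / (1 - r)))) := by
          rw [← ENNReal.ofReal_mul (by positivity)]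
          apply ENNReal.ofReal_le_ofReal
          linarith
      _ ≤ ENNReal.ofReal (dist a b / 3) * volume K' := by gcongr

theorem width_ge (K : Set (E 3)) (hK : IsBody K) (hw : minWidth K = 1) :
    ∀ u : E 3, ‖u‖ = 1 → 1 ≤ widthDir K u := by
  intro u hu
  rw [← hw]
  have hu' : u ∈ sphere (0 : E 3) 1 := by simpa using hu
  refine ciInf_le (f := fun u : sphere (0 : E 3) 1 => widthDir K u) ?_ ⟨u, hu'⟩
  refine ⟨0, ?_⟩
  rintro _ ⟨v, rfl⟩
  obtain ⟨x, hx⟩ := hK.2.2.mono interior_subset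
  have hcont : Continuous (fun x : E 3 => inner ℝ x (v : E 3)) :=
    continuous_id.inner continuous_const
  have h1 : inner ℝ x (v : E 3) ≤ sSup ((fun x => inner ℝ x (v : E 3)) '' K) :=
    le_csSup (hK.1.image hcont).bddAbove ⟨x, hx, rfl⟩
  have h2 : sInf ((fun x => inner ℝ x (v : E 3)) '' K) ≤ inner ℝ x (v : E 3) :=
    csInf_le (hK.1.image hcont).bddBelow ⟨x, hx, rfl⟩
  show 0 ≤ widthDir K v
  unfold widthDir
  linarith

/-- The main theorem. -/
theorem final : ENNReal.ofReal (218 / 1000) ≤ V3 ∧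
    ∀ K : Set (E 3), IsBody K → minWidth K = 1 → 218 / 1000 ≤ (volume K).toReal := by
  have key : ∀ K : Set (E 3), IsBody K → minWidth K = 1 →
      ENNReal.ofReal (218 / 1000) ≤ volume K := fun K hK hw =>
    vol_ge K hK.1 hK.2.1 hK.2.2 (width_ge K hK hw)
  refine ⟨le_iInf₂ fun K h => key K h.1 h.2, ?_⟩
  intro K hK hw
  exact (ENNReal.ofReal_le_iff_le_toReal hK.1.measure_lt_top.ne).mp (key K hK hw)

end Pool.Agent.Helper865.Wid
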